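import Pool.Agent.H.MP_cba12a_lc.S9.Self9

/-!
Closure of the estimate of the total weight.
-/

namespace Pool.Agent.H.MP_cba12a_lc

/-- The closure of the estimate of the total weight: a self-referential bound gives an absolute
one. -/
theorem self_bound10 (a b d t : ℕ) : ∃ C : ℕ, ∀ q W A : ℝ, 1 ≤ q → 1 ≤ A →
    (∀ (ℓ1 : ℕ) (W1 : ℝ), 1 ≤ ℓ1 → 1 ≤ W1 → W ≤ W1 →
      (∀ ℓ : ℕ, ℓ1 ≤ ℓ → d * (a * ℓ ^ 2 * W1) ^ (t + 1) * (ℓ * (ℓ + 1)) ≤ 2 ^ ℓ) →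
      W ≤ b * (3 * ℓ1 * q) ^ (t + 1) + A) →
    W ≤ C * (q ^ (2 * (t + 1)) + A) := by
  obtain ⟨c, hc1, hc⟩ := poly_le_two_pow (d * a ^ (t + 1) * 2)
    ((2 + 2 * (t + 1)) * (t + 1) + 2)
  refine ⟨(2 * 4 ^ (t + 1) * (b * (3 * c) ^ (t + 1))) ^ 2 + 2 * 4 ^ (t + 1) + 1, ?_⟩
  intro q W A hq hA hW
  have hq0 : (0 : ℝ) ≤ q ^ (2 * (t + 1)) := by positivity
  have hA0 : (0 : ℝ) ≤ A := by linarith
  have hex : ∃ z : ℕ, 1 ≤ z ∧ W ≤ (z : ℝ) ^ (2 * (t + 1)) := by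
    obtain ⟨n, hn⟩ := exists_nat_ge W
    refine ⟨n + 1, by omega, ?_⟩
    have h0 : (0 : ℝ) ≤ (n : ℝ) := Nat.cast_nonneg n
    calc W ≤ n := hn
      _ ≤ ((n + 1 : ℕ) : ℝ) ^ 1 := by push_cast; linarith
      _ ≤ ((n + 1 : ℕ) : ℝ) ^ (2 * (t + 1)) :=
          pow_le_pow_right₀ (by push_cast; linarith) (by omega)
  classical
  obtain ⟨z, hz1, hzW, hzmin⟩ : ∃ z : ℕ, 1 ≤ z ∧ W ≤ (z : ℝ) ^ (2 * (t + 1)) ∧
      ∀ m < z, ¬ (1 ≤ m ∧ W ≤ (m : ℝ) ^ (2 * (t + 1))) :=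
    ⟨Nat.find hex, (Nat.find_spec hex).1, (Nat.find_spec hex).2,
      fun m hm => Nat.find_min hex hm⟩
  have hzr : (1 : ℝ) ≤ (z : ℝ) := by exact_mod_cast hz1
  have hmain : W ≤ b * (3 * ((c * z : ℕ) : ℝ) * q) ^ (t + 1) + A := by
    apply hW (c * z) ((z : ℝ) ^ (2 * (t + 1))) (Nat.one_le_iff_ne_zero.mpr (by positivity))
      (one_le_pow₀ hzr) hzW
    intro ℓ hℓ
    have hℓc : c ≤ ℓ := le_trans (Nat.le_mul_of_pos_right c (by omega)) hℓ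
    have hℓz : z ≤ ℓ := le_trans (Nat.le_mul_of_pos_left z (by omega)) hℓ
    have hℓzr : (z : ℝ) ≤ (ℓ : ℝ) := by exact_mod_cast hℓz
    have hℓ1 : (1 : ℝ) ≤ (ℓ : ℝ) := le_trans hzr hℓzr
    have h := hc ℓ hℓc
    have h' : ((d * a ^ (t + 1) * 2 * ℓ ^ ((2 + 2 * (t + 1)) * (t + 1) + 2) : ℕ) : ℝ) ≤
        ((2 ^ ℓ : ℕ) : ℝ) := by exact_mod_cast h
    push_cast at h'
    refine le_trans ?_ h'
    have h1 : (d : ℝ) * ((a : ℝ) * (ℓ : ℝ) ^ 2 * (z : ℝ) ^ (2 * (t + 1))) ^ (t + 1) ≤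
        (d : ℝ) * ((a : ℝ) * (ℓ : ℝ) ^ 2 * (ℓ : ℝ) ^ (2 * (t + 1))) ^ (t + 1) := by
      gcongr
    have h2 : (ℓ : ℝ) * ((ℓ : ℝ) + 1) ≤ 2 * (ℓ : ℝ) ^ 2 := by nlinarith
    calc (d : ℝ) * ((a : ℝ) * (ℓ : ℝ) ^ 2 * (z : ℝ) ^ (2 * (t + 1))) ^ (t + 1) *
          ((ℓ : ℝ) * ((ℓ : ℝ) + 1))
        ≤ (d : ℝ) * ((a : ℝ) * (ℓ : ℝ) ^ 2 * (ℓ : ℝ) ^ (2 * (t + 1))) ^ (t + 1) *
          (2 * (ℓ : ℝ) ^ 2) := by
          apply mul_le_mul h1 h2 (by positivity) (by positivity)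
      _ = (d : ℝ) * (a : ℝ) ^ (t + 1) * 2 * (ℓ : ℝ) ^ ((2 + 2 * (t + 1)) * (t + 1) + 2) := by
          rw [mul_assoc (a : ℝ), ← pow_add, mul_pow, ← pow_mul, pow_add _ _ 2]
          ring
  set p : ℕ := t + 1 with hp
  set x : ℝ := (z : ℝ) ^ p with hx
  set D : ℝ := (b : ℝ) * (3 * (c : ℝ) * q) ^ p with hD
  set E : ℝ := (4 : ℝ) ^ p with hE
  have hx0 : 0 < x := by positivity
  have hE0 : 0 < E := by positivity
  have hc0 : (0 : ℝ) ≤ (c : ℝ) := Nat.cast_nonneg c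
  have hb0 : (0 : ℝ) ≤ (b : ℝ) := Nat.cast_nonneg b
  have hD0 : 0 ≤ D := by positivity
  have hx2 : (z : ℝ) ^ (2 * p) = x ^ 2 := by rw [hx, ← pow_mul, mul_comm p 2]
  have hm2 : W ≤ D * x + A := by
    have e : (b : ℝ) * (3 * ((c * z : ℕ) : ℝ) * q) ^ p = D * x := by
      rw [hD, hx, mul_assoc (b : ℝ), ← mul_pow]; congr 2; push_cast; ring
    rw [e] at hmain; exact hmain
  have hC : (((2 * 4 ^ p * (b * (3 * c) ^ p)) ^ 2 + 2 * 4 ^ p + 1 : ℕ) : ℝ) =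
      (2 * E * ((b : ℝ) * (3 * (c : ℝ)) ^ p)) ^ 2 + 2 * E + 1 := by
    push_cast; rw [hE]
  rw [hC]
  have hsq0 : 0 ≤ (2 * E * ((b : ℝ) * (3 * (c : ℝ)) ^ p)) ^ 2 := sq_nonneg _
  rcases Nat.lt_or_ge z 2 with hz2 | hz2
  · have hz : z = 1 := by omega
    have : W ≤ 1 := by rw [hz] at hzW; simpa using hzW
    nlinarith [mul_nonneg hsq0 hq0, mul_nonneg hsq0 hA0, mul_nonneg hE0.le hq0,
      mul_nonneg hE0.le hA0]
  · have hnot := hzmin (z - 1) (by omega)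
    have hlow : ((z - 1 : ℕ) : ℝ) ^ (2 * p) < W := by
      by_contra hcon
      exact hnot ⟨by omega, not_lt.mp hcon⟩
    have hz2r : (2 : ℝ) ≤ (z : ℝ) := by exact_mod_cast hz2
    have hhalf : (z : ℝ) / 2 ≤ ((z - 1 : ℕ) : ℝ) := by
      rw [Nat.cast_sub (by omega)]; push_cast; linarith
    have hlow2 : ((z : ℝ) / 2) ^ (2 * p) < W :=
      lt_of_le_of_lt (pow_le_pow_left₀ (by positivity) hhalf _) hlow
    have hdiv : ((z : ℝ) / 2) ^ (2 * p) = x ^ 2 / E := by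
      rw [div_pow, hx2, hE, pow_mul]; norm_num
    rw [hdiv, div_lt_iff₀ hE0] at hlow2
    have hkey : x ^ 2 < E * (D * x) + E * A := by nlinarith
    have hWx : W ≤ x ^ 2 := by rw [← hx2]; exact hzW
    have hDsq : (2 * E * D) ^ 2 =
        (2 * E * ((b : ℝ) * (3 * (c : ℝ)) ^ p)) ^ 2 * q ^ (2 * p) := by
      rw [hD, mul_pow (3 * (c : ℝ)) q p, pow_mul' q 2 p]; ring
    have hfin : x ^ 2 ≤ (2 * E * D) ^ 2 + 2 * E * A := by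
      rcases le_total x (2 * E * D) with h | h
      · have h3 : x ^ 2 ≤ (2 * E * D) ^ 2 := pow_le_pow_left₀ hx0.le h 2
        nlinarith [mul_nonneg hE0.le hA0]
      · have h3 : 2 * E * D * x ≤ x * x := mul_le_mul_of_nonneg_right h hx0.le
        nlinarith [sq_nonneg (2 * E * D)]
    rw [hDsq] at hfin
    nlinarith [mul_nonneg hsq0 hq0, mul_nonneg hsq0 hA0, mul_nonneg hE0.le hq0,
      mul_nonneg hE0.le hA0]

end Pool.Agent.H.MP_cba12a_lc
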