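import Pool.Agent.H.MP_cba12a_lc.S10.Fam10

/-!
Second moments.
-/

namespace Pool.Agent.H.MP_cba12a_lc

open Finset

variable {n : ℕ}

variable {t d K0 L : ℕ} {κ : ℝ} {X : Finset (Fin n)} {G : Finset (Finset (Fin n × Bool))}

/-- second moment bound above `S` -/
theorem wS_le10 (h : Fam10 t d K0 κ X G) {S : Finset (Fin n × Bool)} {c : ℝ} (hc : 0 ≤ c)
    (hS : S.card ≤ K0) (hz : ∀ T ∈ G, S ⊆ T → zS G S T ≤ wS G S + c) :
    wS G S ≤ (1 + c) / κ := by
  classical
  rw [le_div_iff₀ h.pos]
  set w := wS G S with hw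
  have hw0 : 0 ≤ w := wS_nonneg G S
  rcases (G.filter fun T => S ⊆ T).eq_empty_or_nonempty with hemp | ⟨T0, hT0⟩
  · have : w = 0 := by
      rw [hw]
      unfold wS
      rw [hemp, sum_empty]
    rw [this]
    linarith
  rw [mem_filter] at hT0
  have hScons : (vs S).card = S.card := cons_mono hT0.2 (h.cons T0 hT0.1)
  have hSX : Disjoint (vs S) X := (h.dis T0 hT0.1).mono_left (vs_mono hT0.2)
  set GS := G.filter fun T => S ⊆ T with hGS
  set N : (Fin n → Bool) → ℝ := fun x => ∑ T ∈ GS, if SatT T x then (1 : ℝ) else 0 with hN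
  set s : (Fin n → Bool) → ℝ := fun x => if SatT S x then (1 : ℝ) else 0 with hs
  have hsN : ∀ x, s x * N x = N x := by
    intro x
    simp only [hs, hN]
    split_ifs with h1
    · rw [one_mul]
    · rw [zero_mul]
      symm
      refine sum_eq_zero fun T hT => ?_
      rw [if_neg]
      intro hc
      exact h1 (satT_mono (mem_filter.1 hT).2 hc)
  -- first moment
  have hm1 : ∑ x, N x = 2 ^ n * (wF S * w) := by
    simp only [hN]
    rw [sum_comm]
    have : ∀ T ∈ GS, ∑ x : Fin n → Bool, (if SatT T x then (1 : ℝ) else 0) =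
        2 ^ n * (wF S * wF (T \ S)) := by
      intro T hT
      rw [sum_ite_mu, mu_sat1_eq (h.cons T (mem_filter.1 hT).1), wF_sub (mem_filter.1 hT).2]
    rw [sum_congr rfl this, ← mul_sum, ← mul_sum]
    rfl
  -- second moment
  have hm2 : ∑ x, N x ^ 2 ≤ 2 ^ n * (wF S * w * (1 + w + c)) := by
    have e1 : ∀ x, N x ^ 2 = ∑ T ∈ GS, ∑ T' ∈ GS,
        (if SatT (T ∪ T') x then (1 : ℝ) else 0) := by
      intro x
      rw [sq]
      simp only [hN]
      rw [sum_mul_sum]
      refine sum_congr rfl fun T _ => sum_congr rfl fun T' _ => ?_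
      by_cases h1 : SatT T x <;> by_cases h2 : SatT T' x <;> simp [satT_union, h1, h2]
    simp only [e1]
    rw [sum_comm]
    have e2 : ∀ T ∈ GS, ∑ x : Fin n → Bool, ∑ T' ∈ GS,
        (if SatT (T ∪ T') x then (1 : ℝ) else 0) ≤ 2 ^ n * (wF T * (1 + w + c)) := by
      intro T hT
      have hT' := mem_filter.1 hT
      rw [sum_comm]
      have e3 : ∀ T' ∈ GS, ∑ x : Fin n → Bool, (if SatT (T ∪ T') x then (1 : ℝ) else 0) ≤
          2 ^ n * (wF T * wF (T' \ T)) := by
        intro T' _
        rw [sum_ite_mu, ← wF_union]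
        exact mul_le_mul_of_nonneg_left (mu_sat1_le _) (by positivity)
      refine (sum_le_sum e3).trans ?_
      rw [← mul_sum, ← mul_sum]
      refine mul_le_mul_of_nonneg_left (mul_le_mul_of_nonneg_left ?_ (wF_pos _).le)
        (by positivity)
      rw [← add_sum_erase GS (fun T' => wF (T' \ T)) hT]
      have e4 : wF (T \ T) = 1 := by
        rw [sdiff_self]
        simp [wF]
      rw [e4]
      have := hz T hT'.1 hT'.2
      unfold zS at this
      linarith
    refine (sum_le_sum e2).trans ?_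
    rw [← mul_sum]
    refine mul_le_mul_of_nonneg_left ?_ (by positivity)
    rw [← sum_mul]
    refine le_of_eq ?_
    congr 1
    rw [hw]
    unfold wS
    rw [mul_sum]
    exact sum_congr rfl fun T hT => wF_sub (mem_filter.1 hT).2
  have hm0 : ∑ x, s x ≤ 2 ^ n * wF S := by
    simp only [hs]
    rw [sum_ite_mu]
    exact mul_le_mul_of_nonneg_left (mu_sat1_le _) (by positivity)
  -- lower bound
  have hlow : 2 ^ n * (κ * wF S) * w ^ 2 ≤ ∑ x, s x * (N x - w) ^ 2 := by
    have h1 := h.low S hScons hSX hS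
    have h2 : ∀ x, (if (SatT S x ∧ ∀ A ∈ G, ¬ SatT A x) then (1 : ℝ) else 0) * w ^ 2 ≤
        s x * (N x - w) ^ 2 := by
      intro x
      split_ifs with h3
      · have h4 : N x = 0 := by
          simp only [hN]
          refine sum_eq_zero fun T hT => ?_
          rw [if_neg (h3.2 T (mem_filter.1 hT).1)]
        simp only [hs]
        rw [if_pos h3.1, h4]
        exact le_of_eq (by ring)
      · rw [zero_mul]
        simp only [hs]
        split_ifs
        · positivity
        · simp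
    have h5 := sum_le_sum fun x (_ : x ∈ (univ : Finset (Fin n → Bool))) => h2 x
    rw [← sum_mul, sum_ite_mu] at h5
    refine le_trans ?_ h5
    refine mul_le_mul_of_nonneg_right ?_ (by positivity)
    exact mul_le_mul_of_nonneg_left h1 (by positivity)
  have hexp : ∑ x, s x * (N x - w) ^ 2 = ∑ x, N x ^ 2 - 2 * w * ∑ x, N x + w ^ 2 * ∑ x, s x := by
    rw [mul_sum, mul_sum, ← sum_sub_distrib, ← sum_add_distrib]
    refine sum_congr rfl fun x _ => ?_
    have h1 := hsN x
    have h2 : s x * N x ^ 2 = N x ^ 2 := by rw [sq, ← mul_assoc, h1]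
    calc s x * (N x - w) ^ 2 = s x * N x ^ 2 - 2 * w * (s x * N x) + w ^ 2 * s x := by ring
      _ = _ := by rw [h1, h2]
  rw [hexp, hm1] at hlow
  have hp : (0 : ℝ) < 2 ^ n := by positivity
  have hwS := wF_pos S
  have h6 : w ^ 2 * ∑ x, s x ≤ w ^ 2 * (2 ^ n * wF S) :=
    mul_le_mul_of_nonneg_left hm0 (by positivity)
  have h7 : (2 ^ n * wF S) * (κ * w ^ 2) ≤ (2 ^ n * wF S) * (w * (1 + c)) := by
    have e : (2 ^ n * wF S) * (w * (1 + c)) = 2 ^ n * (wF S * w * (1 + w + c)) -
        2 * w * (2 ^ n * (wF S * w)) + w ^ 2 * (2 ^ n * wF S) := by ring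
    rw [e]
    have e2 : (2 ^ n * wF S) * (κ * w ^ 2) = 2 ^ n * (κ * wF S) * w ^ 2 := by ring
    rw [e2]
    linarith
  have h8 : κ * w ^ 2 ≤ w * (1 + c) := le_of_mul_le_mul_left h7 (by positivity)
  rcases hw0.eq_or_lt with h0 | h0
  · rw [← h0]
    linarith
  · have h9 : w * (w * κ) ≤ w * (1 + c) := by
      refine le_trans (le_of_eq (by ring)) h8
    exact le_of_mul_le_mul_left h9 h0

/-- the second moment bound for all terms, with an averaged hypothesis -/
theorem sm10 (h : Fam10 t d K0 κ X G) {c : ℝ} (hc : 0 ≤ c)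
    (hz : ∑ T ∈ G, wF T * zS G ∅ T ≤ tW G * (tW G + c)) : tW G ≤ (1 + c) / κ := by
  classical
  rw [le_div_iff₀ h.pos]
  set w := tW G with hw
  have hw0 : 0 ≤ w := tW_nonneg G
  set N : (Fin n → Bool) → ℝ := fun x => ∑ T ∈ G, if SatT T x then (1 : ℝ) else 0 with hN
  -- first moment
  have hm1 : ∑ x, N x = 2 ^ n * w := by
    simp only [hN]
    rw [sum_comm]
    have : ∀ T ∈ G, ∑ x : Fin n → Bool, (if SatT T x then (1 : ℝ) else 0) =
        2 ^ n * wF T := by
      intro T hT
      rw [sum_ite_mu, mu_sat1_eq (h.cons T hT)]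
    rw [sum_congr rfl this, ← mul_sum]
    rfl
  -- second moment
  have hm2 : ∑ x, N x ^ 2 ≤ 2 ^ n * (w + w * (w + c)) := by
    have e1 : ∀ x, N x ^ 2 = ∑ T ∈ G, ∑ T' ∈ G,
        (if SatT (T ∪ T') x then (1 : ℝ) else 0) := by
      intro x
      rw [sq]
      simp only [hN]
      rw [sum_mul_sum]
      refine sum_congr rfl fun T _ => sum_congr rfl fun T' _ => ?_
      by_cases h1 : SatT T x <;> by_cases h2 : SatT T' x <;> simp [satT_union, h1, h2]
    simp only [e1]
    rw [sum_comm]
    have e2 : ∀ T ∈ G, ∑ x : Fin n → Bool, ∑ T' ∈ G,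
        (if SatT (T ∪ T') x then (1 : ℝ) else 0) ≤ 2 ^ n * (wF T + wF T * zS G ∅ T) := by
      intro T hT
      rw [sum_comm]
      have e3 : ∀ T' ∈ G, ∑ x : Fin n → Bool, (if SatT (T ∪ T') x then (1 : ℝ) else 0) ≤
          2 ^ n * (wF T * wF (T' \ T)) := by
        intro T' _
        rw [sum_ite_mu, ← wF_union]
        exact mul_le_mul_of_nonneg_left (mu_sat1_le _) (by positivity)
      refine (sum_le_sum e3).trans ?_
      rw [← mul_sum, ← mul_sum]
      refine mul_le_mul_of_nonneg_left ?_ (by positivity)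
      rw [← add_sum_erase G (fun T' => wF (T' \ T)) hT]
      have e4 : wF (T \ T) = 1 := by
        rw [sdiff_self]
        simp [wF]
      rw [e4]
      have e5 : zS G ∅ T = ∑ x ∈ G.erase T, wF (x \ T) := by
        unfold zS
        rw [filter_true_of_mem (fun T _ => empty_subset T)]
      rw [e5]
      exact le_of_eq (by ring)
    refine (sum_le_sum e2).trans ?_
    rw [← mul_sum, sum_add_distrib]
    refine mul_le_mul_of_nonneg_left ?_ (by positivity)
    have e6 : ∑ T ∈ G, wF T = w := rfl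
    rw [e6]
    linarith
  -- lower bound
  have hlow : 2 ^ n * κ * w ^ 2 ≤ ∑ x, (N x - w) ^ 2 := by
    have h1 := h.low ∅ (by simp [vs]) (by simp [vs]) (by simp)
    have e0 : wF (∅ : Finset (Fin n × Bool)) = 1 := by simp [wF]
    rw [e0, mul_one] at h1
    have h2 : ∀ x, (if (SatT ∅ x ∧ ∀ A ∈ G, ¬ SatT A x) then (1 : ℝ) else 0) * w ^ 2 ≤
        (N x - w) ^ 2 := by
      intro x
      split_ifs with h3
      · have h4 : N x = 0 := by
          simp only [hN]
          refine sum_eq_zero fun T hT => ?_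
          rw [if_neg (h3.2 T hT)]
        rw [h4]
        exact le_of_eq (by ring)
      · rw [zero_mul]
        positivity
    have h5 := sum_le_sum fun x (_ : x ∈ (univ : Finset (Fin n → Bool))) => h2 x
    rw [← sum_mul, sum_ite_mu] at h5
    refine le_trans ?_ h5
    refine mul_le_mul_of_nonneg_right ?_ (by positivity)
    exact mul_le_mul_of_nonneg_left h1 (by positivity)
  have hcard : ∑ _x : Fin n → Bool, (1 : ℝ) = 2 ^ n := by
    rw [sum_const, card_univ, Fintype.card_fun, Fintype.card_fin, Fintype.card_bool]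
    simp
  have hexp : ∑ x, (N x - w) ^ 2 = ∑ x, N x ^ 2 - 2 * w * ∑ x, N x +
      w ^ 2 * ∑ _x : Fin n → Bool, (1 : ℝ) := by
    rw [mul_sum, mul_sum, ← sum_sub_distrib, ← sum_add_distrib]
    refine sum_congr rfl fun x _ => ?_
    ring
  rw [hexp, hm1, hcard] at hlow
  have hp : (0 : ℝ) < 2 ^ n := by positivity
  have h7 : (2 ^ n : ℝ) * (κ * w ^ 2) ≤ 2 ^ n * (w * (1 + c)) := by
    have e : (2 ^ n : ℝ) * (w * (1 + c)) = 2 ^ n * (w + w * (w + c)) -
        2 * w * (2 ^ n * w) + w ^ 2 * 2 ^ n := by ring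
    rw [e]
    have e2 : (2 ^ n : ℝ) * (κ * w ^ 2) = 2 ^ n * κ * w ^ 2 := by ring
    rw [e2]
    linarith
  have h8 : κ * w ^ 2 ≤ w * (1 + c) := le_of_mul_le_mul_left h7 hp
  rcases hw0.eq_or_lt with h0 | h0
  · rw [← h0]
    linarith
  · have h9 : w * (w * κ) ≤ w * (1 + c) := by
      refine le_trans (le_of_eq (by ring)) h8
    exact le_of_mul_le_mul_left h9 h0

/-- the sum over the other terms above a set of `t + 1` literals is at most `d` -/
theorem zS_top10 (h : Fam10 t d K0 κ X G) {S T : Finset (Fin n × Bool)} (hS : S.card = t + 1)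
    (hT : T ∈ G) (hST : S ⊆ T) : zS G S T ≤ d := by
  classical
  have h1 : (vs S).card = t + 1 := by
    rw [cons_mono hST (h.cons T hT), hS]
  have h2 := h.codeg (vs S) h1
  have h3 : ((G.filter fun T => S ⊆ T).erase T).card ≤ d := by
    refine le_trans (card_le_card ?_) h2
    intro T' hT'
    rw [mem_erase, mem_filter] at hT'
    exact mem_filter.2 ⟨hT'.2.1, vs_mono hT'.2.2⟩
  unfold zS
  calc ∑ T' ∈ (G.filter fun T => S ⊆ T).erase T, wF (T' \ T)
      ≤ ∑ _T' ∈ (G.filter fun T => S ⊆ T).erase T, (1 : ℝ) :=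
        sum_le_sum fun T' _ => wF_le_one _
    _ = (((G.filter fun T => S ⊆ T).erase T).card : ℝ) := by
        rw [sum_const, nsmul_eq_mul, mul_one]
    _ ≤ d := by exact_mod_cast h3

/-- the induction on the size of `S` -/
theorem mlemma10 (h : Fam10 t d K0 κ X G) (hK : t + 1 ≤ K0) (hd : 1 ≤ d) (hL : 1 ≤ L)
    (hlen : ∀ T ∈ G, T.card ≤ L) : ∀ (i : ℕ) (S : Finset (Fin n × Bool)),
    S.card + i = t + 1 → (∀ T ∈ G, S ⊆ T → zS G S T ≤ d * (3 * L / κ) ^ i) ∧
      (1 ≤ i → wS G S ≤ d * (3 * L / κ) ^ i) := by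
  have hκ := h.pos
  have hκ1 := h.le_one
  have hL' : (1 : ℝ) ≤ L := by exact_mod_cast hL
  have hd' : (1 : ℝ) ≤ d := by exact_mod_cast hd
  have hb1 : (1 : ℝ) ≤ 3 * L / κ := by
    rw [le_div_iff₀ hκ]
    linarith
  intro i
  induction i with
  | zero =>
    intro S hS
    refine ⟨fun T hT hST => ?_, fun h => absurd h (by norm_num)⟩
    have := zS_top10 h (by omega) hT hST
    simpa using this
  | succ i ih =>
    intro S hS
    set b := (d : ℝ) * (3 * (L : ℝ) / κ) ^ i with hb
    have hb0 : 1 ≤ b := by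
      have := one_le_pow₀ hb1 (n := i)
      nlinarith
    have hstep : ∀ T ∈ G, S ⊆ T → zS G S T ≤ wS G S + L * b := by
      intro T hT hST
      refine (zS_step hST).trans ?_
      have h1 : ∑ l ∈ T \ S, zS G (insert l S) T ≤ ∑ _l ∈ T \ S, b := by
        refine sum_le_sum fun l hl => ?_
        rw [mem_sdiff] at hl
        refine (ih (insert l S) ?_).1 T hT (insert_subset hl.1 hST)
        rw [card_insert_of_notMem hl.2]
        omega
      rw [sum_const, nsmul_eq_mul] at h1
      have h2 : ((T \ S).card : ℝ) ≤ L := by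
        have := (card_le_card (sdiff_subset (s := T) (t := S))).trans (hlen T hT)
        exact_mod_cast this
      have h3 : ((T \ S).card : ℝ) * b ≤ L * b :=
        mul_le_mul_of_nonneg_right h2 (by linarith)
      linarith
    have hw := wS_le10 h (S := S) (c := L * b) (by positivity) (by omega) hstep
    have hLb : 1 ≤ L * b := by nlinarith
    have hw2 : wS G S ≤ 2 * L * b / κ := by
      refine hw.trans (div_le_div_of_nonneg_right ?_ hκ.le)
      linarith
    have e : (d : ℝ) * (3 * (L : ℝ) / κ) ^ (i + 1) = 3 * L * b / κ := by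
      rw [pow_succ, hb]
      ring
    rw [e]
    have h3 : 3 * (L : ℝ) * b / κ = 2 * L * b / κ + L * b / κ := by ring
    have h4 : L * b ≤ L * b / κ := by
      rw [le_div_iff₀ hκ]
      nlinarith
    refine ⟨fun T hT hST => ?_, fun _ => ?_⟩
    · have := hstep T hT hST
      linarith
    · have : 0 ≤ L * b / κ := by positivity
      linarith

/-- the total weight of the terms of length at most `L` -/
theorem short10 (h : Fam10 t d K0 κ X G) (hK : t + 1 ≤ K0) (hd : 1 ≤ d) (hL : 1 ≤ L)
    (hlen : ∀ T ∈ G, T.card ≤ L) : tW G ≤ d * (3 * L / κ) ^ (t + 1) := by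
  have h1 := (mlemma10 h hK hd hL hlen (t + 1) ∅ (by simp)).2 (by omega)
  refine le_trans (le_of_eq ?_) h1
  unfold wS tW
  rw [filter_true_of_mem (fun T _ => empty_subset T)]
  simp

end Pool.Agent.H.MP_cba12a_lc
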