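import Pool.Agent.H.MP_cba12a_lc.S10.Ext10
import Pool.Agent.H.MP_cba12a_lc.S10.Sec10

/-!
Second moments of the terms with few variables of large degree.
-/

namespace Pool.Agent.H.MP_cba12a_lc

open Finset

/-- The weight of the rest of a term outside another one, in terms of the variables. -/
theorem wF_sdiff_le_vs {n : ℕ} (A B : Finset (Fin n × Bool)) :
    wF (A \ B) ≤ (3 / 4 : ℝ) ^ (vs A \ vs B).card := by
  have h1 : (vs A \ vs B).card ≤ (A \ B).card := by
    refine (card_le_card ?_).trans (card_image_le (s := A \ B) (f := Prod.fst))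
    intro j hj
    rw [mem_sdiff] at hj
    obtain ⟨l, hl, rfl⟩ := mem_vs.1 hj.1
    exact mem_vs.2 ⟨l, mem_sdiff.2 ⟨hl, fun hlB => hj.2 (mem_vs.2 ⟨l, hlB, rfl⟩)⟩, rfl⟩
  calc wF (A \ B) ≤ (1 / 2 : ℝ) ^ (vs A \ vs B).card :=
        pow_le_pow_of_le_one (by norm_num) (by norm_num) h1
    _ ≤ (3 / 4 : ℝ) ^ (vs A \ vs B).card := pow_le_pow_left₀ (by norm_num) (by norm_num) _

/-- A term without a variable of another one is not changed by removing its literals. -/
theorem sdiff_eq_left10 {n : ℕ} {A B : Finset (Fin n × Bool)} (h : ∀ j ∈ vs B, j ∉ vs A) :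
    A \ B = A := by
  rw [Finset.sdiff_eq_self_iff_disjoint, disjoint_left]
  intro l hl hl'
  exact h l.1 (mem_vs.2 ⟨l, hl', rfl⟩) (mem_vs.2 ⟨l, hl, rfl⟩)

/-- The second moment contribution of the pairs of close terms. -/
theorem close_sum_le {n t : ℕ} {C1 : ℕ} {G' : Finset (Finset (Fin n × Bool))}
    (hcons : ∀ T ∈ G', (vs T).card = T.card)
    (hext : ∀ U : Finset (Fin n),
      ∑ A ∈ G'.filter (fun A => t < (vs A ∩ U).card ∧ U.card ≤ 1 * A.card),
        (3 / 4 : ℝ) ^ (vs A \ U).card ≤ C1) :
    ∑ T ∈ G', wF T * ∑ T' ∈ G'.filter (fun T' => T' ≠ T ∧ t < (vs T' ∩ vs T).card),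
      wF (T' \ T) ≤ 2 * C1 * tW G' := by
  classical
  set f : Finset (Fin n × Bool) → Finset (Fin n × Bool) → ℝ := fun T T' =>
    if T.card ≤ T'.card ∧ t < (vs T' ∩ vs T).card then wF (T ∪ T') else 0 with hf
  have hf0 : ∀ T T', 0 ≤ f T T' := by
    intro T T'
    simp only [hf]
    split_ifs
    · exact (wF_pos _).le
    · exact le_rfl
  have h1 : ∀ T ∈ G', ∑ T' ∈ G', f T T' ≤ wF T * C1 := by
    intro T hT
    have h2 : ∑ T' ∈ G', f T T' =
        wF T * ∑ T' ∈ G'.filter (fun T' => T.card ≤ T'.card ∧ t < (vs T' ∩ vs T).card),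
          wF (T' \ T) := by
      rw [mul_sum, sum_filter]
      refine sum_congr rfl fun T' _ => ?_
      simp only [hf]
      split_ifs
      · exact wF_union _ _
      · rfl
    rw [h2]
    refine mul_le_mul_of_nonneg_left ?_ (wF_pos _).le
    refine le_trans ?_ (hext (vs T))
    refine (sum_le_sum fun T' _ => wF_sdiff_le_vs T' T).trans ?_
    refine sum_le_sum_of_subset_of_nonneg ?_ fun _ _ _ => by positivity
    intro T' hT'
    rw [mem_filter] at hT' ⊢
    refine ⟨hT'.1, hT'.2.2, ?_⟩
    rw [hcons T hT, one_mul]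
    exact hT'.2.1
  have h3 : ∀ T ∈ G', wF T * ∑ T' ∈ G'.filter (fun T' => T' ≠ T ∧ t < (vs T' ∩ vs T).card),
      wF (T' \ T) ≤ ∑ T' ∈ G', f T T' + ∑ T' ∈ G', f T' T := by
    intro T _
    rw [mul_sum, ← sum_add_distrib]
    refine le_trans ?_ (sum_le_sum_of_subset_of_nonneg (filter_subset
      (fun T' => T' ≠ T ∧ t < (vs T' ∩ vs T).card) G') fun T' _ _ => add_nonneg (hf0 _ _) (hf0 _ _))
    refine sum_le_sum fun T' hT' => ?_
    rw [mem_filter] at hT'
    rw [← wF_union]
    rcases le_total T.card T'.card with hle | hle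
    · have : f T T' = wF (T ∪ T') := by
        simp only [hf]
        rw [if_pos ⟨hle, hT'.2.2⟩]
      rw [this]
      linarith [hf0 T' T]
    · have : f T' T = wF (T ∪ T') := by
        simp only [hf]
        rw [if_pos ⟨hle, by rw [inter_comm]; exact hT'.2.2⟩, union_comm]
      rw [this]
      linarith [hf0 T T']
  refine (sum_le_sum h3).trans ?_
  rw [sum_add_distrib, sum_comm (f := fun T T' => f T' T)]
  have h4 : ∑ T ∈ G', ∑ T' ∈ G', f T T' ≤ C1 * tW G' := by
    refine (sum_le_sum h1).trans ?_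
    rw [← sum_mul, mul_comm]
    exact le_rfl
  linarith

/-- The total weight of the terms with at most `t` variables of large degree is bounded. -/
theorem good_le10 (t d : ℕ) : ∃ C : ℕ, ∀ (n K0 : ℕ) (κ : ℝ) (X : Finset (Fin n))
    (G G' : Finset (Finset (Fin n × Bool))), Fam10 t d K0 κ X G → G' ⊆ G → ∀ B : ℝ, 0 ≤ B →
    (∀ j, dg G j ≤ B) →
    (∀ T ∈ G', ((vs T).filter fun j => 1 / (T.card : ℝ) < dg G j).card ≤ t) →
    tW G' ≤ (1 + 2 ^ t * (t * B + 1) + C) / κ := by
  classical
  obtain ⟨C1, -, hext⟩ := ext10 t d 1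
  refine ⟨2 * C1, ?_⟩
  intro n K0 κ X G G' h hG' B hB0 hB hgood
  have h' := h.sub hG'
  have hz : ∀ T ∈ G', zS G' ∅ T ≤ tW G' + 2 ^ t * (t * B + 1) +
      ∑ T' ∈ G'.filter (fun T' => T' ≠ T ∧ t < (vs T' ∩ vs T).card), wF (T' \ T) := by
    intro T hT
    have hTc := h.cons T (hG' hT)
    -- the degrees of the variables of `T`
    have hdeg : ∑ j ∈ vs T, dg G j ≤ t * B + 1 := by
      rw [← sum_filter_add_sum_filter_not (vs T) (fun j => 1 / (T.card : ℝ) < dg G j)]
      refine add_le_add ?_ ?_
      · refine (sum_le_card_nsmul _ _ B fun j _ => hB j).trans ?_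
        rw [nsmul_eq_mul]
        refine mul_le_mul_of_nonneg_right ?_ hB0
        exact_mod_cast hgood T hT
      · refine (sum_le_card_nsmul _ _ (1 / (T.card : ℝ)) fun j hj =>
          not_lt.1 (mem_filter.1 hj).2).trans ?_
        rw [nsmul_eq_mul]
        have h1 : (((vs T).filter fun j => ¬ 1 / (T.card : ℝ) < dg G j).card : ℝ) ≤ T.card := by
          rw [← hTc]
          exact_mod_cast card_le_card (filter_subset _ _)
        refine (mul_le_mul_of_nonneg_right h1 (by positivity)).trans ?_
        rw [mul_one_div]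
        exact div_self_le_one _
    -- one term
    have key : ∀ T' ∈ (G'.filter fun T => ∅ ⊆ T).erase T, wF (T' \ T) ≤ wF T' +
        (∑ j ∈ vs T, if j ∈ vs T' then 2 ^ t * wF T' else 0) +
        if t < (vs T' ∩ vs T).card then wF (T' \ T) else 0 := by
      intro T' hT'
      rw [mem_erase, mem_filter] at hT'
      have hnn : ∀ j ∈ vs T, (0 : ℝ) ≤ if j ∈ vs T' then 2 ^ t * wF T' else 0 := by
        intro j _
        split_ifs
        · exact mul_nonneg (by positivity) (wF_pos _).le
        · exact le_rfl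
      by_cases hclose : t < (vs T' ∩ vs T).card
      · rw [if_pos hclose]
        have := sum_nonneg hnn
        have := (wF_pos T').le
        linarith
      rw [if_neg hclose, add_zero]
      by_cases hex : ∃ j ∈ vs T, j ∈ vs T'
      · obtain ⟨j, hj, hj'⟩ := hex
        have h1 := single_le_sum (f := fun j => if j ∈ vs T' then 2 ^ t * wF T' else 0) hnn hj
        simp only [hj', if_true] at h1
        have h2 : wF (T' \ T) ≤ 2 ^ t * wF T' := by
          have h3 : (T' ∩ T).card ≤ t :=
            (card_lit_inter_le (h.cons T' (hG' hT'.2.1))).trans (not_lt.1 hclose)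
          have h4 : T'.card ≤ (T' \ T).card + t := by
            have := card_sdiff_add_card_inter T' T
            omega
          unfold wF
          have h5 : ((1 : ℝ) / 2) ^ ((T' \ T).card + t) ≤ (1 / 2) ^ T'.card :=
            pow_le_pow_of_le_one (by norm_num) (by norm_num) h4
          have h6 : ((1 : ℝ) / 2) ^ (T' \ T).card = 2 ^ t * (1 / 2) ^ ((T' \ T).card + t) := by
            rw [pow_add]
            have : (2 : ℝ) ^ t * (1 / 2) ^ t = 1 := by
              rw [← mul_pow]
              norm_num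
            calc ((1 : ℝ) / 2) ^ (T' \ T).card = (1 / 2) ^ (T' \ T).card * 1 := by ring
              _ = (1 / 2) ^ (T' \ T).card * (2 ^ t * (1 / 2) ^ t) := by rw [this]
              _ = _ := by ring
          rw [h6]
          exact mul_le_mul_of_nonneg_left h5 (by positivity)
        have := (wF_pos T').le
        linarith
      · push Not at hex
        rw [sdiff_eq_left10 hex]
        have := sum_nonneg hnn
        linarith
    unfold zS
    refine (sum_le_sum key).trans ?_
    rw [sum_add_distrib, sum_add_distrib]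
    refine add_le_add (add_le_add ?_ ?_) ?_
    · unfold tW
      refine sum_le_sum_of_subset_of_nonneg ?_ fun T' _ _ => (wF_pos _).le
      exact (erase_subset _ _).trans (filter_subset _ _)
    · rw [sum_comm]
      refine le_trans ?_ (mul_le_mul_of_nonneg_left hdeg (by positivity))
      rw [mul_sum]
      refine sum_le_sum fun j _ => ?_
      rw [← sum_filter, ← mul_sum]
      refine mul_le_mul_of_nonneg_left ?_ (by positivity)
      unfold dg
      refine sum_le_sum_of_subset_of_nonneg ?_ fun T' _ _ => (wF_pos _).le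
      intro T' hT'
      rw [mem_filter, mem_erase, mem_filter] at hT'
      exact mem_filter.2 ⟨hG' hT'.1.2.1, hT'.2⟩
    · rw [← sum_filter]
      refine sum_le_sum_of_subset_of_nonneg ?_ fun T' _ _ => (wF_pos _).le
      intro T' hT'
      rw [mem_filter, mem_erase, mem_filter] at hT'
      exact mem_filter.2 ⟨hT'.1.2.1, hT'.1.1, hT'.2⟩
  have hcl := close_sum_le (t := t) (C1 := C1) h'.cons (hext n G' h'.cons h'.codeg)
  have hsm := sm10 h' (c := 2 ^ t * (t * B + 1) + 2 * C1) (by positivity) (by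
    calc ∑ T ∈ G', wF T * zS G' ∅ T
        ≤ ∑ T ∈ G', (wF T * (tW G' + 2 ^ t * (t * B + 1)) + wF T *
          ∑ T' ∈ G'.filter (fun T' => T' ≠ T ∧ t < (vs T' ∩ vs T).card), wF (T' \ T)) := by
          refine sum_le_sum fun T hT => ?_
          rw [← mul_add]
          exact mul_le_mul_of_nonneg_left (hz T hT) (wF_pos _).le
      _ = tW G' * (tW G' + 2 ^ t * (t * B + 1)) + ∑ T ∈ G', wF T *
          ∑ T' ∈ G'.filter (fun T' => T' ≠ T ∧ t < (vs T' ∩ vs T).card), wF (T' \ T) := by
          rw [sum_add_distrib, ← sum_mul]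
          rfl
      _ ≤ tW G' * (tW G' + 2 ^ t * (t * B + 1)) + 2 * C1 * tW G' := by
          linarith
      _ = tW G' * (tW G' + (2 ^ t * (t * B + 1) + 2 * C1)) := by ring)
  refine hsm.trans (le_of_eq ?_)
  push_cast
  ring

end Pool.Agent.H.MP_cba12a_lc
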