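import Pool.Agent.H.MP_cba12a_lc.S10.Rich10
import Pool.Agent.H.MP_cba12a_lc.S10.Good10

/-!
One step of the estimate of the total weight.
-/

namespace Pool.Agent.H.MP_cba12a_lc

open Finset

/-- the total weight is bounded by the weights of the short, of the big and of the good terms -/
theorem weight_step10 (t d : ℕ) (hd : 1 ≤ d) : ∃ C : ℕ, ∀ (n K0 : ℕ) (κ : ℝ)
    (X : Finset (Fin n)) (G : Finset (Finset (Fin n × Bool))), t + 1 ≤ K0 →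
    Fam10 t d K0 κ X G → ∀ B : ℝ, 0 ≤ B → (∀ j, dg G j ≤ B) → ∀ (ℓ1 : ℕ) (W1 : ℝ), 1 ≤ ℓ1 →
    1 ≤ W1 → tW G ≤ W1 →
    (∀ ℓ : ℕ, ℓ1 ≤ ℓ →
      d * ((6 * d * (t + 1) : ℕ) * ℓ ^ 2 * W1) ^ (t + 1) * (ℓ * (ℓ + 1)) ≤ 2 ^ ℓ) →
    tW G ≤ d * (3 * ℓ1 * (1 / κ)) ^ (t + 1) +
      (1 + (1 + 2 ^ t * (t * B + 1) + C) * (1 / κ)) := by
  classical
  obtain ⟨C, hC⟩ := good_le10 t d
  refine ⟨C, fun n K0 κ X G hK h B hB0 hB ℓ1 W1 hℓ1 hW1 hW hbig => ?_⟩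
  -- the split
  have hsplit : tW G = ∑ T ∈ G.filter (fun T => T.card < ℓ1), wF T +
      (∑ T ∈ G.filter (fun T => ℓ1 ≤ T.card ∧ Big G t (1 / (T.card : ℝ)) T), wF T +
      ∑ T ∈ G.filter (fun T => ℓ1 ≤ T.card ∧ ¬ Big G t (1 / (T.card : ℝ)) T), wF T) := by
    unfold tW
    rw [← sum_filter_add_sum_filter_not G (fun T => T.card < ℓ1)]
    congr 1
    rw [← sum_filter_add_sum_filter_not (G.filter fun T => ¬ T.card < ℓ1)
      (fun T => Big G t (1 / (T.card : ℝ)) T), filter_filter, filter_filter]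
    simp only [not_lt]
  -- the short terms
  have ha : ∑ T ∈ G.filter (fun T => T.card < ℓ1), wF T ≤
      d * (3 * ℓ1 * (1 / κ)) ^ (t + 1) := by
    have h2 := short10 (L := ℓ1) (h.sub (filter_subset (fun T => T.card < ℓ1) G)) hK hd hℓ1
      fun T hT => (mem_filter.1 hT).2.le
    have e : (3 * (ℓ1 : ℝ) / κ) = 3 * ℓ1 * (1 / κ) := by rw [mul_one_div]
    rw [e] at h2
    exact h2
  -- the terms with many variables of large degree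
  have hx : ∀ ℓ : ℕ, ℓ1 ≤ ℓ → (1 : ℝ) ≤ ℓ := fun ℓ hℓ => by
    exact_mod_cast hℓ1.trans hℓ
  have hd1 : (1 : ℝ) ≤ d := by exact_mod_cast hd
  have hb : ∑ T ∈ G.filter (fun T => ℓ1 ≤ T.card ∧ Big G t (1 / (T.card : ℝ)) T), wF T ≤ 1 := by
    refine big_total_le (δ := fun ℓ => 1 / (ℓ : ℝ)) h hd hW1 hW hℓ1 ?_ zero_le_one ?_ ?_
    · intro ℓ hℓ
      have hl := hx ℓ hℓ
      have hc : (1 : ℝ) ≤ ((6 * d * (t + 1) : ℕ) : ℝ) := by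
        have : 1 ≤ 6 * d * (t + 1) := by nlinarith
        exact_mod_cast this
      have hl2 : (ℓ : ℝ) ≤ ((6 * d * (t + 1) : ℕ) : ℝ) * (ℓ : ℝ) ^ 2 := by
        nlinarith
      have h1 : (ℓ : ℝ) * W1 ≤ ((6 * d * (t + 1) : ℕ) : ℝ) * (ℓ : ℝ) ^ 2 * W1 :=
        mul_le_mul_of_nonneg_right hl2 (by linarith)
      have h2 : 1 ≤ ((6 * d * (t + 1) : ℕ) : ℝ) * (ℓ : ℝ) ^ 2 * W1 := by
        refine le_trans ?_ h1
        nlinarith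
      have h3 : ((6 * d * (t + 1) : ℕ) : ℝ) * (ℓ : ℝ) ^ 2 * W1 ≤
          (((6 * d * (t + 1) : ℕ) : ℝ) * (ℓ : ℝ) ^ 2 * W1) ^ (t + 1) :=
        le_self_pow₀ h2 (by omega)
      have h4 : (1 : ℝ) ≤ ℓ * (ℓ + 1) := by nlinarith
      have h5 := hbig ℓ hℓ
      have h7 : (0 : ℝ) ≤ (((6 * d * (t + 1) : ℕ) : ℝ) * (ℓ : ℝ) ^ 2 * W1) ^ (t + 1) := by
        linarith
      have h8 : (((6 * d * (t + 1) : ℕ) : ℝ) * (ℓ : ℝ) ^ 2 * W1) ^ (t + 1) ≤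
          d * (((6 * d * (t + 1) : ℕ) : ℝ) * (ℓ : ℝ) ^ 2 * W1) ^ (t + 1) :=
        le_mul_of_one_le_left h7 hd1
      have h9 : d * (((6 * d * (t + 1) : ℕ) : ℝ) * (ℓ : ℝ) ^ 2 * W1) ^ (t + 1) ≤
          d * (((6 * d * (t + 1) : ℕ) : ℝ) * (ℓ : ℝ) ^ 2 * W1) ^ (t + 1) * (ℓ * (ℓ + 1)) :=
        le_mul_of_one_le_right (h7.trans h8) h4
      linarith
    · intro ℓ hℓ
      have hl := hx ℓ hℓ
      positivity
    · intro ℓ hℓ
      have hl := hx ℓ hℓ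
      have h5 := hbig ℓ hℓ
      have hpos : (0 : ℝ) < ℓ * (ℓ + 1) := by nlinarith
      rw [le_div_iff₀ hpos]
      have e0 : 6 * (d : ℝ) * (t + 1) * ℓ * W1 / (1 / (ℓ : ℝ)) =
          ((6 * d * (t + 1) : ℕ) : ℝ) * (ℓ : ℝ) ^ 2 * W1 := by
        rw [div_div_eq_mul_div, div_one]
        push_cast
        ring
      rw [e0]
      calc d * (((6 * d * (t + 1) : ℕ) : ℝ) * (ℓ : ℝ) ^ 2 * W1) ^ (t + 1) * (1 / 2) ^ ℓ *
            (ℓ * (ℓ + 1))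
          = (1 / 2 : ℝ) ^ ℓ * (d * (((6 * d * (t + 1) : ℕ) : ℝ) * (ℓ : ℝ) ^ 2 * W1) ^ (t + 1) *
            (ℓ * (ℓ + 1))) := by ring
        _ ≤ (1 / 2 : ℝ) ^ ℓ * 2 ^ ℓ := mul_le_mul_of_nonneg_left h5 (by positivity)
        _ = 1 := by rw [← mul_pow]; norm_num
  -- the good terms
  have hc : ∑ T ∈ G.filter (fun T => ℓ1 ≤ T.card ∧ ¬ Big G t (1 / (T.card : ℝ)) T), wF T ≤
      (1 + 2 ^ t * (t * B + 1) + C) * (1 / κ) := by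
    have h1 := hC n K0 κ X G
      (G.filter fun T => ℓ1 ≤ T.card ∧ ¬ Big G t (1 / (T.card : ℝ)) T) h
      (filter_subset _ _) B hB0 hB (by
        intro T hT
        exact not_lt.1 (mem_filter.1 hT).2.2)
    unfold tW at h1
    rw [mul_one_div]
    exact h1
  rw [hsplit]
  linarith

end Pool.Agent.H.MP_cba12a_lc
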