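import Pool.Agent.H.MP_cba12a_lc.S10.Link10
import Pool.Agent.H.MP_cba12a_lc.S10.Step10
import Pool.Agent.H.MP_cba12a_lc.S10.Self10

/-!
The total weight of the terms at a leaf is at most a polynomial in `1 / κ`.
-/

namespace Pool.Agent.H.MP_cba12a_lc

open Finset

/-- A polynomial bound of all degrees gives a polynomial bound of the total weight. -/
theorem weight_of_degree10 (t d : ℕ) (hd : 1 ≤ d) (C e : ℕ)
    (H : ∀ (n K0 : ℕ) (κ : ℝ) (X : Finset (Fin n)) (G : Finset (Finset (Fin n × Bool))),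
      t + 1 ≤ K0 → Fam10 t d K0 κ X G → ∀ j, dg G j ≤ C * (1 / κ) ^ e) :
    ∃ C' e' : ℕ, ∀ (n K0 : ℕ) (κ : ℝ)
    (X : Finset (Fin n)) (G : Finset (Finset (Fin n × Bool))), t + 1 ≤ K0 →
    Fam10 t d K0 κ X G → tW G ≤ C' * (1 / κ) ^ e' := by
  obtain ⟨C1, hstep⟩ := weight_step10 t d hd
  obtain ⟨C2, hself⟩ := self_bound10 (6 * d * (t + 1)) d d t
  refine ⟨C2 * (3 + 2 ^ t * (t * C + 1) + C1), 2 * (t + 1) + e + 1, ?_⟩
  intro n K0 κ X G hK h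
  have hq : 1 ≤ 1 / κ := by
    rw [le_div_iff₀ h.pos]
    linarith [h.le_one]
  have hq0 : (0 : ℝ) ≤ 1 / κ := by linarith
  set B : ℝ := C * (1 / κ) ^ e with hBdef
  have hB0 : 0 ≤ B := by positivity
  have hB : ∀ j, dg G j ≤ B := H n K0 κ X G hK h
  have hA : (1 : ℝ) ≤ 1 + (1 + 2 ^ t * (t * B + 1) + C1) * (1 / κ) := by
    have : (0 : ℝ) ≤ (1 + 2 ^ t * (t * B + 1) + C1) * (1 / κ) := by positivity
    linarith
  have key := hself (1 / κ) (tW G) (1 + (1 + 2 ^ t * (t * B + 1) + C1) * (1 / κ)) hq hA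
    (fun l1 W1 h1 h2 h3 h4 => hstep n K0 κ X G hK h B hB0 hB l1 W1 h1 h2 h3 h4)
  refine key.trans ?_
  have hp : (1 : ℝ) ≤ (1 / κ) ^ (e + 1) := one_le_pow₀ hq
  have hqe : (1 / κ) ≤ (1 / κ) ^ (e + 1) := by
    calc (1 / κ) = (1 / κ) ^ 1 := (pow_one _).symm
      _ ≤ _ := pow_le_pow_right₀ hq (by omega)
  have hAle : 1 + (1 + 2 ^ t * (t * B + 1) + C1) * (1 / κ) ≤
      (2 + 2 ^ t * (t * C + 1) + C1) * (1 / κ) ^ (e + 1) := by
    have e1 : 1 + (1 + 2 ^ t * (t * B + 1) + C1) * (1 / κ) =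
        1 + (1 / κ) + 2 ^ t * (t * C * (1 / κ) ^ (e + 1) + (1 / κ)) + C1 * (1 / κ) := by
      rw [hBdef]; ring
    rw [e1]
    have h2 : (2 : ℝ) ^ t * (t * C * (1 / κ) ^ (e + 1) + (1 / κ)) ≤
        2 ^ t * (t * C * (1 / κ) ^ (e + 1) + (1 / κ) ^ (e + 1)) := by
      apply mul_le_mul_of_nonneg_left _ (by positivity)
      linarith
    have h3 : (C1 : ℝ) * (1 / κ) ≤ C1 * (1 / κ) ^ (e + 1) :=
      mul_le_mul_of_nonneg_left hqe (Nat.cast_nonneg C1)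
    nlinarith [h2, hp, hqe, h3]
  have h3 : (1 / κ) ^ (2 * (t + 1)) ≤ (1 / κ) ^ (2 * (t + 1) + e + 1) :=
    pow_le_pow_right₀ hq (by omega)
  have h4 : (1 / κ) ^ (e + 1) ≤ (1 / κ) ^ (2 * (t + 1) + e + 1) :=
    pow_le_pow_right₀ hq (by omega)
  have h5 : (2 + 2 ^ t * (t * C + 1) + C1) * (1 / κ) ^ (e + 1) ≤
      (2 + 2 ^ t * (t * (C : ℝ) + 1) + C1) * (1 / κ) ^ (2 * (t + 1) + e + 1) :=
    mul_le_mul_of_nonneg_left h4 (by positivity)
  calc (C2 : ℝ) * ((1 / κ) ^ (2 * (t + 1)) +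
        (1 + (1 + 2 ^ t * (t * B + 1) + C1) * (1 / κ)))
      ≤ C2 * ((1 / κ) ^ (2 * (t + 1) + e + 1) +
        (2 + 2 ^ t * (t * (C : ℝ) + 1) + C1) * (1 / κ) ^ (2 * (t + 1) + e + 1)) := by
        apply mul_le_mul_of_nonneg_left _ (by positivity)
        linarith
    _ = _ := by push_cast; ring

/-- The total weight of a family is at most a polynomial in `1 / κ`. -/
theorem weight_bound10 (t d : ℕ) (hd : 1 ≤ d) : ∃ C e : ℕ, ∀ (n K0 : ℕ) (κ : ℝ)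
    (X : Finset (Fin n)) (G : Finset (Finset (Fin n × Bool))), t + 1 ≤ K0 →
    Fam10 t d K0 κ X G → tW G ≤ C * (1 / κ) ^ e := by
  induction t with
  | zero =>
    refine weight_of_degree10 0 d hd d 0 ?_
    intro n K0 κ X G _ h j
    rw [pow_zero, mul_one]
    exact dg_le_zero10 h j
  | succ t ih =>
    obtain ⟨C, e, ih⟩ := ih
    refine weight_of_degree10 (t + 1) d hd C e ?_
    intro n K0 κ X G hK h j
    obtain ⟨K0, rfl⟩ : ∃ k, K0 = k + 1 := ⟨K0 - 1, by omega⟩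
    exact dg_le_link10 h (fun X' G' h' => ih n K0 κ X' G' (by omega) h') j

end Pool.Agent.H.MP_cba12a_lc
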