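import Pool.Agent.H.MP_cba12a_lc.S9.Fam9

/-!
Families of terms such that any `t + 1` variables occur together in at most `d` terms.
-/

namespace Pool.Agent.H.MP_cba12a_lc

open Finset

variable {n : ℕ}

/-- any `t + 1` variables occur together in at most `d` terms -/
def Codeg (t d : ℕ) (G : Finset (Finset (Fin n × Bool))) : Prop :=
  ∀ S : Finset (Fin n), S.card = t + 1 → (G.filter fun T => S ⊆ vs T).card ≤ d

/-- the situation at a leaf -/
structure Fam10 (t d K0 : ℕ) (κ : ℝ) (X : Finset (Fin n))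
    (G : Finset (Finset (Fin n × Bool))) : Prop where
  cons : ∀ T ∈ G, (vs T).card = T.card
  dis : ∀ T ∈ G, Disjoint (vs T) X
  codeg : Codeg t d G
  low : ∀ C : Finset (Fin n × Bool), (vs C).card = C.card → Disjoint (vs C) X →
    C.card ≤ K0 → κ * wF C ≤ nn G C
  pos : 0 < κ
  le_one : κ ≤ 1

variable {t d K0 K1 : ℕ} {κ : ℝ} {X : Finset (Fin n)} {G G' : Finset (Finset (Fin n × Bool))}

theorem Codeg.sub (h : Codeg t d G) (hG : G' ⊆ G) : Codeg t d G' := fun S hS =>
  (card_le_card (filter_subset_filter _ hG)).trans (h S hS)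

theorem Fam10.sub (h : Fam10 t d K0 κ X G) (hG : G' ⊆ G) : Fam10 t d K0 κ X G' :=
  ⟨fun T hT => h.cons T (hG hT), fun T hT => h.dis T (hG hT), h.codeg.sub hG,
    fun C h1 h2 h3 => (h.low C h1 h2 h3).trans (nn_anti hG C), h.pos, h.le_one⟩

theorem Fam10.mono (h : Fam10 t d K0 κ X G) (hK : K1 ≤ K0) : Fam10 t d K1 κ X G :=
  ⟨h.cons, h.dis, h.codeg, fun C h1 h2 h3 => h.low C h1 h2 (h3.trans hK), h.pos, h.le_one⟩

/-- the length of a term is at most the number of variables -/
theorem Fam10.card_le (h : Fam10 t d K0 κ X G) {T : Finset (Fin n × Bool)} (hT : T ∈ G) :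
    T.card ≤ n := by
  rw [← h.cons T hT]
  exact (card_le_univ _).trans (by simp)

/-- the terms are long -/
theorem Fam10.long (h : Fam10 t d K0 κ X G) {T : Finset (Fin n × Bool)} (hT : T ∈ G) :
    K0 + 1 ≤ T.card := by
  by_contra hcon
  have h1 := h.low T (h.cons T hT) (h.dis T hT) (by omega)
  have h2 : nn G T = 0 := by
    unfold nn mu ct
    rw [filter_false_of_mem]
    · simp
    · intro x _ hx
      rw [decide_eq_true_iff] at hx
      exact hx.2 T hT hx.1
  rw [h2] at h1
  have := mul_pos h.pos (wF_pos T)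
  linarith

end Pool.Agent.H.MP_cba12a_lc
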