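import Pool.Agent.H.MP_cba12a_lc.Cand6
import Pool.Agent.H.MP_cba12a_lc.S10.Fam10

/-!
The learner for formulas in which any `t + 1` variables occur together in few terms: as in file
Algo6, but the mixed derivatives are taken given few further literals.
-/

namespace Pool.Agent.H.MP_cba12a_lc

open Pool.Agent.H.MP_5be563_lc.PT

/-- candidates for long terms -/
def longC10 (N k M D : ℕ) (V : List Lit) (S : Samples) (α : List Lit) : List (List Lit) :=
  (seeds N k V).flatMap fun R => (seeds N M V).flatMap fun Z => (seeds N M V).map fun Z' =>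
    R ++ (ext6 k D V S (Z ++ (Z' ++ α)) R ++ (Z ++ α))

/-- the candidates at a leaf -/
def cands10 (N r k M D n : ℕ) (S : Samples) (α : List Lit) : List (List Lit) :=
  shortC N r (allLits n) α ++ longC10 N k M D (allLits n) S α

/-- the learner -/
def core10 (K K' B R N k J r m M D n : ℕ) (S : Samples) : List (List Lit) :=
  ((tree6 K N k (allLits n) S J).filter fun α => rt K S α) ++
    greedy6 K' B R S (((tree6 K N k (allLits n) S J).filter fun α => !(rt K S α)).flatMap
      fun α => cands10 N r m M D n S α)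

theorem lt_cands10 {n N r k M D : ℕ} {S : Samples} {α C : List Lit} (hα : ∀ l ∈ α, l.1 < n)
    (hC : C ∈ cands10 N r k M D n S α) : ∀ l ∈ C, l.1 < n := by
  unfold cands10 at hC
  intro l hl
  rcases List.mem_append.1 hC with hC | hC
  · unfold shortC at hC
    obtain ⟨R, hR, rfl⟩ := List.mem_map.1 hC
    rcases List.mem_append.1 hl with hl | hl
    · exact mem_allLits.1 (((bd_seeds N r (allLits n)).2 R hR).2 l hl)
    · exact hα l hl
  · unfold longC10 at hC
    obtain ⟨R, hR, hC⟩ := List.mem_flatMap.1 hC
    obtain ⟨Z, hZ, hC⟩ := List.mem_flatMap.1 hC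
    obtain ⟨Z', hZ', rfl⟩ := List.mem_map.1 hC
    rcases List.mem_append.1 hl with hl | hl
    · exact mem_allLits.1 (((bd_seeds N k (allLits n)).2 R hR).2 l hl)
    · rcases List.mem_append.1 hl with hl | hl
      · unfold ext6 at hl
        exact mem_allLits.1 (List.mem_filter.1 hl).1
      · rcases List.mem_append.1 hl with hl | hl
        · exact mem_allLits.1 (((bd_seeds N M (allLits n)).2 Z hZ).2 l hl)
        · exact hα l hl

section poly

variable {β : Type} [Enc β]

theorem poly_longC10 (k M : ℕ) {N D : β → ℕ} {V : β → List Lit} {S : β → Samples}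
    {α : β → List Lit} (hN : Poly N) (hD : Poly D) (hV : Poly V) (hS : Poly S) (hα : Poly α) :
    Poly (fun p => longC10 (N p) k M (D p) (V p) (S p) (α p)) := by
  unfold longC10
  have h1 : Poly (fun p : ((β × List Lit) × List Lit) × List Lit =>
      ext6 k (D p.1.1.1) (V p.1.1.1) (S p.1.1.1) (p.1.2 ++ (p.2 ++ α p.1.1.1)) p.1.1.2) :=
    poly_ext6 k (by fun_prop) (by fun_prop) (by fun_prop) (by fun_prop) (by fun_prop)
  fun_prop

theorem poly_core10 (m M : ℕ) {K K' B R N k J r D n : β → ℕ} {S : β → Samples}
    (hK : Poly K) (hK' : Poly K') (hB : Poly B) (hR : Poly R) (hN : Poly N) (hk : Poly k)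
    (hJ : Poly J) (hr : Poly r) (hD : Poly D) (hn : Poly n) (hS : Poly S) :
    Poly (fun p => core10 (K p) (K' p) (B p) (R p) (N p) (k p) (J p) (r p) m M (D p) (n p)
      (S p)) := by
  unfold core10 cands10
  have h := poly_tree6 hK hN hk hn hS hJ
  have h2 : Poly (fun p : β × List Lit => longC10 (N p.1) m M (D p.1) (allLits (n p.1))
      (S p.1) p.2) :=
    poly_longC10 m M (by fun_prop) (by fun_prop) (by fun_prop) (by fun_prop) (by fun_prop)
  fun_prop

end poly

end Pool.Agent.H.MP_cba12a_lc
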