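import Pool.Agent.H.MP_cba12a_lc.S10.Fam10

/-!
Literals that exclude given terms, and irredundant subfamilies.
-/

namespace Pool.Agent.H.MP_cba12a_lc

open Finset

variable {n : ℕ}

/-- Terms that fail at a point are excluded by few literals that hold there. -/
theorem kill10 {x : Fin n → Bool} {K : Finset (Finset (Fin n × Bool))}
    (hK : ∀ A ∈ K, ¬ SatT A x) : ∃ Z : Finset (Fin n × Bool), Z.card ≤ K.card ∧ SatT Z x ∧
      (∀ A ∈ K, ∃ l ∈ A, (l.1, !l.2) ∈ Z) ∧ ∀ l ∈ Z, ∃ A ∈ K, l.1 ∈ vs A := by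
  classical
  have h0 : ∀ A : {A // A ∈ K}, ∃ l : Fin n × Bool, l ∈ A.1 ∧ x l.1 ≠ l.2 := by
    intro A
    have h := hK A.1 A.2
    unfold SatT at h
    push Not at h
    exact h
  choose f hf1 hf2 using h0
  refine ⟨K.attach.image fun A => ((f A).1, x (f A).1), ?_, ?_, ?_, ?_⟩
  · exact card_image_le.trans (by rw [card_attach])
  · intro l hl
    obtain ⟨A, _, rfl⟩ := mem_image.1 hl
    rfl
  · intro A hA
    refine ⟨f ⟨A, hA⟩, hf1 ⟨A, hA⟩, mem_image.2 ⟨⟨A, hA⟩, mem_attach _ _, ?_⟩⟩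
    have h := hf2 ⟨A, hA⟩
    refine Prod.ext rfl ?_
    revert h
    cases x (f ⟨A, hA⟩).1 <;> cases (f ⟨A, hA⟩).2 <;> simp
  · intro l hl
    obtain ⟨A, _, rfl⟩ := mem_image.1 hl
    exact ⟨A.1, A.2, mem_image.2 ⟨f A, hf1 A, rfl⟩⟩

/-- Every family of terms has an irredundant subfamily with the same union. -/
theorem irr10 (G : Finset (Finset (Fin n × Bool))) : ∃ H ⊆ G,
    (∀ x : Fin n → Bool, (∃ A ∈ G, SatT A x) ↔ ∃ A ∈ H, SatT A x) ∧
    ∀ T ∈ H, ∃ x : Fin n → Bool, SatT T x ∧ ∀ A ∈ H, A ≠ T → ¬ SatT A x := by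
  classical
  obtain ⟨H, hH, hmin⟩ := exists_min_image (G.powerset.filter fun H =>
    ∀ x : Fin n → Bool, (∃ A ∈ G, SatT A x) ↔ ∃ A ∈ H, SatT A x) card
    ⟨G, mem_filter.2 ⟨mem_powerset.2 (Subset.refl _), fun _ => Iff.rfl⟩⟩
  obtain ⟨h1, h2⟩ := mem_filter.1 hH
  rw [mem_powerset] at h1
  refine ⟨H, h1, h2, fun T hT => ?_⟩
  by_contra hcon
  push Not at hcon
  have h3 : H.erase T ∈ G.powerset.filter fun H =>
      ∀ x : Fin n → Bool, (∃ A ∈ G, SatT A x) ↔ ∃ A ∈ H, SatT A x := by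
    refine mem_filter.2 ⟨mem_powerset.2 ((erase_subset _ _).trans h1), fun x => ?_⟩
    rw [h2 x]
    constructor
    · rintro ⟨A, hA, hx⟩
      by_cases hAT : A = T
      · subst hAT
        obtain ⟨B, hB, hBT, hBx⟩ := hcon x hx
        exact ⟨B, mem_erase.2 ⟨hBT, hB⟩, hBx⟩
      · exact ⟨A, mem_erase.2 ⟨hAT, hA⟩, hx⟩
    · rintro ⟨A, hA, hx⟩
      exact ⟨A, (mem_erase.1 hA).2, hx⟩
  have h4 := hmin _ h3
  have h5 := card_erase_lt_of_mem hT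
  omega

end Pool.Agent.H.MP_cba12a_lc
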