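import Pool.Agent.H.MP_cba12a_lc.S10.Cnt10

/-!
Choice of the variables of the mixed derivative.
-/

namespace Pool.Agent.H.MP_cba12a_lc

open Finset

variable {n : ℕ} {t d : ℕ} {G : Finset (Finset (Fin n × Bool))}

/-- A large set of variables contains `k` variables of which no term of `Gs` contains more than
`t + 1`. -/
theorem pick10 (h : Codeg t d G) {Gs : Finset (Finset (Fin n × Bool))} (hGs : Gs ⊆ G)
    {V : Finset (Fin n)} {k p : ℕ} (hp : ∀ A ∈ Gs, (vs A ∩ V).card ≤ p)
    (hV : k + k ^ (t + 1) * (d * p) ≤ V.card) :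
    ∃ Y ⊆ V, Y.card = k ∧ ∀ A ∈ Gs, (vs A ∩ Y).card ≤ t + 1 := by
  classical
  have hne : (V.powerset.filter (fun Y => ∀ A ∈ Gs, (vs A ∩ Y).card ≤ t + 1)).Nonempty :=
    ⟨∅, mem_filter.2 ⟨empty_mem_powerset V, fun A _ => by simp⟩⟩
  obtain ⟨Y, hY, hmax⟩ := exists_max_image _ Finset.card hne
  rw [mem_filter, mem_powerset] at hY
  obtain ⟨hYV, hYP⟩ := hY
  by_cases hk : k ≤ Y.card
  · obtain ⟨Z, hZY, hZ⟩ := exists_subset_card_eq hk
    exact ⟨Z, hZY.trans hYV, hZ, fun A hA =>
      (card_le_card (inter_subset_inter_left hZY)).trans (hYP A hA)⟩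
  · exfalso
    have hsub : V \ Y ⊆ (powersetCard (t + 1) Y).biUnion fun S =>
        (Gs.filter fun A => S ⊆ vs A).biUnion fun A => vs A ∩ V := by
      intro j hj
      rw [mem_sdiff] at hj
      obtain ⟨hjV, hjY⟩ := hj
      have hnot : ¬ ∀ A ∈ Gs, (vs A ∩ insert j Y).card ≤ t + 1 := by
        intro hall
        have h1 := hmax (insert j Y) (mem_filter.2
          ⟨mem_powerset.2 (insert_subset hjV hYV), hall⟩)
        rw [card_insert_of_notMem hjY] at h1
        omega
      obtain ⟨A, hA⟩ := not_forall.1 hnot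
      obtain ⟨hAG, hAc⟩ := Classical.not_imp.1 hA
      have hjA : j ∈ vs A := by
        by_contra hj2
        rw [inter_insert_of_notMem hj2] at hAc
        exact hAc (hYP A hAG)
      rw [inter_insert_of_mem hjA, card_insert_of_notMem (fun hm => hjY (mem_inter.1 hm).2)]
        at hAc
      have hc := hYP A hAG
      rw [mem_biUnion]
      refine ⟨vs A ∩ Y, mem_powersetCard.2 ⟨inter_subset_right, by omega⟩, ?_⟩
      rw [mem_biUnion]
      exact ⟨A, mem_filter.2 ⟨hAG, inter_subset_left⟩, mem_inter.2 ⟨hjA, hjV⟩⟩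
    have hin : ∀ S ∈ powersetCard (t + 1) Y,
        ((Gs.filter fun A => S ⊆ vs A).biUnion fun A => vs A ∩ V).card ≤ d * p := by
      intro S hS
      refine (card_biUnion_le_card_mul _ _ p fun A hA => hp A (mem_filter.1 hA).1).trans ?_
      exact Nat.mul_le_mul_right p ((card_le_card (filter_subset_filter _ hGs)).trans
        (h S (mem_powersetCard.1 hS).2))
    have h2 : (V \ Y).card ≤ k ^ (t + 1) * (d * p) := by
      refine (card_le_card hsub).trans ((card_biUnion_le_card_mul _ _ (d * p) hin).trans ?_)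
      rw [card_powersetCard]
      refine Nat.mul_le_mul_right _ ((Nat.choose_le_pow Y.card (t + 1)).trans ?_)
      exact Nat.pow_le_pow_left (by omega) _
    have h3 : (V \ Y).card + Y.card = V.card := card_sdiff_add_card_eq_card hYV
    omega

end Pool.Agent.H.MP_cba12a_lc
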