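import Pool.Agent.H.MP_cba12a_lc.Detect6
import Pool.Agent.H.MP_cba12a_lc.S10.Fam10

/-!
The mixed derivative measures a term, also given literals that exclude some of the other terms.
-/

namespace Pool.Agent.H.MP_cba12a_lc

open Finset

variable {n m : ℕ}

/-- a term of `Gs` that contains `j` holds outside `Y` -/
def CovS (Gs : Finset (Finset (Fin n × Bool))) (Y : Finset (Fin n)) (j : Fin n)
    (x : Fin n → Bool) : Prop :=
  ∃ A ∈ Gs, j ∈ vs A ∧ SatT (outs Y A) x

variable {k : ℕ} {τ ν : ℝ} {ω : Fin m → Fin n → Bool}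
  {f g : (Fin n → Bool) → Bool} {α : List Lit} {G Gs : Finset (Finset (Fin n × Bool))}
  {T : Finset (Fin n × Bool)}

open Classical in
/-- **The mixed derivative measures `T`.** -/
theorem Sg_approx10 (hTc : (vs T).card = T.card)
    (hdis : ∀ A ∈ G, Disjoint (vs A) (vs (toF n α)))
    (hαd : (α.map Prod.fst).Nodup) (hαn : ∀ l ∈ α, l.1 < n)
    (hgG : ∀ x, SatT (toF n α) x → (g x = true ↔ ∃ B ∈ G, SatT B x))
    (hT : T ∈ G) {R0 : Finset (Fin n × Bool)} (hR0 : R0 ⊆ T) (hR0k : R0.card = k)
    (hGs : Gs ⊆ G) (hnoise : mu (fun x => decide (∀ j ∈ vs R0, CovS Gs (vs R0) j x)) ≤ wF T * ν)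
    (hτ : 0 < τ) (hfg : dst f g ≤ τ) (hrep : Rep f ω 0 τ)
    {Z : List Lit} (hZn : ∀ l ∈ Z, l.1 < n) (hZR : ∀ l ∈ Z, ∀ j ∈ vs R0, l.1 ≠ (j : ℕ))
    (hZα : ∀ l ∈ α, l ∈ Z)
    (hkill : ∀ A ∈ G, A ≠ T → A ∉ Gs → ∃ l ∈ A, ((l.1 : ℕ), !l.2) ∈ Z) :
    |Sg (fun C => em ω (ev f true (C ++ Z) [])) k (lits R0) - mu (ET G T Z)| ≤
      2 ^ k * (2 * τ) + wt α * (wF T * ν) := by
  classical
  have hRc : (vs R0).card = R0.card := cons_mono hR0 hTc
  have hnd : ((lits R0).map Prod.fst).Nodup := nodup_lits hRc
  have hlen : (lits R0).length = k := by rw [length_lits, hR0k]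
  set E : (Fin n → Bool) → Bool := fun x => g x && sat (List.ofFn x) Z with hE
  -- empirical versus true
  have h1 : |Sg (fun C => em ω (ev f true (C ++ Z) [])) k (lits R0) -
      Sg (nuE E) k (lits R0)| ≤ 2 ^ k * (2 * τ) := by
    refine Sg_sub_le (by linarith) fun C hC => ?_
    have hCn : ∀ l ∈ C ++ Z, l.1 < n := by
      intro l hl
      rcases List.mem_append.1 hl with hl | hl
      · obtain ⟨l', hl', he⟩ := hC l hl
        rw [he]
        exact lits_lt hl'
      · exact hZn l hl
    have a1 := abs_lt.1 (hrep true (C ++ Z) [] hCn (by simp) (by simp))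
    have a2 := mu_ev_sub_le f g true (C ++ Z) []
    have a3 := mu_ev_sub_le g f true (C ++ Z) []
    rw [dst_comm g f] at a3
    have a4 : nuE E C = mu (ev g true (C ++ Z) []) := by
      unfold nuE
      refine mu_congr fun x => ?_
      rw [ev_iff, sat_append, Bool.and_eq_true]
      simp only [hE]
      rw [Bool.and_eq_true]
      constructor
      · rintro ⟨⟨b1, b2⟩, b3⟩
        exact ⟨b1, ⟨b3, b2⟩, rfl⟩
      · rintro ⟨b1, ⟨b3, b2⟩, _⟩
        exact ⟨⟨b1, b2⟩, b3⟩
    rw [a4, abs_le]
    constructor <;> linarith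
  -- decomposition
  set o : (Fin n → Bool) → Bool := fun x => decide (∃ A ∈ G, A ≠ T ∧ SatT A x) with ho
  have hsplit := Sg_split E o k (lits R0)
  have hα_of : ∀ x : Fin n → Bool, sat (List.ofFn x) Z = true → SatT (toF n α) x :=
    fun x hx => (satT_toF hαn).1 (sat_mono hZα hx)
  have hET : Sg (nuE fun x => E x && !(o x)) k (lits R0) = mu (ET G T Z) := by
    have e : (fun x => E x && !(o x)) = ET G T Z := by
      funext x
      rw [Bool.eq_iff_iff, ET_iff, Bool.and_eq_true, Bool.not_eq_true']
      simp only [hE, ho]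
      rw [Bool.and_eq_true, decide_eq_false_iff_not]
      push Not
      constructor
      · rintro ⟨⟨b1, b2⟩, b3⟩
        obtain ⟨A, hA, hAx⟩ := (hgG x (hα_of x b2)).1 b1
        have hAT : A = T := by
          by_contra hne
          exact b3 A hA hne hAx
        rw [hAT] at hAx
        exact ⟨b2, hAx, b3⟩
      · rintro ⟨b2, b1, b3⟩
        exact ⟨⟨(hgG x (hα_of x b2)).2 ⟨T, hT, b1⟩, b2⟩, b3⟩
    rw [e, ← hlen]
    refine Sg_plus _ _ ?_
    intro x hx
    rw [ET_iff] at hx
    exact sat_lits.2 (satT_mono hR0 hx.2.1)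
  have hEo : |Sg (nuE fun x => E x && o x) k (lits R0)| ≤ wt α * (wF T * ν) := by
    have hcov : ∀ j ∈ vs R0, ∀ i ∈ vs R0, ∀ x : Fin n → Bool,
        (CovS Gs (vs R0) i (flp j x) ↔ CovS Gs (vs R0) i x) := by
      intro j hj i _ x
      unfold CovS
      refine exists_congr fun A => and_congr_right fun _ => and_congr_right fun _ =>
        satT_flp ?_ x
      rw [vs_outs, mem_sdiff]
      exact fun hc => hc.2 hj
    have h2 := Sg_noise (E := fun x => E x && o x) hnd
      (fun j x => decide (CovS Gs (vs R0) j x)) (vs R0) (by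
        intro j hj
        obtain ⟨l, hl, rfl⟩ := mem_vs.1 hj
        exact List.mem_map.2 ⟨_, mem_lits.2 ⟨l, hl, rfl⟩, rfl⟩) (by
        intro j hj i hi x
        rw [Bool.eq_iff_iff, decide_eq_true_iff, decide_eq_true_iff]
        exact hcov j hj i hi x) (by
        intro j hj x hx
        rw [decide_eq_false_iff_not] at hx
        have hZf : sat (List.ofFn (flp j x)) Z = sat (List.ofFn x) Z :=
          sat_flp fun l hl => hZR l hl j hj
        have key : ∀ y, ¬ CovS Gs (vs R0) j y → sat (List.ofFn y) Z = true →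
            ∀ A ∈ G, A ≠ T → SatT A y → SatT A (flp j y) := by
          intro y hy hyZ A hA hAT hs
          by_cases hjA : j ∈ vs A
          · have hAs : A ∈ Gs := by
              by_contra hcon
              obtain ⟨l, hl, hlZ⟩ := hkill A hA hAT hcon
              have h3 := sat_iff.1 hyZ _ hlZ
              rw [getElem?_ofFn] at h3
              obtain ⟨_, h4⟩ := h3
              have h5 : y l.1 = l.2 := hs l hl
              have h6 : y l.1 = !l.2 := h4
              rw [h5] at h6
              cases l.2 <;> simp at h6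
            exact absurd ⟨A, hAs, hjA, satT_mono (outs_sub _ _) hs⟩ hy
          · exact (satT_flp hjA y).2 hs
        have hx' : ¬ CovS Gs (vs R0) j (flp j x) := fun hc => hx ((hcov j hj j hj x).1 hc)
        have key2 : ∀ y, ¬ CovS Gs (vs R0) j y → sat (List.ofFn (flp j y)) Z =
            sat (List.ofFn y) Z → (E y && o y) = true → (E (flp j y) && o (flp j y)) = true := by
          intro y hy hyZ hEy
          simp only [hE, ho] at hEy ⊢
          rw [Bool.and_eq_true, Bool.and_eq_true, decide_eq_true_iff] at hEy ⊢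
          obtain ⟨⟨b1, b2⟩, A, hA, hAT, hAy⟩ := hEy
          have hA' := key y hy b2 A hA hAT hAy
          rw [hyZ]
          refine ⟨⟨?_, b2⟩, A, hA, hAT, hA'⟩
          rw [hgG]
          · exact ⟨A, hA, hA'⟩
          · refine hα_of _ ?_
            rw [hyZ]
            exact b2
        rw [Bool.eq_iff_iff]
        constructor
        · intro h3
          have := key2 (flp j x) hx' (by rw [flp_flp, hZf]) h3
          rw [flp_flp] at this
          exact this
        · intro h3
          exact key2 x hx hZf h3)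
    rw [hlen] at h2
    refine h2.trans ?_
    have h3 : mu (fun x => (E x && o x) && decide (∀ j ∈ vs R0,
        decide (CovS Gs (vs R0) j x) = true)) ≤
        mu (fun x => decide (sat (List.ofFn x) α = true ∧
          ∀ j ∈ vs R0, CovS Gs (vs R0) j x)) := by
      refine mu_mono fun x hx => ?_
      rw [Bool.and_eq_true, Bool.and_eq_true, decide_eq_true_iff] at hx
      rw [decide_eq_true_iff]
      simp only [hE] at hx
      rw [Bool.and_eq_true] at hx
      refine ⟨sat_mono hZα hx.1.1.2, fun j hj => ?_⟩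
      exact of_decide_eq_true ((of_decide_eq_true hx.2) j hj)
    refine h3.trans ?_
    rw [mu_leaf_and hαd hαn (fun x => ∀ j ∈ vs R0, CovS Gs (vs R0) j x) (by
      intro i hi x
      refine forall₂_congr fun j _ => ?_
      unfold CovS
      refine exists_congr fun A => and_congr_right fun hA => and_congr_right fun _ =>
        satT_flp ?_ x
      rw [vs_outs, mem_sdiff]
      exact fun hc => disjoint_left.1 (hdis A (hGs hA)) hc.1 hi)]
    exact mul_le_mul_of_nonneg_left hnoise (wt_nonneg α)
  rw [hET] at hsplit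
  rw [hsplit] at h1
  have a1 := abs_le.1 h1
  have a2 := abs_le.1 hEo
  rw [abs_le]
  constructor <;> linarith

end Pool.Agent.H.MP_cba12a_lc
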