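import Pool.Agent.H.MP_cba12a_lc.S10.Rich10

/-!
The signal: given a term and few further literals that exclude the terms with a large part in it,
with good probability no other term holds.
-/

namespace Pool.Agent.H.MP_cba12a_lc

open Finset

variable {n : ℕ}

variable {t d K0 p : ℕ} {κ δ : ℝ} {X : Finset (Fin n)} {G : Finset (Finset (Fin n × Bool))}

/-- literals that hold at one point have different variables -/
theorem cons_of_satT {B : Finset (Fin n × Bool)} {y : Fin n → Bool} (h : SatT B y) :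
    (vs B).card = B.card := by
  refine card_image_iff.2 ?_
  intro l hl l' hl' he
  refine Prod.ext he ?_
  have h1 := h l (by simpa using hl)
  have h2 := h l' (by simpa using hl')
  have h3 : l.1 = l'.1 := he
  rw [← h1, ← h2, h3]

theorem vs_union10 (A B : Finset (Fin n × Bool)) : vs (A ∪ B) = vs A ∪ vs B := by
  unfold vs
  exact image_union _ _

/-- a sum over terms with a variable in `V` is at most the sum of the degrees -/
theorem sum_wF_le_dg {G1 : Finset (Finset (Fin n × Bool))} (hG1 : G1 ⊆ G)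
    {V : Finset (Fin n)} (hV : ∀ A ∈ G1, ∃ j ∈ V, j ∈ vs A) :
    ∑ A ∈ G1, wF A ≤ ∑ j ∈ V, dg G j := by
  classical
  have h1 : ∑ j ∈ V, dg G j = ∑ A ∈ G, ∑ j ∈ V, if j ∈ vs A then wF A else 0 := by
    rw [sum_comm]
    refine sum_congr rfl fun j _ => ?_
    unfold dg
    rw [sum_filter]
  rw [h1]
  refine le_trans (sum_le_sum (g := fun A => ∑ j ∈ V, if j ∈ vs A then wF A else 0) ?_)
    (sum_le_sum_of_subset_of_nonneg hG1 fun A _ _ => sum_nonneg fun j _ => ?_)
  · intro A hA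
    obtain ⟨j, hj, hjA⟩ := hV A hA
    refine le_trans ?_ (single_le_sum (f := fun j => if j ∈ vs A then wF A else 0)
      (fun i _ => ?_) hj)
    · simp only [if_pos hjA]
      exact le_rfl
    · split_ifs
      · exact (wF_pos A).le
      · exact le_rfl
  · split_ifs
    · exact (wF_pos A).le
    · exact le_rfl

/-- Given a term and few further literals that exclude the terms with a large part in it, with
good probability no other term holds. -/
theorem signal10 (h : Fam10 t d K0 κ X G) {T Z : Finset (Fin n × Bool)} (hT : T ∈ G)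
    {y : Fin n → Bool} (hTy : SatT T y) (hZy : SatT Z y) (hZX : Disjoint (vs Z) X)
    (hcard : t + Z.card ≤ K0) (hδ : 0 ≤ δ) (hbig : ¬ Big G t δ T)
    (hkill : ∀ A ∈ G, A ≠ T → p < (vs A ∩ vs T).card → ∃ l ∈ A, (l.1, !l.2) ∈ Z) :
    wF (T ∪ Z) * (κ - 2 ^ Z.card * δ * (2 ^ t * T.card + 2 ^ p * (d * T.card ^ (t + 1)))) ≤
      mu (fun x => decide (SatT T x ∧ SatT Z x ∧ ∀ A ∈ G, A ≠ T → ¬ SatT A x)) := by
  classical
  have hTc := h.cons T hT
  have hTX := h.dis T hT
  obtain ⟨S0, hS0⟩ : ∃ S0, S0 = T.filter fun l => δ < dg G l.1 := ⟨_, rfl⟩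
  obtain ⟨C, hC⟩ : ∃ C, C = S0 ∪ Z := ⟨_, rfl⟩
  obtain ⟨T1, hT1⟩ : ∃ T1, T1 = T.filter fun l => l ∉ C := ⟨_, rfl⟩
  obtain ⟨G0, hG0⟩ : ∃ G0, G0 = G.filter fun A => A ≠ T ∧ Disjoint (vs A) (vs T1) := ⟨_, rfl⟩
  have hS0T : S0 ⊆ T := by rw [hS0]; exact filter_subset _ _
  have hT1T : T1 ⊆ T := by rw [hT1]; exact filter_subset _ _
  have hT1c := cons_mono hT1T hTc
  have hS0c := cons_mono hS0T hTc
  have hCy : SatT C y := by
    rw [hC, satT_union]
    exact ⟨satT_mono hS0T hTy, hZy⟩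
  have hCc := cons_of_satT hCy
  have hTCy : SatT (T ∪ C) y := satT_union.2 ⟨hTy, hCy⟩
  have hTCinj := inj_of_card (cons_of_satT hTCy)
  have hS0card : S0.card ≤ t := by
    rw [← hS0c]
    refine (card_le_card ?_).trans (not_lt.1 hbig)
    intro j hj
    obtain ⟨l, hl, rfl⟩ := mem_vs.1 hj
    rw [hS0, mem_filter] at hl
    exact mem_filter.2 ⟨mem_vs.2 ⟨l, hl.1, rfl⟩, hl.2⟩
  have hCcard : C.card ≤ K0 := by
    rw [hC]
    exact (card_union_le _ _).trans (by omega)
  have hCX : Disjoint (vs C) X := by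
    rw [hC, vs_union10]
    exact disjoint_union_left.2 ⟨hTX.mono_left (vs_mono hS0T), hZX⟩
  have hdisT1C : Disjoint (vs T1) (vs C) := by
    rw [disjoint_left]
    intro j hj hj'
    obtain ⟨l, hl, rfl⟩ := mem_vs.1 hj
    obtain ⟨l', hl', he⟩ := mem_vs.1 hj'
    have h1 : l' = l := hTCinj (by simpa using Or.inr hl')
      (by simpa using Or.inl (hT1T hl)) he
    rw [hT1, mem_filter] at hl
    exact hl.2 (h1 ▸ hl')
  have hdisT1C' : Disjoint T1 C := by
    rw [disjoint_left]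
    intro l hl hl'
    exact disjoint_left.1 hdisT1C (mem_vs.2 ⟨l, hl, rfl⟩) (mem_vs.2 ⟨l, hl', rfl⟩)
  have hun : T1 ∪ C = T ∪ Z := by
    ext l
    rw [mem_union, mem_union, hT1, mem_filter, hC, mem_union]
    constructor
    · rintro (⟨h1, _⟩ | h1 | h1)
      · exact Or.inl h1
      · exact Or.inl (hS0T h1)
      · exact Or.inr h1
    · rintro (h1 | h1)
      · by_cases h2 : l ∈ S0 ∨ l ∈ Z
        · exact Or.inr h2
        · exact Or.inl ⟨h1, h2⟩
      · exact Or.inr (Or.inr h1)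
  have hlow := h.low C hCc hCX hCcard
  -- independence
  have hind := mu_satT_eq hT1c (fun x : Fin n → Bool => SatT C x ∧ ∀ A ∈ G0, ¬ SatT A x) (by
    intro i hi x
    have h2 : ∀ A ∈ G0, (SatT A (flp i x) ↔ SatT A x) := by
      intro A hA
      rw [hG0, mem_filter] at hA
      exact satT_flp (fun hc => disjoint_left.1 hA.2.2 hc hi) x
    refine and_congr (satT_flp (fun hc => disjoint_left.1 hdisT1C hi hc) x) ?_
    exact ⟨fun h3 A hA hs => h3 A hA ((h2 A hA).2 hs),
      fun h3 A hA hs => h3 A hA ((h2 A hA).1 hs)⟩)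
  have h1 : nn G C ≤ mu (fun x => decide (SatT C x ∧ ∀ A ∈ G0, ¬ SatT A x)) := by
    unfold nn
    refine mu_mono fun x hx => ?_
    rw [decide_eq_true_iff] at hx ⊢
    exact ⟨hx.1, fun A hA => hx.2 A (by rw [hG0] at hA; exact (mem_filter.1 hA).1)⟩
  have hwF : wF (T ∪ Z) = wF T1 * wF C := by
    rw [← hun]
    unfold wF
    rw [card_union_of_disjoint hdisT1C', pow_add]
  have hw := wF_pos (T ∪ Z)
  have h2 : wF (T ∪ Z) * κ ≤ mu (fun x => decide (SatT T1 x ∧
      (SatT C x ∧ ∀ A ∈ G0, ¬ SatT A x))) := by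
    rw [hind, hwF]
    calc wF T1 * wF C * κ = wF T1 * (κ * wF C) := by ring
      _ ≤ _ := mul_le_mul_of_nonneg_left (hlow.trans h1) (wF_pos _).le
  -- the terms that meet `T1`
  obtain ⟨G1, hG1⟩ : ∃ G1, G1 = G.filter fun A => A ≠ T ∧ ¬ Disjoint (vs A) (vs T1) ∧
    (vs A ∩ vs T).card ≤ p := ⟨_, rfl⟩
  have h3 : mu (fun x => decide (SatT T1 x ∧ (SatT C x ∧ ∀ A ∈ G0, ¬ SatT A x))) ≤
      mu (fun x => decide (SatT T x ∧ SatT Z x ∧ ∀ A ∈ G, A ≠ T → ¬ SatT A x)) +
      mu (fun x => decide (∃ A ∈ G1, SatT (T ∪ Z ∪ A) x)) := by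
    refine mu_le_add fun x hx => ?_
    rw [decide_eq_true_iff] at hx
    rw [decide_eq_true_iff, decide_eq_true_iff]
    obtain ⟨a1, a2, a3⟩ := hx
    have hTZx : SatT (T ∪ Z) x := by
      rw [← hun, satT_union]
      exact ⟨a1, a2⟩
    have hTZx' := satT_union.1 hTZx
    by_cases hex : ∀ A ∈ G, A ≠ T → ¬ SatT A x
    · exact Or.inl ⟨hTZx'.1, hTZx'.2, hex⟩
    · right
      push Not at hex
      obtain ⟨A, hA, hAT, hAx⟩ := hex
      refine ⟨A, ?_, satT_union.2 ⟨hTZx, hAx⟩⟩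
      rw [hG1, mem_filter]
      refine ⟨hA, hAT, ?_, ?_⟩
      · intro hd
        exact a3 A (by rw [hG0]; exact mem_filter.2 ⟨hA, hAT, hd⟩) hAx
      · by_contra hcon
        obtain ⟨l, hl, hlZ⟩ := hkill A hA hAT (not_le.1 hcon)
        have h5 : x l.1 = l.2 := hAx l hl
        have h6 : x l.1 = !l.2 := hTZx'.2 _ hlZ
        rw [h5] at h6
        cases l.2 <;> simp at h6
  have h4 : mu (fun x => decide (∃ A ∈ G1, SatT (T ∪ Z ∪ A) x)) ≤
      ∑ A ∈ G1, wF (T ∪ Z) * (2 ^ Z.card * (2 ^ (vs A ∩ vs T).card * wF A)) := by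
    refine (mu_finset_le G1 _ (fun A x => decide (SatT (T ∪ Z ∪ A) x)) ?_).trans ?_
    · intro x hx
      rw [decide_eq_true_iff] at hx
      obtain ⟨A, hA, hs⟩ := hx
      exact ⟨A, hA, decide_eq_true hs⟩
    · refine sum_le_sum fun A _ => ?_
      refine (mu_sat1_le _).trans ?_
      have e2 := card_union_add_card_inter (T ∪ Z) A
      have e3 : ((T ∪ Z) ∩ A).card ≤ (T ∩ A).card + (Z ∩ A).card := by
        rw [union_inter_distrib_right]
        exact card_union_le _ _
      have e4 := card_lit_inter_le (B := A) hTc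
      rw [inter_comm (vs T)] at e4
      have e5 := card_le_card (inter_subset_left (s₁ := Z) (s₂ := A))
      have hcard' : (T ∪ Z).card + A.card ≤
          (T ∪ Z ∪ A).card + (Z.card + (vs A ∩ vs T).card) := by omega
      unfold wF
      have e6 : (1 / 2 : ℝ) ^ (T ∪ Z).card * (2 ^ Z.card * (2 ^ (vs A ∩ vs T).card *
          (1 / 2) ^ A.card)) =
          2 ^ (Z.card + (vs A ∩ vs T).card) * (1 / 2) ^ ((T ∪ Z).card + A.card) := by
        rw [pow_add, pow_add]; ring
      rw [e6]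
      have e7 : (1 / 2 : ℝ) ^ ((T ∪ Z ∪ A).card + (Z.card + (vs A ∩ vs T).card)) ≤
          (1 / 2) ^ ((T ∪ Z).card + A.card) :=
        pow_le_pow_of_le_one (by norm_num) (by norm_num) hcard'
      have e8 : (1 / 2 : ℝ) ^ (T ∪ Z ∪ A).card = 2 ^ (Z.card + (vs A ∩ vs T).card) *
          (1 / 2) ^ ((T ∪ Z ∪ A).card + (Z.card + (vs A ∩ vs T).card)) := by
        rw [pow_add (1 / 2 : ℝ) (T ∪ Z ∪ A).card, mul_left_comm, ← mul_pow]
        norm_num
      rw [e8]
      exact mul_le_mul_of_nonneg_left e7 (by positivity)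
  have hT1δ : ∀ j ∈ vs T1, dg G j ≤ δ := by
    intro j hj
    obtain ⟨l, hl, rfl⟩ := mem_vs.1 hj
    rw [hT1, mem_filter, hC, mem_union] at hl
    by_contra hcon
    exact hl.2 (Or.inl (by rw [hS0, mem_filter]; exact ⟨hl.1, not_le.1 hcon⟩))
  have hmeet : ∀ A ∈ G1, ∃ j ∈ vs T1, j ∈ vs A := by
    intro A hA
    rw [hG1, mem_filter] at hA
    obtain ⟨j, hj1, hj2⟩ := not_disjoint_iff.1 hA.2.2.1
    exact ⟨j, hj2, hj1⟩
  have hG1G : G1 ⊆ G := by rw [hG1]; exact filter_subset _ _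
  have h5 : ∑ A ∈ G1, (2 : ℝ) ^ (vs A ∩ vs T).card * wF A ≤
      δ * (2 ^ t * T.card + 2 ^ p * (d * T.card ^ (t + 1))) := by
    rw [← sum_filter_add_sum_filter_not G1 (fun A => (vs A ∩ vs T).card ≤ t)]
    have e1 : ∑ A ∈ G1.filter (fun A => (vs A ∩ vs T).card ≤ t),
        (2 : ℝ) ^ (vs A ∩ vs T).card * wF A ≤ 2 ^ t * (T.card * δ) := by
      calc ∑ A ∈ G1.filter (fun A => (vs A ∩ vs T).card ≤ t),
          (2 : ℝ) ^ (vs A ∩ vs T).card * wF A ≤
          ∑ A ∈ G1.filter (fun A => (vs A ∩ vs T).card ≤ t), 2 ^ t * wF A := by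
            refine sum_le_sum fun A hA => mul_le_mul_of_nonneg_right ?_ (wF_pos A).le
            exact pow_le_pow_right₀ (by norm_num) (mem_filter.1 hA).2
        _ = 2 ^ t * ∑ A ∈ G1.filter (fun A => (vs A ∩ vs T).card ≤ t), wF A :=
            (mul_sum _ _ _).symm
        _ ≤ 2 ^ t * (T.card * δ) := by
            refine mul_le_mul_of_nonneg_left ?_ (by positivity)
            refine (sum_wF_le_dg (G := G) (V := vs T1) ((filter_subset _ _).trans hG1G)
              (fun A hA => hmeet A (mem_filter.1 hA).1)).trans ?_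
            refine (sum_le_sum hT1δ).trans ?_
            rw [sum_const, nsmul_eq_mul]
            refine mul_le_mul_of_nonneg_right ?_ hδ
            have e3 : (vs T1).card ≤ T.card := by
              rw [hT1c]
              exact card_le_card hT1T
            exact_mod_cast e3
    have e2 : ∑ A ∈ G1.filter (fun A => ¬ (vs A ∩ vs T).card ≤ t),
        (2 : ℝ) ^ (vs A ∩ vs T).card * wF A ≤ (d * T.card ^ (t + 1)) * (2 ^ p * δ) := by
      calc ∑ A ∈ G1.filter (fun A => ¬ (vs A ∩ vs T).card ≤ t),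
          (2 : ℝ) ^ (vs A ∩ vs T).card * wF A ≤
          ∑ _A ∈ G1.filter (fun A => ¬ (vs A ∩ vs T).card ≤ t), 2 ^ p * δ := by
            refine sum_le_sum fun A hA => ?_
            have hA1 := (mem_filter.1 hA).1
            obtain ⟨j, hj, hjA⟩ := hmeet A hA1
            have e3 : wF A ≤ dg G j :=
              single_le_sum (f := fun A => wF A) (fun B _ => (wF_pos B).le)
                (mem_filter.2 ⟨hG1G hA1, hjA⟩)
            rw [hG1, mem_filter] at hA1
            exact mul_le_mul (pow_le_pow_right₀ (by norm_num) hA1.2.2.2)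
              (e3.trans (hT1δ j hj)) (wF_pos A).le (by positivity)
        _ = ((G1.filter fun A => ¬ (vs A ∩ vs T).card ≤ t).card : ℝ) * (2 ^ p * δ) := by
            rw [sum_const, nsmul_eq_mul]
        _ ≤ (d * T.card ^ (t + 1)) * (2 ^ p * δ) := by
            refine mul_le_mul_of_nonneg_right ?_ (by positivity)
            have e3 := count_pow10 h.codeg (vs T)
            rw [hTc] at e3
            have e4 : (G1.filter fun A => ¬ (vs A ∩ vs T).card ≤ t).card ≤
                d * T.card ^ (t + 1) := by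
              refine (card_le_card fun A hA => ?_).trans e3
              rw [mem_filter] at hA ⊢
              exact ⟨hG1G hA.1, not_le.1 hA.2⟩
            exact_mod_cast e4
    calc _ ≤ 2 ^ t * (T.card * δ) + (d * T.card ^ (t + 1)) * (2 ^ p * δ) := add_le_add e1 e2
      _ = _ := by ring
  have h6 : ∑ A ∈ G1, wF (T ∪ Z) * (2 ^ Z.card * (2 ^ (vs A ∩ vs T).card * wF A)) ≤
      wF (T ∪ Z) * (2 ^ Z.card * (δ * (2 ^ t * T.card + 2 ^ p * (d * T.card ^ (t + 1))))) := by
    rw [← mul_sum, ← mul_sum]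
    exact mul_le_mul_of_nonneg_left (mul_le_mul_of_nonneg_left h5 (by positivity)) hw.le
  have h7 : wF (T ∪ Z) * (κ - 2 ^ Z.card * δ * (2 ^ t * T.card + 2 ^ p *
      (d * T.card ^ (t + 1)))) = wF (T ∪ Z) * κ -
      wF (T ∪ Z) * (2 ^ Z.card * (δ * (2 ^ t * T.card + 2 ^ p * (d * T.card ^ (t + 1))))) := by
    ring
  rw [h7]
  linarith

end Pool.Agent.H.MP_cba12a_lc
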