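import Pool.Agent.H.MP_cba12a_lc.S10.Alg10
import Pool.Agent.H.MP_cba12a_lc.S10.Sgn10
import Pool.Agent.H.MP_cba12a_lc.S10.Sig10
import Pool.Agent.H.MP_cba12a_lc.S10.Pick10
import Pool.Agent.H.MP_cba12a_lc.S10.Irr10

/-!
Detection of a long term at a leaf.
-/

namespace Pool.Agent.H.MP_cba12a_lc

open Finset

variable {n m : ℕ}

variable {t d K0 N D k M p Θ : ℕ} {κ δ τ ν : ℝ} {ω : Fin m → Fin n → Bool}
  {f g : (Fin n → Bool) → Bool} {α : List Lit} {G : Finset (Finset (Fin n × Bool))}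
  {T : Finset (Fin n × Bool)}

open Classical in
/-- **Detection of a long term.** -/
theorem detect10 (hm : 0 < m) (h : Fam10 t d K0 κ (vs (toF n α)) G)
    (hαd : (α.map Prod.fst).Nodup) (hαn : ∀ l ∈ α, l.1 < n)
    (hgG : ∀ x, SatT (toF n α) x → (g x = true ↔ ∃ B ∈ G, SatT B x))
    (hT : T ∈ G) {y : Fin n → Bool} (hTy : SatT T y) (hirr : ∀ A ∈ G, A ≠ T → ¬ SatT A y)
    (hδ : 0 ≤ δ) (hbig : ¬ Big G t δ T)
    (htp : t ≤ p) (hTp : T.card ≤ Θ * (p + 1)) (hM : d * (Θ * (t + 1)) ^ (t + 1) ≤ M)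
    (hK0 : t + M + 1 ≤ K0) (hkT : k + k ^ (t + 1) * (d * p) + t + M ≤ T.card)
    (hsig : 2 ^ (M + 1) * δ * (2 ^ t * T.card + 2 ^ p * (d * T.card ^ (t + 1))) ≤ κ / 2)
    (hnoise : ∀ (Gs : Finset (Finset (Fin n × Bool))) (Y : Finset (Fin n)), Gs ⊆ G →
      Y.card = k → (∀ j ∈ Y, dg G j ≤ δ) → (∀ A ∈ Gs, (vs A ∩ Y).card ≤ t + 1) →
      mu (fun x => decide (∀ j ∈ Y, CovS Gs Y j x)) ≤ wF T * ν) (hν : 0 ≤ ν)
    (hτ : 0 < τ) (hfg : dst f g ≤ τ) (hrep : Rep f ω 0 τ)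
    (hD : 8 ≤ D * κ) (hDν : 8 * D * ν * 2 ^ M ≤ κ)
    (hDτ : 8 * D * (2 ^ k * (2 * τ)) * 2 ^ M ≤ wt α * wF T * κ)
    (hN : (2 * n + 1) ^ k ≤ N) (hN' : (2 * n + 1) ^ M ≤ N) :
    ∃ C ∈ longC10 N k M D (allLits n) (smp f ω) α, ∀ x : Fin n → Bool,
      (sat (List.ofFn x) C = true ↔ sat (List.ofFn x) α = true ∧ SatT T x) := by
  have hκ := h.pos
  have hκ1 := h.le_one
  have hD1 : (1 : ℝ) ≤ D := by nlinarith [show (0 : ℝ) ≤ D by positivity]
  have hD1' : 1 ≤ D := by exact_mod_cast hD1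
  have hTc := h.cons T hT
  have hinj := inj_of_card hTc
  have hTX := h.dis T hT
  have hwt0 : 0 < wt α := by unfold wt; positivity
  have hwT := wF_pos T
  -- the terms with a large part in `T`
  obtain ⟨K, hKdef⟩ : ∃ K, K = G.filter fun A => A ≠ T ∧ p < (vs A ∩ vs T).card := ⟨_, rfl⟩
  have hKM : K.card ≤ M := by
    refine le_trans ?_ ((count10 h.codeg (vs T) Θ).trans hM)
    refine card_le_card fun A hA => ?_
    rw [hKdef, mem_filter] at hA
    rw [mem_filter]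
    refine ⟨hA.1, by omega, ?_⟩
    rw [hTc]
    exact hTp.trans (Nat.mul_le_mul_left _ (by omega))
  obtain ⟨Z, hZc, hZy, hZK, hZv⟩ := kill10 (x := y) (K := K) (fun A hA => by
    rw [hKdef, mem_filter] at hA
    exact hirr A hA.1 hA.2.1)
  have hZM : Z.card ≤ M := hZc.trans hKM
  have hZX : Disjoint (vs Z) (vs (toF n α)) := by
    rw [disjoint_left]
    intro j hj hj'
    obtain ⟨l, hl, rfl⟩ := mem_vs.1 hj
    obtain ⟨A, hA, hlA⟩ := hZv l hl
    rw [hKdef, mem_filter] at hA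
    exact disjoint_left.1 (h.dis A hA.1) hlA hj'
  obtain ⟨Gs, hGs⟩ : ∃ Gs, Gs = G.filter fun A => A ≠ T ∧ ¬ p < (vs A ∩ vs T).card := ⟨_, rfl⟩
  have hGsG : Gs ⊆ G := by rw [hGs]; exact filter_subset _ _
  -- the differentiated variables
  obtain ⟨V, hV⟩ : ∃ V, V = ((vs T).filter fun j => ¬ δ < dg G j) \ vs Z := ⟨_, rfl⟩
  have hVT : V ⊆ vs T := by rw [hV]; exact sdiff_subset.trans (filter_subset _ _)
  have hVcard : k + k ^ (t + 1) * (d * p) ≤ V.card := by
    have h1 := card_filter_add_card_filter_not (s := vs T) (fun j => δ < dg G j)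
    have h2 := le_card_sdiff (vs Z) ((vs T).filter fun j => ¬ δ < dg G j)
    rw [← hV] at h2
    have h3 : (vs Z).card ≤ Z.card := card_image_le
    have h4 : ((vs T).filter fun j => δ < dg G j).card ≤ t := not_lt.1 hbig
    rw [hTc] at h1
    omega
  obtain ⟨Y, hYV, hYk, hYs⟩ := pick10 h.codeg hGsG (V := V) (k := k) (p := p) (by
    intro A hA
    rw [hGs, mem_filter] at hA
    exact (card_le_card (inter_subset_inter_left hVT)).trans (not_lt.1 hA.2.2)) hVcard
  obtain ⟨R0, hR0def⟩ : ∃ R0, R0 = T.filter fun l => l.1 ∈ Y := ⟨_, rfl⟩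
  have hR0 : R0 ⊆ T := by rw [hR0def]; exact filter_subset _ _
  have hR0Y : vs R0 = Y := by
    ext j
    rw [mem_vs, hR0def]
    constructor
    · rintro ⟨l, hl, rfl⟩
      exact (mem_filter.1 hl).2
    · intro hj
      obtain ⟨l, hl, rfl⟩ := mem_vs.1 (hVT (hYV hj))
      exact ⟨l, mem_filter.2 ⟨hl, hj⟩, rfl⟩
  have hRc : (vs R0).card = R0.card := cons_mono hR0 hTc
  have hR0k : R0.card = k := by rw [← hRc, hR0Y, hYk]
  have hYZ : ∀ j ∈ Y, j ∉ vs Z := fun j hj => by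
    have := hYV hj
    rw [hV, mem_sdiff] at this
    exact this.2
  have hYδ : ∀ j ∈ Y, dg G j ≤ δ := fun j hj => by
    have := hYV hj
    rw [hV, mem_sdiff, mem_filter] at this
    exact not_lt.1 this.1.2
  have hnoise' := hnoise Gs Y hGsG hYk hYδ hYs
  rw [← hR0Y] at hnoise'
  -- the context
  obtain ⟨Z1, hZ1⟩ : ∃ Z1, Z1 = Z ∩ T := ⟨_, rfl⟩
  obtain ⟨Z2, hZ2⟩ : ∃ Z2, Z2 = Z \ T := ⟨_, rfl⟩
  have hZ1Z : Z1 ⊆ Z := by rw [hZ1]; exact inter_subset_left
  have hZ1T : Z1 ⊆ T := by rw [hZ1]; exact inter_subset_right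
  have hZ2Z : Z2 ⊆ Z := by rw [hZ2]; exact sdiff_subset
  obtain ⟨c, hc⟩ : ∃ c, c = lits Z1 ++ (lits Z2 ++ α) := ⟨_, rfl⟩
  have hcmem : ∀ l : Lit, l ∈ c ↔ l ∈ lits Z ∨ l ∈ α := by
    intro l
    rw [hc, List.mem_append, List.mem_append, ← or_assoc]
    refine or_congr_left ?_
    rw [mem_lits, mem_lits, mem_lits]
    constructor
    · rintro (⟨l', hl', e⟩ | ⟨l', hl', e⟩)
      · exact ⟨l', hZ1Z hl', e⟩
      · exact ⟨l', hZ2Z hl', e⟩
    · rintro ⟨l', hl', e⟩
      by_cases hlT : l' ∈ T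
      · exact Or.inl ⟨l', by rw [hZ1]; exact mem_inter.2 ⟨hl', hlT⟩, e⟩
      · exact Or.inr ⟨l', by rw [hZ2]; exact mem_sdiff.2 ⟨hl', hlT⟩, e⟩
  have hcsat : ∀ x : Fin n → Bool, sat (List.ofFn x) c = true ↔
      sat (List.ofFn x) α = true ∧ SatT Z x := by
    intro x
    rw [← sat_lits, sat_iff, sat_iff, sat_iff]
    constructor
    · intro h1
      exact ⟨fun l hl => h1 l ((hcmem l).2 (Or.inr hl)),
        fun l hl => h1 l ((hcmem l).2 (Or.inl hl))⟩
    · rintro ⟨h1, h2⟩ l hl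
      rcases (hcmem l).1 hl with hl | hl
      · exact h2 l hl
      · exact h1 l hl
  have hcn : ∀ l ∈ c, l.1 < n := by
    intro l hl
    rcases (hcmem l).1 hl with hl | hl
    · exact lits_lt hl
    · exact hαn l hl
  have hcα : ∀ l ∈ α, l ∈ c := fun l hl => (hcmem l).2 (Or.inr hl)
  have hcR : ∀ l ∈ c, ∀ j ∈ vs R0, l.1 ≠ (j : ℕ) := by
    intro l hl j hj he
    rcases (hcmem l).1 hl with hl | hl
    · obtain ⟨l', hl', rfl⟩ := mem_lits.1 hl
      have h1 : l'.1 = j := Fin.ext he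
      rw [hR0Y] at hj
      exact hYZ j hj (mem_vs.2 ⟨l', hl', h1⟩)
    · refine disjoint_left.1 hTX (vs_mono hR0 hj) (mem_vs_toF.2 ?_)
      exact List.mem_map.2 ⟨l, hl, he⟩
  -- errors
  set e : ℝ := 2 ^ k * (2 * τ) + wt α * (wF T * ν) with he
  have he0 : 0 ≤ e := by
    rw [he]
    positivity
  have hwZ := wF_pos (T ∪ Z)
  have hW : 0 < wt α * wF (T ∪ Z) := mul_pos hwt0 hwZ
  have hwTZ : wF T ≤ wF (T ∪ Z) * 2 ^ M := by
    unfold wF
    have h1 : (T ∪ Z).card ≤ T.card + M := (card_union_le _ _).trans (by omega)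
    have h2 : (1 / 2 : ℝ) ^ (T.card + M) ≤ (1 / 2) ^ (T ∪ Z).card :=
      pow_le_pow_of_le_one (by norm_num) (by norm_num) h1
    calc (1 / 2 : ℝ) ^ T.card = (1 / 2) ^ (T.card + M) * 2 ^ M := by
          rw [pow_add, mul_assoc, ← mul_pow]
          norm_num
      _ ≤ _ := mul_le_mul_of_nonneg_right h2 (by positivity)
  have h4De : 4 * D * e ≤ wt α * wF (T ∪ Z) * κ := by
    have h1 : 8 * D * (wt α * (wF T * ν)) ≤ wt α * wF (T ∪ Z) * κ := by
      calc 8 * D * (wt α * (wF T * ν)) = (wt α * (8 * D * ν)) * wF T := by ring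
        _ ≤ (wt α * (8 * D * ν)) * (wF (T ∪ Z) * 2 ^ M) :=
          mul_le_mul_of_nonneg_left hwTZ (by positivity)
        _ = (wt α * wF (T ∪ Z)) * (8 * D * ν * 2 ^ M) := by ring
        _ ≤ _ := mul_le_mul_of_nonneg_left hDν hW.le
    have h2 : 8 * D * (2 ^ k * (2 * τ)) ≤ wt α * wF (T ∪ Z) * κ := by
      have h3 : 8 * D * (2 ^ k * (2 * τ)) * 2 ^ M ≤ (wt α * wF (T ∪ Z) * κ) * 2 ^ M := by
        refine hDτ.trans ?_
        calc wt α * wF T * κ = (wt α * κ) * wF T := by ring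
          _ ≤ (wt α * κ) * (wF (T ∪ Z) * 2 ^ M) :=
            mul_le_mul_of_nonneg_left hwTZ (by positivity)
          _ = _ := by ring
      exact le_of_mul_le_mul_right h3 (by positivity)
    rw [he]
    linarith
  have happ : ∀ L : List Lit, (∀ l ∈ L, l.1 < n) → (∀ l ∈ L, ∀ j ∈ vs R0, l.1 ≠ (j : ℕ)) →
      (∀ l ∈ c, l ∈ L) →
      |Sg (fun C => em ω (ev f true (C ++ L) [])) k (lits R0) - mu (ET G T L)| ≤ e := by
    intro L h1 h2 h3
    refine Sg_approx10 hTc h.dis hαd hαn hgG hT hR0 hR0k hGsG hnoise' hτ hfg hrep h1 h2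
      (fun l hl => h3 l (hcα l hl)) ?_
    intro A hA hAT hAs
    have hAK : A ∈ K := by
      rw [hKdef, mem_filter]
      refine ⟨hA, hAT, ?_⟩
      by_contra hcon
      exact hAs (by rw [hGs, mem_filter]; exact ⟨hA, hAT, hcon⟩)
    obtain ⟨l, hl, hlZ⟩ := hZK A hAK
    exact ⟨l, hl, h3 _ ((hcmem _).2 (Or.inl (mem_lits.2 ⟨_, hlZ, rfl⟩)))⟩
  -- the signal
  set s : ℝ := mu (ET G T c) with hs
  have hinvO : ∀ i ∈ vs (toF n α), ∀ x, (∀ A ∈ G, A ≠ T → ¬ SatT A (flp i x)) ↔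
      (∀ A ∈ G, A ≠ T → ¬ SatT A x) := by
    intro i hi x
    refine forall₂_congr fun A hA => forall_congr' fun _ => not_congr (satT_flp ?_ x)
    exact fun hc => disjoint_left.1 (h.dis A hA) hc hi
  have hinvT : ∀ i ∈ vs (toF n α), ∀ x, SatT T (flp i x) ↔ SatT T x := fun i hi x =>
    satT_flp (fun hc => disjoint_left.1 hTX hc hi) x
  have hinvZ : ∀ i ∈ vs (toF n α), ∀ x, SatT Z (flp i x) ↔ SatT Z x := fun i hi x =>
    satT_flp (fun hc => disjoint_left.1 hZX hc hi) x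
  have hs_eq : s = wt α * mu (fun x => decide (SatT T x ∧ SatT Z x ∧
      ∀ A ∈ G, A ≠ T → ¬ SatT A x)) := by
    rw [hs, ← mu_leaf_and hαd hαn (fun x => SatT T x ∧ SatT Z x ∧ ∀ A ∈ G, A ≠ T → ¬ SatT A x)
      (fun i hi x => and_congr (hinvT i hi x) (and_congr (hinvZ i hi x) (hinvO i hi x)))]
    refine mu_congr fun x => ?_
    rw [ET_iff, decide_eq_true_iff, hcsat]
    tauto
  have hs_up : s ≤ wt α * wF (T ∪ Z) := by
    rw [hs_eq]
    refine mul_le_mul_of_nonneg_left (le_trans (mu_mono fun x hx => ?_) (mu_sat1_le (T ∪ Z)))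
      hwt0.le
    rw [decide_eq_true_iff] at hx ⊢
    rw [satT_union]
    exact ⟨hx.1, hx.2.1⟩
  have hkill : ∀ A ∈ G, A ≠ T → p < (vs A ∩ vs T).card → ∃ l ∈ A, (l.1, !l.2) ∈ Z := by
    intro A hA hAT hAp
    exact hZK A (by rw [hKdef, mem_filter]; exact ⟨hA, hAT, hAp⟩)
  have herr : ∀ q ≤ M + 1, κ / 2 ≤
      κ - 2 ^ q * δ * (2 ^ t * T.card + 2 ^ p * (d * T.card ^ (t + 1))) := by
    intro q hq
    have h1 : (2 : ℝ) ^ q ≤ 2 ^ (M + 1) := pow_le_pow_right₀ (by norm_num) hq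
    have h2 : 2 ^ q * δ * (2 ^ t * (T.card : ℝ) + 2 ^ p * (d * (T.card : ℝ) ^ (t + 1))) ≤
        2 ^ (M + 1) * δ * (2 ^ t * T.card + 2 ^ p * (d * T.card ^ (t + 1))) :=
      mul_le_mul_of_nonneg_right (mul_le_mul_of_nonneg_right h1 hδ) (by positivity)
    linarith
  have hs_lo : wt α * wF (T ∪ Z) * κ ≤ 2 * s := by
    have h1 := signal10 h hT hTy hZy hZX (by omega) hδ hbig hkill
    rw [hs_eq]
    have h4 := mul_le_mul_of_nonneg_left (herr Z.card (by omega)) hwZ.le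
    have h5 := mul_le_mul_of_nonneg_left (h4.trans h1) hwt0.le
    linarith
  -- a literal off `T`
  have hoff : ∀ l : Fin n × Bool, l ∉ T → l.1 ∉ vs (toF n α) → l.1 ∉ vs Z →
      4 * mu (ET G T (((l.1 : ℕ), l.2) :: c)) ≤ 4 * s - wt α * wF (T ∪ Z) * κ := by
    intro l hlT hlX hlZ
    by_cases hlv : l.1 ∈ vs T
    · have h1 : mu (ET G T (((l.1 : ℕ), l.2) :: c)) = 0 := by
        unfold mu ct
        rw [filter_false_of_mem]
        · simp
        · intro x _ hx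
          rw [ET_iff, sat_cons, getElem?_ofFn] at hx
          obtain ⟨l', hl', he'⟩ := mem_vs.1 hlv
          have h2 := hx.2.1 l' hl'
          rw [he'] at h2
          have h3 : x l.1 = l.2 := hx.1.1.2
          exact hlT (by
            have : l = l' := Prod.ext he'.symm (by rw [← h3, ← h2])
            rw [this]; exact hl')
      have h0 : 0 ≤ s := mu_nonneg _
      rw [h1]
      linarith
    · obtain ⟨Z', hZ'⟩ : ∃ Z', Z' = insert (l.1, !l.2) Z := ⟨_, rfl⟩
      have hvZ' : ∀ j, j ∈ vs Z' ↔ j = l.1 ∨ j ∈ vs Z := by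
        intro j
        rw [hZ']
        unfold vs
        rw [image_insert, mem_insert]
      have hlit : (l.1, !l.2) ∉ T ∪ Z := by
        rw [mem_union]
        rintro (hc' | hc')
        · exact hlv (mem_vs.2 ⟨_, hc', rfl⟩)
        · exact hlZ (mem_vs.2 ⟨_, hc', rfl⟩)
      have h2 : wF (T ∪ Z') = wF (T ∪ Z) * (1 / 2) := by
        rw [hZ', union_insert]
        unfold wF
        rw [card_insert_of_notMem hlit, pow_succ]
      have hSatZ' : ∀ x, SatT Z' x ↔ x l.1 = (!l.2) ∧ SatT Z x := by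
        intro x
        rw [hZ']
        unfold SatT
        rw [forall_mem_insert]
      have h1 := signal10 (p := p) h hT (Z := Z') (y := Function.update y l.1 (!l.2)) (by
        intro l' hl'
        have : l'.1 ≠ l.1 := fun hc' => hlv (mem_vs.2 ⟨l', hl', hc'⟩)
        rw [Function.update_of_ne this]
        exact hTy l' hl') (by
        rw [hSatZ']
        refine ⟨by simp, ?_⟩
        intro l' hl'
        have : l'.1 ≠ l.1 := fun hc' => hlZ (mem_vs.2 ⟨l', hl', hc'⟩)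
        rw [Function.update_of_ne this]
        exact hZy l' hl') (by
        rw [disjoint_left]
        intro j hj
        rcases (hvZ' j).1 hj with hj | hj
        · rw [hj]; exact hlX
        · exact disjoint_left.1 hZX hj) (by
        have h3 := card_insert_le (l.1, !l.2) Z
        rw [← hZ'] at h3
        omega) hδ hbig (by
        intro A hA hAT hAp
        obtain ⟨l', hl', hl'Z⟩ := hkill A hA hAT hAp
        exact ⟨l', hl', by rw [hZ']; exact mem_insert_of_mem hl'Z⟩)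
      rw [h2] at h1
      have h3 : mu (ET G T c) = mu (ET G T (((l.1 : ℕ), l.2) :: c)) +
          mu (ET G T (((l.1 : ℕ), !l.2) :: c)) := by
        refine mu_eq_add ?_ ?_
        · intro x
          rw [ET_iff, ET_iff, ET_iff, sat_cons, sat_cons, getElem?_ofFn, getElem?_ofFn]
          constructor
          · rintro ⟨a, b⟩
            rcases Bool.eq_or_eq_not (x l.1) l.2 with h4 | h4
            · exact Or.inl ⟨⟨⟨l.1.2, h4⟩, a⟩, b⟩
            · exact Or.inr ⟨⟨⟨l.1.2, h4⟩, a⟩, b⟩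
          · rintro (⟨⟨_, a⟩, b⟩ | ⟨⟨_, a⟩, b⟩) <;> exact ⟨a, b⟩
        · rintro x ⟨h4, h5⟩
          rw [ET_iff, sat_cons, getElem?_ofFn] at h4 h5
          have h6 : x l.1 = l.2 := h4.1.1.2
          have h7 : x l.1 = !l.2 := h5.1.1.2
          rw [h6] at h7
          cases l.2 <;> simp at h7
      have h4 : mu (ET G T (((l.1 : ℕ), !l.2) :: c)) = wt α * mu (fun x =>
          decide (SatT T x ∧ SatT Z' x ∧ ∀ A ∈ G, A ≠ T → ¬ SatT A x)) := by
        rw [← mu_leaf_and hαd hαn (fun x => SatT T x ∧ SatT Z' x ∧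
          ∀ A ∈ G, A ≠ T → ¬ SatT A x) (fun i hi x => and_congr (hinvT i hi x)
            (and_congr (satT_flp (by
              intro hc'
              rcases (hvZ' i).1 hc' with hc' | hc'
              · exact hlX (hc' ▸ hi)
              · exact disjoint_left.1 hZX hc' hi) x) (hinvO i hi x)))]
        refine mu_congr fun x => ?_
        rw [ET_iff, decide_eq_true_iff, sat_cons, getElem?_ofFn, hcsat, hSatZ']
        constructor
        · rintro ⟨⟨⟨_, a⟩, b, b'⟩, c', d'⟩; exact ⟨b, c', ⟨a, b'⟩, d'⟩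
        · rintro ⟨b, c', ⟨a, b'⟩, d'⟩; exact ⟨⟨⟨l.1.2, a⟩, b, b'⟩, c', d'⟩
      have hZ'c : Z'.card ≤ M + 1 := by
        have h3 := card_insert_le (l.1, !l.2) Z
        rw [← hZ'] at h3
        omega
      have h5 := mul_le_mul_of_nonneg_left (herr Z'.card hZ'c)
        (show 0 ≤ wF (T ∪ Z) * (1 / 2) by positivity)
      have h6 := mul_le_mul_of_nonneg_left (h5.trans h1) hwt0.le
      rw [← h4] at h6
      rw [← hs] at h3
      linarith
  have hMα := abs_le.1 (happ c hcn hcR fun l hl => hl)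
  rw [← hs] at hMα
  have hMl : ∀ l : Lit, l.1 < n → (∀ l' ∈ lits R0 ++ c, l'.1 ≠ l.1) →
      |Sg (fun C => em ω (ev f true (C ++ (l :: c)) [])) k (lits R0) -
        mu (ET G T (l :: c))| ≤ e := by
    intro l hln hl
    refine happ (l :: c) ?_ ?_ ?_
    · intro l' hl'
      rcases List.mem_cons.1 hl' with rfl | hl'
      · exact hln
      · exact hcn l' hl'
    · intro l' hl' j hj
      rcases List.mem_cons.1 hl' with rfl | hl'
      · obtain ⟨l'', hl'', rfl⟩ := mem_vs.1 hj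
        exact (hl _ (List.mem_append.2 (Or.inl (mem_lits.2 ⟨l'', hl'', rfl⟩)))).symm
      · exact hcR l' hl' j hj
    · intro l' hl'
      exact List.mem_cons_of_mem _ hl'
  have hext : ∀ l : Lit, l ∈ ext6 k D (allLits n) (smp f ω) c (lits R0) ↔
      (l ∈ lits T ∧ l ∉ lits R0 ∧ l ∉ lits Z1) := by
    intro l
    rw [mem_ext6 hD1' hm, mem_allLits]
    constructor
    · rintro ⟨hln, hl, htest⟩
      have hM := abs_le.1 (hMl l hln hl)
      have hlX : (⟨l.1, hln⟩ : Fin n) ∉ vs (toF n α) := by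
        rw [mem_vs_toF, List.mem_map]
        rintro ⟨l', hl', he'⟩
        exact hl l' (List.mem_append.2 (Or.inr (hcα l' hl'))) he'
      have hlZ : (⟨l.1, hln⟩ : Fin n) ∉ vs Z := by
        intro hc'
        obtain ⟨l', hl', he'⟩ := mem_vs.1 hc'
        refine hl ((l'.1 : ℕ), l'.2) (List.mem_append.2 (Or.inr ((hcmem _).2
          (Or.inl (mem_lits.2 ⟨l', hl', rfl⟩))))) ?_
        rw [he']
      refine ⟨?_, fun hc' => hl l (List.mem_append.2 (Or.inl hc')) rfl, fun hc' =>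
        hl l (List.mem_append.2 (Or.inr (by
          rw [hc]; exact List.mem_append.2 (Or.inl hc')))) rfl⟩
      by_contra hcon
      have hlT : ((⟨l.1, hln⟩ : Fin n), l.2) ∉ T := by
        intro hc'
        exact hcon (mem_lits.2 ⟨_, hc', rfl⟩)
      have h1 := hoff (⟨l.1, hln⟩, l.2) hlT hlX hlZ
      have h1' : 4 * mu (ET G T (l :: c)) ≤ 4 * s - wt α * wF (T ∪ Z) * κ := h1
      have h2 : D * Sg (fun C => em ω (ev f true (C ++ (l :: c)) [])) k (lits R0) ≤
          D * (s - wt α * wF (T ∪ Z) * κ / 4 + e) :=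
        mul_le_mul_of_nonneg_left (by linarith [hM.2]) (by linarith)
      have h3 : ((D : ℝ) - 1) * (s - e) ≤
          ((D : ℝ) - 1) * Sg (fun C => em ω (ev f true (C ++ c) [])) k (lits R0) :=
        mul_le_mul_of_nonneg_left (by linarith [hMα.1]) (by linarith)
      have h4 : (wt α * wF (T ∪ Z)) * 8 ≤ (wt α * wF (T ∪ Z)) * (D * κ) :=
        mul_le_mul_of_nonneg_left hD hW.le
      have h5 : 0 ≤ e := he0
      have h6 : wt α * wF (T ∪ Z) * κ ≤ wt α * wF (T ∪ Z) := mul_le_of_le_one_right hW.le hκ1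
      nlinarith
    · rintro ⟨hlT, hlR, hlZ1⟩
      obtain ⟨l', hl', rfl⟩ := mem_lits.1 hlT
      have hl'R : l' ∉ R0 := fun hc' => hlR (mem_lits.2 ⟨l', hc', rfl⟩)
      have hl'Z : l' ∉ Z := fun hc' => hlZ1 (mem_lits.2 ⟨l', by
        rw [hZ1]; exact mem_inter.2 ⟨hc', hl'⟩, rfl⟩)
      have hvar : ∀ l'' ∈ lits R0 ++ c, l''.1 ≠ (l'.1 : ℕ) := by
        intro l'' hl'' hc'
        rcases List.mem_append.1 hl'' with h1 | h1
        · obtain ⟨l3, hl3, rfl⟩ := mem_lits.1 h1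
          have h2 : l3.1 = l'.1 := Fin.ext hc'
          have := hinj (by simpa using hR0 hl3) (by simpa using hl') h2
          exact hl'R (this ▸ hl3)
        · rcases (hcmem _).1 h1 with h1 | h1
          · obtain ⟨l3, hl3, rfl⟩ := mem_lits.1 h1
            have h2 : l3.1 = l'.1 := Fin.ext hc'
            have h3 : l3 = l' := Prod.ext h2 (by rw [← hZy l3 hl3, ← hTy l' hl', h2])
            exact hl'Z (h3 ▸ hl3)
          · refine disjoint_left.1 hTX (mem_vs.2 ⟨l', hl', rfl⟩) (mem_vs_toF.2 ?_)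
            exact List.mem_map.2 ⟨l'', h1, hc'⟩
      refine ⟨l'.1.2, hvar, ?_⟩
      have hM := abs_le.1 (hMl ((l'.1 : ℕ), l'.2) l'.1.2 hvar)
      have h1 : mu (ET G T (((l'.1 : ℕ), l'.2) :: c)) = s := by
        rw [hs]
        refine mu_congr fun x => ?_
        rw [ET_iff, ET_iff, sat_cons, getElem?_ofFn]
        constructor
        · rintro ⟨⟨_, a⟩, b⟩; exact ⟨a, b⟩
        · rintro ⟨a, b, c'⟩; exact ⟨⟨⟨l'.1.2, b l' hl'⟩, a⟩, b, c'⟩
      rw [h1] at hM
      have h2 : D * (s - e) ≤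
          D * Sg (fun C => em ω (ev f true (C ++ (((l'.1 : ℕ), l'.2) :: c)) [])) k (lits R0) :=
        mul_le_mul_of_nonneg_left (by linarith [hM.1]) (by linarith)
      have h3 : ((D : ℝ) - 1) *
          Sg (fun C => em ω (ev f true (C ++ c) [])) k (lits R0) ≤ ((D : ℝ) - 1) * (s + e) :=
        mul_le_mul_of_nonneg_left (by linarith [hMα.2]) (by linarith)
      nlinarith
  refine ⟨lits R0 ++ (ext6 k D (allLits n) (smp f ω) c (lits R0) ++ (lits Z1 ++ α)), ?_, ?_⟩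
  · unfold longC10
    rw [List.mem_flatMap]
    refine ⟨lits R0, mem_seeds ?_ ?_ ?_, ?_⟩
    · rw [length_allLits]; exact hN
    · rw [length_lits, hR0k]
    · exact fun l hl => mem_allLits.2 (lits_lt hl)
    rw [List.mem_flatMap]
    refine ⟨lits Z1, mem_seeds ?_ ?_ ?_, ?_⟩
    · rw [length_allLits]; exact hN'
    · rw [length_lits]; exact (card_le_card hZ1Z).trans hZM
    · exact fun l hl => mem_allLits.2 (lits_lt hl)
    rw [List.mem_map]
    refine ⟨lits Z2, mem_seeds ?_ ?_ ?_, ?_⟩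
    · rw [length_allLits]; exact hN'
    · rw [length_lits]; exact (card_le_card hZ2Z).trans hZM
    · exact fun l hl => mem_allLits.2 (lits_lt hl)
    rw [hc]
  · intro x
    rw [sat_append, sat_append, sat_append]
    constructor
    · rintro ⟨h1, h2, h3, h4⟩
      refine ⟨h4, ?_⟩
      rw [← sat_lits, sat_iff]
      intro l hl
      by_cases hlR : l ∈ lits R0
      · exact sat_iff.1 h1 l hlR
      · by_cases hlZ1 : l ∈ lits Z1
        · exact sat_iff.1 h3 l hlZ1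
        · exact sat_iff.1 h2 l ((hext l).2 ⟨hl, hlR, hlZ1⟩)
    · rintro ⟨h3, h1⟩
      refine ⟨sat_lits.2 (satT_mono hR0 h1), ?_, sat_lits.2 (satT_mono hZ1T h1), h3⟩
      rw [sat_iff]
      intro l hl
      exact sat_iff.1 (sat_lits.2 h1) l ((hext l).1 hl).1

end Pool.Agent.H.MP_cba12a_lc
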