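import Pool.Agent.H.MP_cba12a_lc.S10.ParQ10

/-!
Choice of the parameters: the terms with many variables of large degree.
-/

namespace Pool.Agent.H.MP_cba12a_lc

/-- The bounds for the terms with many variables of large degree hold once the length is at least
a constant times `Nat.clog 2 a + 1`. -/
theorem par10_big (t d C e : ℕ) : ∃ c : ℕ, ∀ a ℓ : ℕ, 1 ≤ a →
    c * (Nat.clog 2 a + 1) ≤ ℓ →
    d * (6 * d * (t + 1) * (ℓ : ℝ) * (Bd9 C e a : ℕ) / del10 t ℓ) ^ (t + 1) * (1 / 2) ^ ℓ ≤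
      1 / (16 * a) / ((ℓ : ℝ) * (ℓ + 1)) ∧ (ℓ : ℝ) * (Bd9 C e a : ℕ) ≤ 2 ^ ℓ := by
  obtain ⟨K0, hK0⟩ : ∃ K0 : ℕ, K0 = C * 32 ^ e + 1 := ⟨_, rfl⟩
  have hB : ∀ a : ℕ, 1 ≤ a → Bd9 C e a ≤ K0 * a ^ e := by
    intro a ha
    have h1 : 1 ≤ a ^ e := Nat.one_le_pow _ _ ha
    calc Bd9 C e a = C * 32 ^ e * a ^ e + 1 := by unfold Bd9; rw [mul_pow]; ring
      _ ≤ C * 32 ^ e * a ^ e + a ^ e := Nat.add_le_add_left h1 _
      _ = K0 * a ^ e := by rw [hK0]; ring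
  obtain ⟨c1, hc1⟩ := q10_growth t (32 * (d * (6 * d * (t + 1) * K0) ^ (t + 1)))
    (1 + e * (t + 1)) (t + 3)
  obtain ⟨c2, hc2⟩ := q10_growth t K0 e 1
  refine ⟨c1 + c2, fun a ℓ ha hl => ?_⟩
  have l1 : c1 * (Nat.clog 2 a + 1) ≤ ℓ := le_trans (Nat.mul_le_mul_right _ (by omega)) hl
  have l2 : c2 * (Nat.clog 2 a + 1) ≤ ℓ := le_trans (Nat.mul_le_mul_right _ (by omega)) hl
  obtain ⟨g1, g2, g3, -⟩ := hc1 a ℓ ha l1
  obtain ⟨g5, -, -, -⟩ := hc2 a ℓ ha l2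
  have hqℓ : q10 t ℓ ≤ ℓ := by
    refine le_trans ?_ g3
    calc q10 t ℓ = 1 * q10 t ℓ := (one_mul _).symm
      _ ≤ (2 * t + 3) * q10 t ℓ := Nat.mul_le_mul_right _ (by omega)
  have hl1 : 1 ≤ ℓ := g2.trans hqℓ
  have hN : 16 * a * (ℓ * (ℓ + 1)) * (d * (6 * d * (t + 1) * ℓ * Bd9 C e a) ^ (t + 1)) ≤
      2 ^ q10 t ℓ := by
    have h1 : ℓ * (ℓ + 1) ≤ 2 * ℓ ^ 2 := by nlinarith
    refine le_trans ?_ g1
    calc 16 * a * (ℓ * (ℓ + 1)) * (d * (6 * d * (t + 1) * ℓ * Bd9 C e a) ^ (t + 1))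
        ≤ 16 * a * (2 * ℓ ^ 2) * (d * (6 * d * (t + 1) * ℓ * (K0 * a ^ e)) ^ (t + 1)) := by
          refine Nat.mul_le_mul (Nat.mul_le_mul_left _ h1)
            (Nat.mul_le_mul_left _ (Nat.pow_le_pow_left ?_ _))
          exact Nat.mul_le_mul_left _ (hB a ha)
      _ = 32 * (d * (6 * d * (t + 1) * K0) ^ (t + 1)) * a ^ (1 + e * (t + 1)) * ℓ ^ (t + 3) := by
          rw [show 6 * d * (t + 1) * ℓ * (K0 * a ^ e) = (6 * d * (t + 1) * K0) * (ℓ * a ^ e) by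
            ring, mul_pow (6 * d * (t + 1) * K0), mul_pow ℓ, ← pow_mul, pow_add a 1, pow_one,
            show t + 3 = 2 + (t + 1) by ring, pow_add ℓ 2]
          ring
  constructor
  · have hreal : (16 * a * (ℓ * (ℓ + 1)) *
        (d * (6 * d * (t + 1) * ℓ * (Bd9 C e a : ℕ)) ^ (t + 1)) : ℝ) ≤ 2 ^ q10 t ℓ := by
      exact_mod_cast hN
    have ha' : (0 : ℝ) < a := by exact_mod_cast ha
    have hl' : (0 : ℝ) < ℓ := by exact_mod_cast hl1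
    rw [div_div, le_div_iff₀ (by positivity)]
    have hdel : (6 * d * (t + 1) * (ℓ : ℝ) * (Bd9 C e a : ℕ) / del10 t ℓ) =
        (6 * d * (t + 1) * (ℓ : ℝ) * (Bd9 C e a : ℕ)) * 2 ^ (2 * q10 t ℓ) := by
      unfold del10
      rw [one_div, inv_pow, div_inv_eq_mul]
    have hp : ((2 : ℝ) ^ (2 * q10 t ℓ)) ^ (t + 1) * (1 / 2) ^ ℓ ≤ (1 / 2) ^ q10 t ℓ := by
      calc ((2 : ℝ) ^ (2 * q10 t ℓ)) ^ (t + 1) * (1 / 2) ^ ℓ
          ≤ ((2 : ℝ) ^ (2 * q10 t ℓ)) ^ (t + 1) * (1 / 2) ^ ((2 * t + 3) * q10 t ℓ) :=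
            mul_le_mul_of_nonneg_left
              (pow_le_pow_of_le_one (by norm_num) (by norm_num) g3) (by positivity)
        _ = (1 / 2) ^ q10 t ℓ := by
            rw [← pow_mul, show (2 * t + 3) * q10 t ℓ = 2 * q10 t ℓ * (t + 1) + q10 t ℓ by ring,
              pow_add, ← mul_assoc, ← mul_pow]
            norm_num
    rw [hdel, mul_pow]
    calc (d : ℝ) * ((6 * d * (t + 1) * (ℓ : ℝ) * (Bd9 C e a : ℕ)) ^ (t + 1) *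
          (2 ^ (2 * q10 t ℓ)) ^ (t + 1)) * (1 / 2) ^ ℓ * (16 * a * ((ℓ : ℝ) * (ℓ + 1)))
        = (16 * a * (ℓ * (ℓ + 1)) *
          (d * (6 * d * (t + 1) * ℓ * (Bd9 C e a : ℕ)) ^ (t + 1))) *
          ((2 ^ (2 * q10 t ℓ)) ^ (t + 1) * (1 / 2) ^ ℓ) := by ring
      _ ≤ 2 ^ q10 t ℓ * (1 / 2) ^ q10 t ℓ :=
          mul_le_mul hreal hp (by positivity) (by positivity)
      _ = 1 := by rw [← mul_pow]; norm_num
  · have h1 : ℓ * Bd9 C e a ≤ 2 ^ ℓ := by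
      calc ℓ * Bd9 C e a ≤ ℓ * (K0 * a ^ e) := Nat.mul_le_mul_left _ (hB a ha)
        _ = K0 * a ^ e * ℓ ^ 1 := by ring
        _ ≤ 2 ^ q10 t ℓ := g5
        _ ≤ 2 ^ ℓ := Nat.pow_le_pow_right (by norm_num) hqℓ
    exact_mod_cast h1

end Pool.Agent.H.MP_cba12a_lc
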