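import Pool.Agent.H.MP_cba12a_lc.S10.ParQ10

/-!
Choice of the parameters: the noise.
-/

namespace Pool.Agent.H.MP_cba12a_lc

/-- For all lengths above a constant times `Nat.clog 2 a + 1` the noise is small. -/
theorem par10_noise (t M k C : ℕ) : ∃ c : ℕ, ∀ a ℓ : ℕ, 1 ≤ a →
    c * (Nat.clog 2 a + 1) ≤ ℓ →
    C * ((2 ^ t * (k : ℝ) * del10 t ℓ) ^ (t + 2) + (2 / 3) ^ (4 * ℓ)) ≤
      (1 / 2) ^ ℓ * (1 / (2 ^ 16 * a ^ 2 * 2 ^ M)) := by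
  obtain ⟨c, hc⟩ := q10_growth t
    (2 ^ 16 * 2 ^ M * C * ((2 ^ t * k) ^ (t + 2) * 2 ^ (2 * t + 3) + 1)) 2 0
  refine ⟨c, fun a ℓ ha hℓ => ?_⟩
  obtain ⟨h1, _, h3, h4⟩ := hc a ℓ ha hℓ
  unfold del10
  generalize q10 t ℓ = q at h1 h3 h4 ⊢
  have hq : q ≤ ℓ := by nlinarith
  have hhalf : (0 : ℝ) ≤ 1 / 2 := by norm_num
  have hhalf1 : (1 / 2 : ℝ) ≤ 1 := by norm_num
  -- first summand
  have e1 : ((1 / 2 : ℝ) ^ (2 * q)) ^ (t + 2) = (1 / 2) ^ ((2 * t + 3) * q) * (1 / 2) ^ q := by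
    rw [← pow_mul, ← pow_add]
    congr 1
    ring
  have e2 : (1 / 2 : ℝ) ^ ((2 * t + 3) * q) ≤ (1 / 2) ^ ℓ * 2 ^ (2 * t + 3) := by
    have h5 : (1 / 2 : ℝ) ^ ((2 * t + 3) * q + (2 * t + 3)) ≤ (1 / 2) ^ ℓ :=
      pow_le_pow_of_le_one hhalf hhalf1 h4
    have h6 : (1 / 2 : ℝ) ^ ((2 * t + 3) * q) =
        (1 / 2) ^ ((2 * t + 3) * q + (2 * t + 3)) * 2 ^ (2 * t + 3) := by
      rw [pow_add, mul_assoc, ← mul_pow]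
      norm_num
    rw [h6]
    exact mul_le_mul_of_nonneg_right h5 (by positivity)
  have e3 : (2 ^ t * (k : ℝ) * (1 / 2) ^ (2 * q)) ^ (t + 2) ≤
      (2 ^ t * (k : ℝ)) ^ (t + 2) * 2 ^ (2 * t + 3) * ((1 / 2) ^ ℓ * (1 / 2) ^ q) := by
    rw [mul_pow, e1]
    have h7 : (0 : ℝ) ≤ (2 ^ t * (k : ℝ)) ^ (t + 2) := by positivity
    have h8 : (0 : ℝ) ≤ (1 / 2 : ℝ) ^ q := by positivity
    calc (2 ^ t * (k : ℝ)) ^ (t + 2) * ((1 / 2) ^ ((2 * t + 3) * q) * (1 / 2) ^ q)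
        ≤ (2 ^ t * (k : ℝ)) ^ (t + 2) * (((1 / 2) ^ ℓ * 2 ^ (2 * t + 3)) * (1 / 2) ^ q) :=
          mul_le_mul_of_nonneg_left (mul_le_mul_of_nonneg_right e2 h8) h7
      _ = _ := by ring
  -- second summand
  have e4 : (2 / 3 : ℝ) ^ (4 * ℓ) ≤ (1 / 2) ^ ℓ * (1 / 2) ^ q := by
    have h9 : (1 / 2 : ℝ) ^ ℓ ≤ (1 / 2) ^ q := pow_le_pow_of_le_one hhalf hhalf1 hq
    have h10 : (2 / 3 : ℝ) ^ (4 * ℓ) = (16 / 81) ^ ℓ := by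
      rw [pow_mul]
      norm_num
    have h11 : (16 / 81 : ℝ) ^ ℓ ≤ (1 / 4) ^ ℓ :=
      pow_le_pow_left₀ (by norm_num) (by norm_num) ℓ
    have h12 : (1 / 4 : ℝ) ^ ℓ = (1 / 2) ^ ℓ * (1 / 2) ^ ℓ := by
      rw [← mul_pow]
      norm_num
    rw [h10]
    refine h11.trans ?_
    rw [h12]
    exact mul_le_mul_of_nonneg_left h9 (by positivity)
  have e5 : (C : ℝ) * ((2 ^ t * (k : ℝ) * (1 / 2) ^ (2 * q)) ^ (t + 2) + (2 / 3) ^ (4 * ℓ)) ≤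
      C * (((2 ^ t * (k : ℝ)) ^ (t + 2) * 2 ^ (2 * t + 3) + 1) * ((1 / 2) ^ ℓ * (1 / 2) ^ q)) := by
    refine mul_le_mul_of_nonneg_left ?_ (by positivity)
    calc _ ≤ (2 ^ t * (k : ℝ)) ^ (t + 2) * 2 ^ (2 * t + 3) * ((1 / 2) ^ ℓ * (1 / 2) ^ q) +
          (1 / 2) ^ ℓ * (1 / 2) ^ q := add_le_add e3 e4
      _ = _ := by ring
  refine e5.trans ?_
  have h13 : (2 ^ 16 * 2 ^ M * (C : ℝ) * ((2 ^ t * (k : ℝ)) ^ (t + 2) * 2 ^ (2 * t + 3) + 1)) *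
      (a : ℝ) ^ 2 ≤ 2 ^ q := by
    have h14 : ((2 ^ 16 * 2 ^ M * C * ((2 ^ t * k) ^ (t + 2) * 2 ^ (2 * t + 3) + 1) * a ^ 2 *
        ℓ ^ 0 : ℕ) : ℝ) ≤ ((2 ^ q : ℕ) : ℝ) := by exact_mod_cast h1
    push_cast at h14
    rw [pow_zero, mul_one] at h14
    norm_num at h14 ⊢
    exact h14
  have ha' : (0 : ℝ) < a := by exact_mod_cast ha
  have hden : (0 : ℝ) < 2 ^ 16 * (a : ℝ) ^ 2 * 2 ^ M := by positivity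
  rw [mul_one_div, le_div_iff₀ hden]
  have hpq : (1 / 2 : ℝ) ^ q * 2 ^ q = 1 := by
    rw [← mul_pow]
    norm_num
  have hl0 : (0 : ℝ) ≤ (1 / 2 : ℝ) ^ ℓ * (1 / 2) ^ q := by positivity
  calc (C : ℝ) * (((2 ^ t * (k : ℝ)) ^ (t + 2) * 2 ^ (2 * t + 3) + 1) *
        ((1 / 2) ^ ℓ * (1 / 2) ^ q)) * (2 ^ 16 * (a : ℝ) ^ 2 * 2 ^ M)
      = ((1 / 2 : ℝ) ^ ℓ * (1 / 2) ^ q) * ((2 ^ 16 * 2 ^ M * (C : ℝ) *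
        ((2 ^ t * (k : ℝ)) ^ (t + 2) * 2 ^ (2 * t + 3) + 1)) * (a : ℝ) ^ 2) := by ring
    _ ≤ ((1 / 2 : ℝ) ^ ℓ * (1 / 2) ^ q) * 2 ^ q := mul_le_mul_of_nonneg_left h13 hl0
    _ = (1 / 2 : ℝ) ^ ℓ := by rw [mul_assoc, hpq, mul_one]

end Pool.Agent.H.MP_cba12a_lc
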