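import Pool.Agent.H.MP_cba12a_lc.S10.ParQ10

/-!
Choice of the parameters: the signal.
-/

namespace Pool.Agent.H.MP_cba12a_lc

/-- The signal dominates the error terms once the length is at least a constant times
`Nat.clog 2 a + 1`. -/
theorem par10_sig (t d M : ℕ) : ∃ c : ℕ, ∀ a ℓ : ℕ, 1 ≤ a → c * (Nat.clog 2 a + 1) ≤ ℓ →
    2 ^ (M + 1) * del10 t ℓ * (2 ^ t * (ℓ : ℝ) + 2 ^ (ℓ / Th10 t d) * (d * (ℓ : ℝ) ^ (t + 1))) ≤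
      1 / (64 * a) := by
  obtain ⟨c, hc⟩ := q10_growth t (64 * (2 ^ (M + 1) * (2 ^ t + d))) 1 (t + 1)
  refine ⟨c, fun a ℓ ha hl => ?_⟩
  obtain ⟨h1, h2, h3, -⟩ := hc a ℓ ha hl
  have hTh : ℓ / Th10 t d ≤ q10 t ℓ := by
    unfold q10 Th10
    exact Nat.div_le_div_left (by omega) (by omega)
  have hl1 : 1 ≤ ℓ := by
    have : 1 ≤ (2 * t + 3) * q10 t ℓ := Nat.mul_pos (by omega) h2
    omega
  have hl1R : (1 : ℝ) ≤ ℓ := by exact_mod_cast hl1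
  have haR : (1 : ℝ) ≤ a := by exact_mod_cast ha
  set q := q10 t ℓ with hq
  have hkey : (64 * (2 ^ (M + 1) * (2 ^ t + d)) : ℝ) * a * (ℓ : ℝ) ^ (t + 1) ≤ 2 ^ q := by
    have := h1
    rw [pow_one] at this
    exact_mod_cast this
  have hdel : del10 t ℓ * 2 ^ q * 2 ^ q = 1 := by
    unfold del10
    rw [← hq, mul_assoc, ← pow_add, ← two_mul, ← mul_pow]
    norm_num
  have hdpos : 0 < del10 t ℓ := del10_pos t ℓ
  have hB : 2 ^ t * (ℓ : ℝ) + 2 ^ (ℓ / Th10 t d) * (d * (ℓ : ℝ) ^ (t + 1)) ≤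
      2 ^ q * ((2 ^ t + d) * (ℓ : ℝ) ^ (t + 1)) := by
    have e1 : (ℓ : ℝ) ≤ (ℓ : ℝ) ^ (t + 1) := le_self_pow₀ hl1R (by omega)
    have e2 : (1 : ℝ) ≤ 2 ^ q := one_le_pow₀ (by norm_num)
    have e3 : (2 : ℝ) ^ (ℓ / Th10 t d) ≤ 2 ^ q := pow_le_pow_right₀ (by norm_num) hTh
    have e4 : (0 : ℝ) ≤ (ℓ : ℝ) ^ (t + 1) := by positivity
    have e5 : 2 ^ t * (ℓ : ℝ) ≤ 2 ^ q * (2 ^ t * (ℓ : ℝ) ^ (t + 1)) := by
      calc 2 ^ t * (ℓ : ℝ) ≤ 2 ^ t * (ℓ : ℝ) ^ (t + 1) :=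
            mul_le_mul_of_nonneg_left e1 (by positivity)
        _ = 1 * (2 ^ t * (ℓ : ℝ) ^ (t + 1)) := (one_mul _).symm
        _ ≤ _ := mul_le_mul_of_nonneg_right e2 (by positivity)
    have e6 : 2 ^ (ℓ / Th10 t d) * (d * (ℓ : ℝ) ^ (t + 1)) ≤
        2 ^ q * (d * (ℓ : ℝ) ^ (t + 1)) :=
      mul_le_mul_of_nonneg_right e3 (by positivity)
    calc _ ≤ 2 ^ q * (2 ^ t * (ℓ : ℝ) ^ (t + 1)) + 2 ^ q * (d * (ℓ : ℝ) ^ (t + 1)) :=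
          add_le_add e5 e6
      _ = _ := by ring
  rw [le_div_iff₀ (by positivity)]
  calc 2 ^ (M + 1) * del10 t ℓ * (2 ^ t * (ℓ : ℝ) + 2 ^ (ℓ / Th10 t d) *
        (d * (ℓ : ℝ) ^ (t + 1))) * (64 * a)
      ≤ 2 ^ (M + 1) * del10 t ℓ * (2 ^ q * ((2 ^ t + d) * (ℓ : ℝ) ^ (t + 1))) * (64 * a) := by
        refine mul_le_mul_of_nonneg_right (mul_le_mul_of_nonneg_left hB ?_) (by positivity)
        positivity
    _ = del10 t ℓ * 2 ^ q * ((64 * (2 ^ (M + 1) * (2 ^ t + d)) : ℝ) * a * (ℓ : ℝ) ^ (t + 1)) := by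
        ring
    _ ≤ del10 t ℓ * 2 ^ q * 2 ^ q :=
        mul_le_mul_of_nonneg_left hkey (by positivity)
    _ = 1 := hdel

end Pool.Agent.H.MP_cba12a_lc
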