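import Pool.Agent.H.MP_cba12a_lc.S10.ParA10
import Pool.Agent.H.MP_cba12a_lc.S10.ParS10
import Pool.Agent.H.MP_cba12a_lc.S10.ParN10
import Pool.Agent.H.MP_cba12a_lc.S10.ParB10

/-!
Choice of the parameters.
-/
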