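import Pool.Agent.H.MP_cba12a_lc.S10.Core10
import Pool.Agent.H.MP_cba12a_lc.S10.Det10
import Pool.Agent.H.MP_cba12a_lc.S10.Par10

/-!
Every needed term of a leaf has a candidate.
-/

namespace Pool.Agent.H.MP_cba12a_lc

open Finset

variable {n m : ℕ}

open Classical in
/-- the noise at a term, with the chosen parameters -/
theorem noise_at10 {t d C1 a : ℕ} {G : Finset (Finset (Fin n × Bool))}
    (hC1 : ∀ (n lam E0 : ℕ) (δ : ℝ)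
      (G Gs : Finset (Finset (Fin n × Bool))) (Y : Finset (Fin n)),
      (∀ T ∈ G, (vs T).card = T.card) → Codeg t d G → Gs ⊆ G → Y.card = kx10 t d →
      (∀ j ∈ Y, dg G j ≤ δ) → 2 ^ t * (kx10 t d : ℝ) * δ ≤ 1 → E0 ≤ 4 * (2 * t + 3) * lam →
      (∀ A ∈ Gs, (vs A ∩ Y).Nonempty → lam ≤ A.card ∧ (vs A ∩ Y).card ≤ t + 1) →
      mu (fun x => decide (∀ j ∈ Y, ∃ A ∈ Gs, j ∈ vs A ∧ SatT (outs Y A) x)) ≤
        C1 * ((2 ^ t * (kx10 t d : ℝ) * δ) ^ (t + 2) + (2 / 3) ^ E0))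
    (hcons : ∀ T ∈ G, (vs T).card = T.card) (hcodeg : Codeg t d G) {ℓ : ℕ}
    (h1 : 2 ^ t * (kx10 t d : ℝ) * del10 t ℓ ≤ 1)
    (h2 : 4 * ℓ ≤ 4 * (2 * t + 3) * (2 * q10 t ℓ))
    (h3 : C1 * ((2 ^ t * (kx10 t d : ℝ) * del10 t ℓ) ^ (t + 2) + (2 / 3) ^ (4 * ℓ)) ≤
      (1 / 2) ^ ℓ * (1 / (2 ^ 16 * a ^ 2 * 2 ^ Mx10 t d)))
    (Gs : Finset (Finset (Fin n × Bool))) (Y : Finset (Fin n)) (hGs : Gs ⊆ G)
    (hY : Y.card = kx10 t d) (hdg : ∀ j ∈ Y, dg G j ≤ del10 t ℓ)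
    (hsm : ∀ A ∈ Gs, (vs A ∩ Y).card ≤ t + 1) :
    mu (fun x => decide (∀ j ∈ Y, CovS Gs Y j x)) ≤
      (1 / 2) ^ ℓ * (1 / (2 ^ 16 * a ^ 2 * 2 ^ Mx10 t d)) := by
  refine le_trans (le_of_eq (mu_congr fun x => ?_))
    ((hC1 n (2 * q10 t ℓ) (4 * ℓ) (del10 t ℓ) G Gs Y hcons hcodeg hGs hY hdg h1 h2 ?_).trans h3)
  · rw [decide_eq_true_iff, decide_eq_true_iff]
    exact Iff.rfl
  · intro A hA hne
    refine ⟨?_, hsm A hA⟩
    obtain ⟨j, hj⟩ := hne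
    rw [mem_inter] at hj
    have h4 : wF A ≤ dg G j :=
      single_le_sum (f := fun A => wF A) (fun B _ => (wF_pos B).le)
        (mem_filter.2 ⟨hGs hA, hj.1⟩)
    have h5 := h4.trans (hdg j hj.2)
    unfold wF del10 at h5
    exact (pow_le_pow_iff_right_of_lt_one₀ (by norm_num) (by norm_num)).1 h5

/-- **Every needed term has a candidate.** -/
theorem cand10 {a r t d N D L1 ℓ0 J W C1 : ℕ} {τ : ℝ} {f g : (Fin n → Bool) → Bool}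
    {ω : Fin m → Fin n → Bool}
    (hC1 : ∀ (n lam E0 : ℕ) (δ : ℝ)
      (G Gs : Finset (Finset (Fin n × Bool))) (Y : Finset (Fin n)),
      (∀ T ∈ G, (vs T).card = T.card) → Codeg t d G → Gs ⊆ G → Y.card = kx10 t d →
      (∀ j ∈ Y, dg G j ≤ δ) → 2 ^ t * (kx10 t d : ℝ) * δ ≤ 1 → E0 ≤ 4 * (2 * t + 3) * lam →
      (∀ A ∈ Gs, (vs A ∩ Y).Nonempty → lam ≤ A.card ∧ (vs A ∩ Y).card ≤ t + 1) →
      mu (fun x => decide (∀ j ∈ Y, ∃ A ∈ Gs, j ∈ vs A ∧ SatT (outs Y A) x)) ≤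
        C1 * ((2 ^ t * (kx10 t d : ℝ) * δ) ^ (t + 2) + (2 / 3) ^ E0))
    (hm : 0 < m) (ha : 1 ≤ a) (hτ : 0 < τ)
    (hfg : dst f g ≤ τ) (hrep : Rep f ω 0 τ)
    (hN1 : (2 * n + 1) ^ kx10 t d ≤ N) (hN2 : (2 * n + 1) ^ Mx10 t d ≤ N)
    (hN3 : (2 * n + 1) ^ r ≤ N)
    (hW : 2 ^ ((t + Mx10 t d + 1) * J) ≤ W) (hD : D = 256 * a)
    (hDτ : 8 * D * (2 ^ kx10 t d * (2 * τ)) * 2 ^ Mx10 t d * (W * 2 ^ L1) ≤ 1 / (32 * a))
    (hpa : ∀ ℓ : ℕ, ℓ0 ≤ ℓ → t ≤ ℓ / Th10 t d ∧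
      kx10 t d + kx10 t d ^ (t + 1) * (d * (ℓ / Th10 t d)) + t + Mx10 t d ≤ ℓ ∧
      2 ^ t * (kx10 t d : ℝ) * del10 t ℓ ≤ 1 ∧ 4 * ℓ ≤ 4 * (2 * t + 3) * (2 * q10 t ℓ) ∧
      1 ≤ ℓ)
    (hps : ∀ ℓ : ℕ, ℓ0 ≤ ℓ → 2 ^ (Mx10 t d + 1) * del10 t ℓ *
      (2 ^ t * (ℓ : ℝ) + 2 ^ (ℓ / Th10 t d) * (d * (ℓ : ℝ) ^ (t + 1))) ≤ 1 / (64 * a))
    (hpn : ∀ ℓ : ℕ, ℓ0 ≤ ℓ →
      C1 * ((2 ^ t * (kx10 t d : ℝ) * del10 t ℓ) ^ (t + 2) + (2 / 3) ^ (4 * ℓ)) ≤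
        (1 / 2) ^ ℓ * (1 / (2 ^ 16 * a ^ 2 * 2 ^ Mx10 t d)))
    (α : List Lit) (G : Finset (Finset (Fin n × Bool)))
    (hαd : (α.map Prod.fst).Nodup) (hαn : ∀ l ∈ α, l.1 < n)
    (hαl : α.length ≤ (t + Mx10 t d + 1) * J)
    (h : Fam10 t d (t + Mx10 t d + 1) (1 / (2 * (16 * a : ℕ))) (vs (toF n α)) G)
    (hirr : Irr G) (hgG : ∀ x, SatT (toF n α) x → (g x = true ↔ ∃ B ∈ G, SatT B x))
    (T : Finset (Fin n × Bool)) (hT : T ∈ G) (hgap : T.card ≤ r ∨ ℓ0 ≤ T.card)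
    (hbig : ℓ0 ≤ T.card → ¬ Big G t (del10 t T.card) T) (hTL : T.card ≤ L1) :
    ∃ C ∈ cands10 N r (kx10 t d) (Mx10 t d) D n (smp f ω) α, ∀ x : Fin n → Bool,
      (sat (List.ofFn x) C = true ↔ sat (List.ofFn x) α = true ∧ SatT T x) := by
  classical
  have ha' : (1 : ℝ) ≤ a := by exact_mod_cast ha
  by_cases hTℓ : ℓ0 ≤ T.card
  · -- a long term
    have hκ : (1 : ℝ) / (2 * ((16 * a : ℕ) : ℝ)) = 1 / (32 * a) := by
      push_cast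
      ring
    have hwt : (1 : ℝ) ≤ wt α * W := by
      have h1 : (2 : ℝ) ^ ((t + Mx10 t d + 1) * J) ≤ W := by exact_mod_cast hW
      have h2 : (2 : ℝ) ^ α.length ≤ 2 ^ ((t + Mx10 t d + 1) * J) :=
        pow_le_pow_right₀ (by norm_num) hαl
      unfold wt
      calc (1 : ℝ) = (1 / 2) ^ α.length * 2 ^ α.length := by rw [← mul_pow]; norm_num
        _ ≤ (1 / 2) ^ α.length * W := mul_le_mul_of_nonneg_left (h2.trans h1) (by positivity)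
    have hwF : (1 : ℝ) ≤ wF T * 2 ^ L1 := by
      unfold wF
      calc (1 : ℝ) = (1 / 2) ^ T.card * 2 ^ T.card := by rw [← mul_pow]; norm_num
        _ ≤ (1 / 2) ^ T.card * 2 ^ L1 :=
          mul_le_mul_of_nonneg_left (pow_le_pow_right₀ (by norm_num) hTL) (by positivity)
    have hwt0 : 0 < wt α := by unfold wt; positivity
    have hwT := wF_pos T
    obtain ⟨p1, p2, p3, p4, p5⟩ := hpa _ hTℓ
    obtain ⟨y, hTy, hy⟩ := hirr T hT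
    have hDR : (D : ℝ) = 256 * a := by rw [hD]; push_cast; ring
    obtain ⟨C, hC, hCx⟩ := detect10 (N := N) (D := D) (k := kx10 t d) (M := Mx10 t d)
      (p := T.card / Th10 t d) (Θ := Th10 t d) (δ := del10 t T.card)
      (ν := 1 / (2 ^ 16 * a ^ 2 * 2 ^ Mx10 t d)) hm h hαd hαn hgG hT hTy hy
      (del10_pos t _).le (hbig hTℓ) p1 (by
        have hTh : 0 < Th10 t d := by unfold Th10; omega
        exact (Nat.lt_mul_div_succ T.card hTh).le) (by unfold Mx10; exact le_rfl) le_rfl p2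
      (by
        rw [hκ]
        refine (hps _ hTℓ).trans (le_of_eq ?_)
        field_simp
        norm_num) (by
        intro Gs Y hGs hY hdg hsm
        exact noise_at10 hC1 h.cons h.codeg p3 p4 (hpn _ hTℓ) Gs Y hGs hY hdg hsm)
      (by positivity) hτ hfg hrep (by
        rw [hκ, hDR, mul_one_div, le_div_iff₀ (by positivity)]
        linarith) (by
        rw [hκ, hDR]
        refine le_of_eq ?_
        field_simp
        norm_num) (by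
        rw [hκ]
        set q : ℝ := 8 * D * (2 ^ kx10 t d * (2 * τ)) * 2 ^ Mx10 t d with hq
        have hq0 : 0 ≤ q := by rw [hq]; positivity
        have h1 : (1 : ℝ) ≤ (wt α * W) * (wF T * 2 ^ L1) := by nlinarith
        calc q ≤ q * ((wt α * W) * (wF T * 2 ^ L1)) := le_mul_of_one_le_right hq0 h1
          _ = (wt α * wF T) * (q * (W * 2 ^ L1)) := by ring
          _ ≤ (wt α * wF T) * (1 / (32 * a)) :=
            mul_le_mul_of_nonneg_left hDτ (by positivity)) hN1 hN2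
    exact ⟨C, List.mem_append_right _ hC, hCx⟩
  · -- a short term
    have hTr' : T.card ≤ r := hgap.resolve_right hTℓ
    refine ⟨lits T ++ α, List.mem_append_left _ ?_, ?_⟩
    · unfold shortC
      refine List.mem_map.2 ⟨lits T, ?_, rfl⟩
      exact mem_seeds (by rw [length_allLits]; exact hN3) (by rw [length_lits]; exact hTr')
        (fun l hl => mem_allLits.2 (lits_lt hl))
    · intro x
      rw [sat_append, sat_lits, and_comm]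

end Pool.Agent.H.MP_cba12a_lc
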