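import Pool.Agent.H.MP_cba12a_lc.S10.Fam10

/-!
Counting terms that have a large part in a given set of variables.
-/

namespace Pool.Agent.H.MP_cba12a_lc

open Finset

variable {n : ℕ} {t d : ℕ} {G : Finset (Finset (Fin n × Bool))}

/-- A comparison of binomial coefficients. -/
theorem choose_ratio {u p c : ℕ} (hp : t + 1 ≤ p) (hu : u ≤ c * p) :
    u.choose (t + 1) ≤ (c * (t + 1)) ^ (t + 1) * p.choose (t + 1) := by
  have h1 : (t + 1).factorial * u.choose (t + 1) ≤ u ^ (t + 1) := by
    rw [← Nat.descFactorial_eq_factorial_mul_choose]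
    exact Nat.descFactorial_le_pow u (t + 1)
  have h2 : (p - t) ^ (t + 1) ≤ (t + 1).factorial * p.choose (t + 1) := by
    rw [← Nat.descFactorial_eq_factorial_mul_choose]
    have := Nat.pow_sub_le_descFactorial p (t + 1)
    rwa [Nat.add_sub_add_right] at this
  have h3 : p ≤ (t + 1) * (p - t) := by
    obtain ⟨m, rfl⟩ := Nat.exists_eq_add_of_le hp
    have e : t + 1 + m - t = m + 1 := by omega
    rw [e]
    nlinarith
  have h4 : u ≤ c * (t + 1) * (p - t) :=
    hu.trans (by rw [mul_assoc]; exact Nat.mul_le_mul_left c h3)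
  have h5 : (t + 1).factorial * u.choose (t + 1) ≤
      (t + 1).factorial * ((c * (t + 1)) ^ (t + 1) * p.choose (t + 1)) := by
    calc (t + 1).factorial * u.choose (t + 1) ≤ u ^ (t + 1) := h1
      _ ≤ (c * (t + 1) * (p - t)) ^ (t + 1) := Nat.pow_le_pow_left h4 _
      _ = (c * (t + 1)) ^ (t + 1) * (p - t) ^ (t + 1) := mul_pow _ _ _
      _ ≤ (c * (t + 1)) ^ (t + 1) * ((t + 1).factorial * p.choose (t + 1)) :=
          Nat.mul_le_mul_left _ h2
      _ = (t + 1).factorial * ((c * (t + 1)) ^ (t + 1) * p.choose (t + 1)) := by ring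
  exact Nat.le_of_mul_le_mul_left h5 (Nat.factorial_pos _)

/-- Double counting of the sets of `t + 1` variables in the terms. -/
theorem sum_choose_le (h : Codeg t d G) (U : Finset (Fin n)) :
    ∑ A ∈ G, (vs A ∩ U).card.choose (t + 1) ≤ d * U.card.choose (t + 1) := by
  classical
  have h1 : ∀ A ∈ G, (vs A ∩ U).card.choose (t + 1) =
      ∑ S ∈ powersetCard (t + 1) U, if S ⊆ vs A then 1 else 0 := by
    intro A _
    rw [← card_powersetCard, sum_ite, sum_const_zero, add_zero, sum_const, smul_eq_mul, mul_one]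
    congr 1
    ext S
    simp only [mem_powersetCard, mem_filter, subset_inter_iff]
    tauto
  rw [sum_congr rfl h1, sum_comm]
  have h2 : ∀ S ∈ powersetCard (t + 1) U, (∑ A ∈ G, if S ⊆ vs A then 1 else 0) ≤ d := by
    intro S hS
    rw [sum_ite, sum_const_zero, add_zero, sum_const, smul_eq_mul, mul_one]
    have := h S (mem_powersetCard.1 hS).2
    convert this
  refine (sum_le_sum h2).trans ?_
  rw [sum_const, smul_eq_mul, card_powersetCard, mul_comm]

/-- Few terms contain a large part of a set of variables. -/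
theorem count10 (h : Codeg t d G) (U : Finset (Fin n)) (c : ℕ) :
    (G.filter fun A => t + 1 ≤ (vs A ∩ U).card ∧ U.card ≤ c * (vs A ∩ U).card).card ≤
      d * (c * (t + 1)) ^ (t + 1) := by
  set F := G.filter fun A => t + 1 ≤ (vs A ∩ U).card ∧ U.card ≤ c * (vs A ∩ U).card with hF
  rcases F.eq_empty_or_nonempty with hemp | ⟨A0, hA0⟩
  · rw [hemp, card_empty]
    exact Nat.zero_le _
  have hpos : 0 < U.card.choose (t + 1) := by
    refine Nat.choose_pos ?_
    have := (mem_filter.1 hA0).2.1
    exact this.trans (card_le_card inter_subset_right)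
  have h1 : F.card * U.card.choose (t + 1) ≤
      d * (c * (t + 1)) ^ (t + 1) * U.card.choose (t + 1) := by
    calc F.card * U.card.choose (t + 1) = ∑ A ∈ F, U.card.choose (t + 1) := by
          rw [sum_const, smul_eq_mul]
      _ ≤ ∑ A ∈ F, (c * (t + 1)) ^ (t + 1) * (vs A ∩ U).card.choose (t + 1) := by
          refine sum_le_sum fun A hA => ?_
          have := (mem_filter.1 hA).2
          exact choose_ratio this.1 this.2
      _ = (c * (t + 1)) ^ (t + 1) * ∑ A ∈ F, (vs A ∩ U).card.choose (t + 1) := by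
          rw [mul_sum]
      _ ≤ (c * (t + 1)) ^ (t + 1) * (d * U.card.choose (t + 1)) :=
          Nat.mul_le_mul_left _ (sum_choose_le (h.sub (filter_subset _ _)) U)
      _ = d * (c * (t + 1)) ^ (t + 1) * U.card.choose (t + 1) := by ring
  exact Nat.le_of_mul_le_mul_right h1 hpos

/-- The number of terms with at least `t + 1` variables in a given set. -/
theorem count_pow10 (h : Codeg t d G) (U : Finset (Fin n)) :
    (G.filter fun A => t + 1 ≤ (vs A ∩ U).card).card ≤ d * U.card ^ (t + 1) := by
  calc (G.filter fun A => t + 1 ≤ (vs A ∩ U).card).card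
      = ∑ A ∈ G.filter (fun A => t + 1 ≤ (vs A ∩ U).card), 1 := by
        rw [sum_const, smul_eq_mul, mul_one]
    _ ≤ ∑ A ∈ G.filter (fun A => t + 1 ≤ (vs A ∩ U).card), (vs A ∩ U).card.choose (t + 1) := by
        refine sum_le_sum fun A hA => ?_
        exact Nat.choose_pos (mem_filter.1 hA).2
    _ ≤ d * U.card.choose (t + 1) := sum_choose_le (h.sub (filter_subset _ _)) U
    _ ≤ d * U.card ^ (t + 1) := Nat.mul_le_mul_left _ (Nat.choose_le_pow _ _)

end Pool.Agent.H.MP_cba12a_lc
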