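import Pool.Agent.H.MP_cba12a_lc.S10.DegV10
import Pool.Agent.H.MP_cba12a_lc.S9.Rich9

/-!
Terms with more than `t` variables of large degree.
-/

namespace Pool.Agent.H.MP_cba12a_lc

open Finset

variable {n : ℕ}

/-- more than `t` variables of `T` have degree larger than `δ` -/
def Big (G : Finset (Finset (Fin n × Bool))) (t : ℕ) (δ : ℝ) (T : Finset (Fin n × Bool)) :
    Prop :=
  t < ((vs T).filter fun j => δ < dg G j).card

variable {t d K0 : ℕ} {κ : ℝ} {X : Finset (Fin n)} {G : Finset (Finset (Fin n × Bool))}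

open Classical in
/-- The terms of a given length with many variables of large degree have small total weight. -/
theorem big_class_le (h : Codeg t d G) {δ : ℝ} (hδ : 0 < δ) (ℓ : ℕ) :
    ∑ T ∈ G.filter (fun T => T.card = ℓ ∧ Big G t δ T), wF T ≤
      d * ((∑ j ∈ vcl G ℓ, dg G j) / δ) ^ (t + 1) * (1 / 2) ^ ℓ := by
  set GB := G.filter (fun T => T.card = ℓ ∧ Big G t δ T) with hGB
  set V := (vcl G ℓ).filter (fun j => δ < dg G j) with hV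
  have hVcard : (V.card : ℝ) ≤ (∑ j ∈ vcl G ℓ, dg G j) / δ := by
    rw [le_div_iff₀ hδ]
    calc (V.card : ℝ) * δ = ∑ j ∈ V, δ := by rw [sum_const, nsmul_eq_mul]
      _ ≤ ∑ j ∈ V, dg G j := sum_le_sum fun j hj => (mem_filter.1 hj).2.le
      _ ≤ ∑ j ∈ vcl G ℓ, dg G j :=
          sum_le_sum_of_subset_of_nonneg (filter_subset _ _) fun j _ _ => dg_nonneg G j
  have hsub : GB ⊆ G.filter fun A => t + 1 ≤ (vs A ∩ V).card := by
    intro T hT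
    obtain ⟨h1, h2, h3⟩ := mem_filter.1 hT
    refine mem_filter.2 ⟨h1, ?_⟩
    have h4 : t < ((vs T).filter fun j => δ < dg G j).card := h3
    refine h4.trans_le (card_le_card ?_)
    intro j hj
    obtain ⟨hj1, hj2⟩ := mem_filter.1 hj
    refine mem_inter.2 ⟨hj1, mem_filter.2 ⟨?_, hj2⟩⟩
    exact mem_biUnion.2 ⟨T, mem_filter.2 ⟨h1, h2⟩, hj1⟩
  have hcard : (GB.card : ℝ) ≤ d * (V.card : ℝ) ^ (t + 1) := by
    have := (card_le_card hsub).trans (count_pow10 h V)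
    exact_mod_cast this
  have hsum : ∑ T ∈ GB, wF T = GB.card * (1 / 2) ^ ℓ := by
    rw [← nsmul_eq_mul, ← sum_const]
    refine sum_congr rfl fun T hT => ?_
    unfold wF
    rw [(mem_filter.1 hT).2.1]
  rw [hsum]
  refine mul_le_mul_of_nonneg_right (hcard.trans ?_) (by positivity)
  refine mul_le_mul_of_nonneg_left ?_ (Nat.cast_nonneg d)
  exact pow_le_pow_left₀ (Nat.cast_nonneg _) hVcard _

open Classical in
/-- The terms with many variables of large degree have small total weight. -/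
theorem big_total_le (h : Fam10 t d K0 κ X G) {B : ℝ} (hd : 1 ≤ d) (hB : 1 ≤ B) (hW : tW G ≤ B)
    {ℓ0 : ℕ} (hℓ0 : 1 ≤ ℓ0) (hℓB : ∀ ℓ : ℕ, ℓ0 ≤ ℓ → ℓ * B ≤ 2 ^ ℓ) {δ : ℕ → ℝ} {η : ℝ}
    (hη : 0 ≤ η) (hδ0 : ∀ ℓ : ℕ, ℓ0 ≤ ℓ → 0 < δ ℓ)
    (hδ : ∀ ℓ : ℕ, ℓ0 ≤ ℓ → d * (6 * d * (t + 1) * ℓ * B / δ ℓ) ^ (t + 1) * (1 / 2) ^ ℓ ≤
      η / (ℓ * (ℓ + 1))) :
    ∑ T ∈ G.filter (fun T => ℓ0 ≤ T.card ∧ Big G t (δ T.card) T), wF T ≤ η := by
  set GA := G.filter (fun T => ℓ0 ≤ T.card ∧ Big G t (δ T.card) T) with hGA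
  have hmap : ∀ T ∈ GA, T.card ∈ Ico ℓ0 (n + 1) := by
    intro T hT
    have h1 := mem_filter.1 hT
    rw [mem_Ico]
    exact ⟨h1.2.1, Nat.lt_succ_of_le (h.card_le h1.1)⟩
  rw [← sum_fiberwise_of_maps_to hmap]
  have hcl : ∀ ℓ ∈ Ico ℓ0 (n + 1), ∑ T ∈ GA.filter (fun T => T.card = ℓ), wF T ≤
      η * (1 / (ℓ * (ℓ + 1))) := by
    intro ℓ hℓ
    have hℓ1 := (mem_Ico.1 hℓ).1
    have hsub : GA.filter (fun T => T.card = ℓ) ⊆
        G.filter (fun T => T.card = ℓ ∧ Big G t (δ ℓ) T) := by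
      intro T hT
      obtain ⟨h1, h2⟩ := mem_filter.1 hT
      obtain ⟨h3, h4, h5⟩ := mem_filter.1 h1
      rw [h2] at h5
      exact mem_filter.2 ⟨h3, h2, h5⟩
    calc ∑ T ∈ GA.filter (fun T => T.card = ℓ), wF T
        ≤ ∑ T ∈ G.filter (fun T => T.card = ℓ ∧ Big G t (δ ℓ) T), wF T :=
          sum_le_sum_of_subset_of_nonneg hsub fun T _ _ => (wF_pos T).le
      _ ≤ d * ((∑ j ∈ vcl G ℓ, dg G j) / δ ℓ) ^ (t + 1) * (1 / 2) ^ ℓ :=
          big_class_le h.codeg (hδ0 ℓ hℓ1) ℓ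
      _ ≤ d * (6 * d * (t + 1) * ℓ * B / δ ℓ) ^ (t + 1) * (1 / 2) ^ ℓ := by
          have hδℓ := hδ0 ℓ hℓ1
          refine mul_le_mul_of_nonneg_right ?_ (by positivity)
          refine mul_le_mul_of_nonneg_left ?_ (Nat.cast_nonneg d)
          refine pow_le_pow_left₀ (div_nonneg (sum_nonneg fun j _ => dg_nonneg G j) hδℓ.le) ?_ _
          exact div_le_div_of_nonneg_right
            (dgcl_le10 h.codeg hd hB hW (hℓ0.trans hℓ1) (hℓB ℓ hℓ1)) hδℓ.le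
      _ ≤ η / (ℓ * (ℓ + 1)) := hδ ℓ hℓ1
      _ = η * (1 / (ℓ * (ℓ + 1))) := by rw [mul_one_div]
  calc ∑ ℓ ∈ Ico ℓ0 (n + 1), ∑ T ∈ GA.filter (fun T => T.card = ℓ), wF T
      ≤ ∑ ℓ ∈ Ico ℓ0 (n + 1), η * (1 / (ℓ * (ℓ + 1))) := sum_le_sum hcl
    _ = η * ∑ ℓ ∈ Ico ℓ0 (n + 1), (1 : ℝ) / (ℓ * (ℓ + 1)) := by rw [mul_sum]
    _ ≤ η * 1 := mul_le_mul_of_nonneg_left (sum_inv_le hℓ0) hη
    _ = η := mul_one η

end Pool.Agent.H.MP_cba12a_lc
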