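import Pool.Agent.H.MP_cba12a_lc.S10.Cnt10
import Pool.Agent.H.MP_cba12a_lc.S9.Cls9

/-!
Sum of the degrees over a set of variables.
-/

namespace Pool.Agent.H.MP_cba12a_lc

open Finset

variable {n : ℕ} {t d : ℕ} {G : Finset (Finset (Fin n × Bool))}

/-- The sum of the degrees over a set of variables is small if few terms share many variables. -/
theorem dgV_le10 (h : Codeg t d G) (V : Finset (Fin n)) {h' : ℕ} (hh : t ≤ 2 * h') :
    ∑ j ∈ V, dg G j ≤ 2 * h' * tW G + 2 * (d * (V.card : ℝ) ^ (t + 1)) * (1 / 2) ^ h' := by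
  classical
  have hex : ∑ j ∈ V, dg G j = ∑ T ∈ G, ((vs T ∩ V).card : ℝ) * wF T := by
    unfold dg
    simp only [sum_filter]
    rw [sum_comm]
    refine sum_congr rfl fun T _ => ?_
    rw [← sum_filter, sum_const, nsmul_eq_mul, filter_mem_eq_inter, inter_comm]
  rw [hex, ← sum_filter_add_sum_filter_not G (fun T => (vs T ∩ V).card ≤ 2 * h')]
  refine add_le_add ?_ ?_
  · calc ∑ T ∈ G.filter (fun T => (vs T ∩ V).card ≤ 2 * h'), ((vs T ∩ V).card : ℝ) * wF T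
        ≤ ∑ T ∈ G.filter (fun T => (vs T ∩ V).card ≤ 2 * h'), (2 * h' : ℝ) * wF T := by
          refine sum_le_sum fun T hT => ?_
          rw [mem_filter] at hT
          refine mul_le_mul_of_nonneg_right ?_ (wF_pos T).le
          exact_mod_cast hT.2
      _ ≤ ∑ T ∈ G, (2 * h' : ℝ) * wF T :=
          sum_le_sum_of_subset_of_nonneg (filter_subset _ _) fun T _ _ =>
            mul_nonneg (by positivity) (wF_pos T).le
      _ = 2 * h' * tW G := by rw [← mul_sum]; rfl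
  · have hterm : ∀ T ∈ G.filter (fun T => ¬ (vs T ∩ V).card ≤ 2 * h'),
        ((vs T ∩ V).card : ℝ) * wF T ≤ 2 * (1 / 2) ^ h' := by
      intro T hT
      rw [mem_filter, not_le] at hT
      refine le_trans ?_ (mul_half_pow_le hT.2.le)
      refine mul_le_mul_of_nonneg_left ?_ (Nat.cast_nonneg _)
      unfold wF
      exact pow_le_pow_of_le_one (by norm_num) (by norm_num)
        ((card_le_card inter_subset_left).trans (vs_card_le T))
    have hcard : (G.filter (fun T => ¬ (vs T ∩ V).card ≤ 2 * h')).card ≤ d * V.card ^ (t + 1) := by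
      refine (card_le_card ?_).trans (count_pow10 h V)
      intro T hT
      rw [mem_filter] at hT ⊢
      exact ⟨hT.1, by omega⟩
    calc ∑ T ∈ G.filter (fun T => ¬ (vs T ∩ V).card ≤ 2 * h'), ((vs T ∩ V).card : ℝ) * wF T
        ≤ ∑ T ∈ G.filter (fun T => ¬ (vs T ∩ V).card ≤ 2 * h'), (2 * (1 / 2) ^ h' : ℝ) :=
          sum_le_sum hterm
      _ = ((G.filter (fun T => ¬ (vs T ∩ V).card ≤ 2 * h')).card : ℝ) * (2 * (1 / 2) ^ h') := by
          rw [sum_const, nsmul_eq_mul]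
      _ ≤ (d * (V.card : ℝ) ^ (t + 1)) * (2 * (1 / 2) ^ h') :=
          mul_le_mul_of_nonneg_right (by exact_mod_cast hcard) (by positivity)
      _ = 2 * (d * (V.card : ℝ) ^ (t + 1)) * (1 / 2) ^ h' := by ring

/-- The sum of the degrees of the variables of the terms of length `ℓ` is small. -/
theorem dgcl_le10 (h : Codeg t d G) {ℓ : ℕ} {B : ℝ} (hd : 1 ≤ d)
    (hB : 1 ≤ B) (hW : tW G ≤ B) (hℓ : 1 ≤ ℓ) (hℓB : ℓ * B ≤ 2 ^ ℓ) :
    ∑ j ∈ vcl G ℓ, dg G j ≤ 6 * d * (t + 1) * ℓ * B := by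
  have h1 := dgV_le10 h (vcl G ℓ) (h' := 2 * (t + 1) * ℓ) (by nlinarith)
  have hℓ1 : (1 : ℝ) ≤ ℓ := by exact_mod_cast hℓ
  have hd1 : (1 : ℝ) ≤ d := by exact_mod_cast hd
  have hB0 : 0 ≤ B := by linarith
  have hV : ((vcl G ℓ).card : ℝ) ≤ ℓ * 2 ^ ℓ * B :=
    (vcl_card_le ℓ).trans (mul_le_mul_of_nonneg_left hW (by positivity))
  have h2 : ((vcl G ℓ).card : ℝ) ^ (t + 1) * (1 / 2) ^ (2 * (t + 1) * ℓ) ≤ 1 := by
    have e : ((1 : ℝ) / 2) ^ (2 * (t + 1) * ℓ) = ((1 / 2) ^ (2 * ℓ)) ^ (t + 1) := by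
      rw [← pow_mul]
      congr 1
      ring
    rw [e, ← mul_pow]
    refine pow_le_one₀ (by positivity) ?_
    have h4 : (2 : ℝ) ^ ℓ * (1 / 2) ^ ℓ = 1 := by
      rw [← mul_pow]; norm_num
    calc ((vcl G ℓ).card : ℝ) * (1 / 2) ^ (2 * ℓ)
        ≤ ℓ * 2 ^ ℓ * B * (1 / 2) ^ (2 * ℓ) := mul_le_mul_of_nonneg_right hV (by positivity)
      _ = ℓ * B * (1 / 2) ^ ℓ * (2 ^ ℓ * (1 / 2) ^ ℓ) := by rw [two_mul, pow_add]; ring
      _ = ℓ * B * (1 / 2) ^ ℓ := by rw [h4, mul_one]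
      _ ≤ 2 ^ ℓ * (1 / 2) ^ ℓ := mul_le_mul_of_nonneg_right hℓB (by positivity)
      _ = 1 := h4
  have h3 : 2 * ((2 * (t + 1) * ℓ : ℕ) : ℝ) * tW G ≤ 4 * ((t + 1) * ℓ * B) := by
    push_cast
    have : (0 : ℝ) ≤ 4 * (t + 1) * ℓ := by positivity
    nlinarith [mul_le_mul_of_nonneg_left hW this]
  have h5 : (1 : ℝ) ≤ (t + 1) * ℓ * B := by
    have ht : (1 : ℝ) ≤ (t : ℝ) + 1 := by
      have : (0 : ℝ) ≤ t := Nat.cast_nonneg t
      linarith
    exact one_le_mul_of_one_le_of_one_le (one_le_mul_of_one_le_of_one_le ht hℓ1) hB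
  set M : ℝ := (t + 1) * ℓ * B with hM
  have h6 : M ≤ d * M := by nlinarith
  have h7 : (d : ℝ) ≤ d * M := by nlinarith
  calc ∑ j ∈ vcl G ℓ, dg G j
      ≤ 2 * ((2 * (t + 1) * ℓ : ℕ) : ℝ) * tW G +
        2 * (d * ((vcl G ℓ).card : ℝ) ^ (t + 1)) * (1 / 2) ^ (2 * (t + 1) * ℓ) := h1
    _ ≤ 4 * M + 2 * d * 1 := by
        have e : 2 * (d * ((vcl G ℓ).card : ℝ) ^ (t + 1)) * (1 / 2) ^ (2 * (t + 1) * ℓ) =
            2 * d * (((vcl G ℓ).card : ℝ) ^ (t + 1) * (1 / 2) ^ (2 * (t + 1) * ℓ)) := by ring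
        rw [e]
        have := mul_le_mul_of_nonneg_left h2 (by positivity : (0 : ℝ) ≤ 2 * d)
        linarith
    _ ≤ 6 * (d * M) := by linarith
    _ = 6 * d * (t + 1) * ℓ * B := by rw [hM]; ring

end Pool.Agent.H.MP_cba12a_lc
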