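import Pool.Agent.H.MP_cba12a_lc.S10.Cnt10

/-!
Lists of terms, ordered by length, in which few terms are new relative to the union of the
previous ones: their length is bounded.
-/

namespace Pool.Agent.H.MP_cba12a_lc

open Finset

variable {n : ℕ}

/-- the variables of `U` and of the terms of the list -/
def unL : List (Finset (Fin n × Bool)) → Finset (Fin n) → Finset (Fin n)
  | [], U => U
  | A :: l, U => unL l (U ∪ vs A)

/-- number of terms of the list with at most `t` variables in the union of `U` and the previous
terms -/
def phiL (t : ℕ) : List (Finset (Fin n × Bool)) → Finset (Fin n) → ℕ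
  | [], _ => 0
  | A :: l, U => (if (vs A ∩ U).card ≤ t then 1 else 0) + phiL t l (U ∪ vs A)

/-- number of variables that the other terms of the list add to the union -/
def epsL (t : ℕ) : List (Finset (Fin n × Bool)) → Finset (Fin n) → ℕ
  | [], _ => 0
  | A :: l, U => (if (vs A ∩ U).card ≤ t then 0 else (vs A \ U).card) + epsL t l (U ∪ vs A)

/-- The union contains the starting set. -/
theorem subset_unL (l : List (Finset (Fin n × Bool))) : ∀ U : Finset (Fin n), U ⊆ unL l U := by
  induction l with
  | nil => intro U; exact subset_rfl
  | cons A l ih => intro U; exact subset_union_left.trans (ih _)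

/-- The union contains the variables of each term of the list. -/
theorem mem_unL {l : List (Finset (Fin n × Bool))} {A : Finset (Fin n × Bool)} (hA : A ∈ l) :
    ∀ U : Finset (Fin n), vs A ⊆ unL l U := by
  induction l with
  | nil => exact absurd hA List.not_mem_nil
  | cons B l ih =>
    intro U
    rcases List.mem_cons.mp hA with rfl | h
    · exact subset_union_right.trans (subset_unL l _)
    · exact ih h _

/-- Without terms of the first kind the union grows by the variables counted in `epsL`. -/
theorem card_unL {t : ℕ} (l : List (Finset (Fin n × Bool))) : ∀ U : Finset (Fin n),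
    phiL t l U = 0 → (unL l U).card ≤ U.card + epsL t l U := by
  induction l with
  | nil => intro U _; exact Nat.le_add_right _ _
  | cons A l ih =>
    intro U h
    by_cases c : (vs A ∩ U).card ≤ t
    · exfalso
      simp only [phiL, if_pos c] at h
      omega
    · simp only [phiL, if_neg c, zero_add] at h
      have h1 := ih _ h
      have h2 : (U ∪ vs A).card = U.card + (vs A \ U).card := by
        rw [← union_sdiff_self_eq_union, card_union_of_disjoint disjoint_sdiff]
      simp only [unL, epsL, if_neg c]
      omega

/-- Without terms of the first kind all terms have at least `t + 1` variables. -/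
theorem long_of_phiL {t : ℕ} {l : List (Finset (Fin n × Bool))} : ∀ U : Finset (Fin n),
    phiL t l U = 0 → ∀ A ∈ l, t + 1 ≤ (vs A).card := by
  induction l with
  | nil => intro U _ A hA; exact absurd hA List.not_mem_nil
  | cons B l ih =>
    intro U h A hA
    by_cases c : (vs B ∩ U).card ≤ t
    · exfalso
      simp only [phiL, if_pos c] at h
      omega
    · simp only [phiL, if_neg c, zero_add] at h
      rcases List.mem_cons.mp hA with rfl | h1
      · have := card_le_card (inter_subset_left (s₁ := vs A) (s₂ := U))
        omega
      · exact ih _ h A h1

/-- Splitting a list at its first term of the first kind. -/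
theorem split_phiL {t : ℕ} (l : List (Finset (Fin n × Bool))) : ∀ U : Finset (Fin n),
    phiL t l U = 0 ∨ ∃ l1 B l2, l = l1 ++ B :: l2 ∧ phiL t l1 U = 0 ∧
      phiL t l U = 1 + phiL t l2 (unL l1 U ∪ vs B) ∧
      epsL t l U = epsL t l1 U + epsL t l2 (unL l1 U ∪ vs B) := by
  induction l with
  | nil => intro U; exact Or.inl rfl
  | cons A l ih =>
    intro U
    by_cases c : (vs A ∩ U).card ≤ t
    · right
      refine ⟨[], A, l, rfl, rfl, ?_, ?_⟩
      · simp only [phiL, unL, if_pos c]
      · simp only [epsL, unL, if_pos c]
    · rcases ih (U ∪ vs A) with h | ⟨l1, B, l2, rfl, h1, h2, h3⟩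
      · left
        simp only [phiL, if_neg c, h]
      · right
        refine ⟨A :: l1, B, l2, rfl, ?_, ?_, ?_⟩
        · simp only [phiL, if_neg c, h1]
        · simp only [phiL, unL, if_neg c, zero_add, List.cons_append]
          exact h2
        · simp only [epsL, unL, if_neg c, List.cons_append]
          rw [h3]
          omega

end Pool.Agent.H.MP_cba12a_lc
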