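import Pool.Agent.H.MP_cba12a_lc.S10.Ext10
import Pool.Agent.H.MP_cba12a_lc.S10.Seg10

/-!
Density of the event that a list of terms holds outside a set of variables.
-/

namespace Pool.Agent.H.MP_cba12a_lc

open Finset

variable {n : ℕ}

/-- there are `m` further terms of `Gs` that hold outside `Y`, such that in the end there are
`t + 2` terms of the first kind, or the terms of the second kind add `E0` variables -/
def Ev10 (t c E0 : ℕ) (Gs : Finset (Finset (Fin n × Bool))) (Y : Finset (Fin n)) :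
    ℕ → Finset (Fin n) → ℕ → ℕ → (Fin n → Bool) → Prop
  | 0, _, φ, ε, _ => t + 2 ≤ φ ∨ E0 ≤ ε
  | m + 1, U, φ, ε, x => ∃ A ∈ Gs, SatT (outs Y A) x ∧
      (((vs A ∩ U).card ≤ t ∧ Ev10 t c E0 Gs Y m (U ∪ vs A) (φ + 1) ε x) ∨
      (t < (vs A ∩ U).card ∧ U.card ≤ c * A.card ∧
        Ev10 t c E0 Gs Y m (U ∪ vs A) φ (ε + (vs A \ U).card) x))

theorem ev10_pow_vs {U Y : Finset (Fin n)} {Q : Finset (Fin n × Bool)} (h : U \ Y ⊆ vs Q) :
    wF Q ≤ 2 ^ Y.card * (1 / 2) ^ U.card := by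
  have h1 : (U \ Y).card ≤ Q.card := (card_le_card h).trans (vs_card_le Q)
  have h2 : U.card ≤ (U \ Y).card + Y.card := card_le_card_sdiff_add_card
  have h3 : U.card ≤ Y.card + Q.card := by omega
  have h4 : ((1 / 2 : ℝ)) ^ (Y.card + Q.card) ≤ (1 / 2) ^ U.card :=
    pow_le_pow_of_le_one (by norm_num) (by norm_num) h3
  have h5 : (2 : ℝ) ^ Y.card * (1 / 2) ^ (Y.card + Q.card) = (1 / 2) ^ Q.card := by
    rw [pow_add, ← mul_assoc, ← mul_pow]
    norm_num
  unfold wF
  calc (1 / 2 : ℝ) ^ Q.card = (2 : ℝ) ^ Y.card * (1 / 2) ^ (Y.card + Q.card) := h5.symm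
    _ ≤ 2 ^ Y.card * (1 / 2) ^ U.card := mul_le_mul_of_nonneg_left h4 (by positivity)

theorem ev10_union {U : Finset (Fin n)} {A : Finset (Fin n × Bool)} :
    (1 / 2 : ℝ) ^ (U ∪ vs A).card = (1 / 2) ^ U.card * (1 / 2) ^ (vs A \ U).card := by
  rw [← pow_add]
  congr 1
  rw [← card_union_of_disjoint disjoint_sdiff, union_sdiff_self_eq_union]

theorem ev10_first {t : ℕ} {U : Finset (Fin n)} {A : Finset (Fin n × Bool)}
    (hA : (vs A).card = A.card) (h : (vs A ∩ U).card ≤ t) :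
    (1 / 2 : ℝ) ^ (vs A \ U).card ≤ 2 ^ t * wF A := by
  have h1 : (vs A \ U).card + (vs A ∩ U).card = (vs A).card := card_sdiff_add_card_inter _ _
  have h2 : A.card ≤ t + (vs A \ U).card := by omega
  have h4 : ((1 / 2 : ℝ)) ^ (t + (vs A \ U).card) ≤ (1 / 2) ^ A.card :=
    pow_le_pow_of_le_one (by norm_num) (by norm_num) h2
  have h5 : (2 : ℝ) ^ t * (1 / 2) ^ (t + (vs A \ U).card) = (1 / 2) ^ (vs A \ U).card := by
    rw [pow_add, ← mul_assoc, ← mul_pow]
    norm_num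
  unfold wF
  calc (1 / 2 : ℝ) ^ (vs A \ U).card = (2 : ℝ) ^ t * (1 / 2) ^ (t + (vs A \ U).card) := h5.symm
    _ ≤ 2 ^ t * (1 / 2) ^ A.card := mul_le_mul_of_nonneg_left h4 (by positivity)

theorem ev10_second (s : ℝ) (hs : 0 ≤ s) (E0 ε e : ℕ) :
    (1 / 2 : ℝ) ^ e * (s + (2 / 3) ^ (E0 - (ε + e))) ≤
      (3 / 4) ^ e * (s + (2 / 3) ^ (E0 - ε)) := by
  have h1 : (1 / 2 : ℝ) ^ e = (3 / 4) ^ e * (2 / 3) ^ e := by
    rw [← mul_pow]; norm_num
  have h2 : (2 / 3 : ℝ) ^ e ≤ 1 := pow_le_one₀ (by norm_num) (by norm_num)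
  have h3 : (2 / 3 : ℝ) ^ e * (2 / 3) ^ (E0 - (ε + e)) ≤ (2 / 3) ^ (E0 - ε) := by
    rw [← pow_add]
    exact pow_le_pow_of_le_one (by norm_num) (by norm_num) (by omega)
  have h4 : (2 / 3 : ℝ) ^ e * s ≤ s := by nlinarith
  rw [h1, mul_assoc]
  refine mul_le_mul_of_nonneg_left ?_ (by positivity)
  rw [mul_add]
  linarith

open Classical in
/-- density of the event of a list of terms -/
theorem ev10_le {t c E0 C : ℕ} {Gs : Finset (Finset (Fin n × Bool))} {Y : Finset (Fin n)}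
    (hcons : ∀ A ∈ Gs, (vs A).card = A.card) (hC : 1 ≤ C)
    (hext : ∀ U : Finset (Fin n), ∑ A ∈ Gs.filter (fun A => t < (vs A ∩ U).card ∧
      U.card ≤ c * A.card), (3 / 4 : ℝ) ^ (vs A \ U).card ≤ C)
    {a : ℝ} (ha0 : 0 ≤ a) (ha1 : a ≤ 1) (ha : ∑ A ∈ Gs, 2 ^ t * wF A ≤ a) (m : ℕ) :
    ∀ (U : Finset (Fin n)) (Q : Finset (Fin n × Bool)) (φ ε : ℕ), U \ Y ⊆ vs Q →
    mu (fun x => decide (SatT Q x ∧ Ev10 t c E0 Gs Y m U φ ε x)) ≤
      2 ^ Y.card * (1 / 2) ^ U.card * (2 * C) ^ m *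
        (a ^ (t + 2 - φ) + (2 / 3) ^ (E0 - ε)) := by
  induction m with
  | zero =>
    intro U Q φ ε hQ
    have hC0 : (0 : ℝ) ≤ 2 ^ Y.card * (1 / 2) ^ U.card := by positivity
    rw [pow_zero, mul_one]
    by_cases hcase : t + 2 ≤ φ ∨ E0 ≤ ε
    · have h1 : mu (fun x => decide (SatT Q x ∧ Ev10 t c E0 Gs Y 0 U φ ε x)) ≤ wF Q := by
        refine le_trans (mu_mono fun x hx => ?_) (mu_sat1_le Q)
        simp only [decide_eq_true_eq] at hx ⊢
        exact hx.1
      have h2 : (1 : ℝ) ≤ a ^ (t + 2 - φ) + (2 / 3) ^ (E0 - ε) := by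
        rcases hcase with h | h
        · rw [Nat.sub_eq_zero_of_le h, pow_zero]
          have : (0 : ℝ) ≤ (2 / 3) ^ (E0 - ε) := by positivity
          linarith
        · rw [Nat.sub_eq_zero_of_le h, pow_zero]
          have : (0 : ℝ) ≤ a ^ (t + 2 - φ) := pow_nonneg ha0 _
          linarith
      refine h1.trans ((ev10_pow_vs hQ).trans ?_)
      exact le_mul_of_one_le_right hC0 h2
    · have h1 : mu (fun x => decide (SatT Q x ∧ Ev10 t c E0 Gs Y 0 U φ ε x)) ≤ 0 := by
        refine le_of_le_of_eq (mu_finset_le (∅ : Finset ℕ) _ (fun _ _ => true) fun x hx => ?_)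
          Finset.sum_empty
        simp only [decide_eq_true_eq] at hx
        exact absurd hx.2 hcase
      refine h1.trans ?_
      have : (0 : ℝ) ≤ a ^ (t + 2 - φ) := pow_nonneg ha0 _
      positivity
  | succ m ih =>
    intro U Q φ ε hQ
    set K : ℝ := 2 ^ Y.card * (1 / 2) ^ U.card * (2 * C) ^ m with hK
    set S : ℝ := a ^ (t + 2 - φ) + (2 / 3) ^ (E0 - ε) with hS
    have hK0 : 0 ≤ K := by positivity
    have hak : ∀ k : ℕ, 0 ≤ a ^ k := fun k => pow_nonneg ha0 k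
    have hS0 : 0 ≤ S := by
      have := hak (t + 2 - φ)
      positivity
    let F1 : Finset (Fin n × Bool) → (Fin n → Bool) → Bool := fun A x =>
      decide ((vs A ∩ U).card ≤ t ∧ SatT (Q ∪ outs Y A) x ∧
        Ev10 t c E0 Gs Y m (U ∪ vs A) (φ + 1) ε x)
    let F2 : Finset (Fin n × Bool) → (Fin n → Bool) → Bool := fun A x =>
      decide ((t < (vs A ∩ U).card ∧ U.card ≤ c * A.card) ∧ SatT (Q ∪ outs Y A) x ∧
        Ev10 t c E0 Gs Y m (U ∪ vs A) φ (ε + (vs A \ U).card) x)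
    have hsub : ∀ A, (U ∪ vs A) \ Y ⊆ vs (Q ∪ outs Y A) := by
      intro A i hi
      have e : vs (Q ∪ outs Y A) = vs Q ∪ (vs A \ Y) := by
        rw [← vs_outs]
        unfold vs
        rw [image_union]
      rw [e]
      rw [mem_sdiff, mem_union] at hi
      rw [mem_union]
      rcases hi with ⟨hi | hi, hY⟩
      · exact Or.inl (hQ (mem_sdiff.2 ⟨hi, hY⟩))
      · exact Or.inr (mem_sdiff.2 ⟨hi, hY⟩)
    have hsat : ∀ A x, SatT Q x → SatT (outs Y A) x → SatT (Q ∪ outs Y A) x := by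
      intro A x h1 h2 l hl
      rcases mem_union.1 hl with hl | hl
      · exact h1 l hl
      · exact h2 l hl
    have hU : mu (fun x => decide (SatT Q x ∧ Ev10 t c E0 Gs Y (m + 1) U φ ε x)) ≤
        ∑ A ∈ Gs, (mu (F1 A) + mu (F2 A)) := by
      refine (mu_finset_le Gs _ (fun A x => F1 A x || F2 A x) fun x hx => ?_).trans
        (sum_le_sum fun A _ => mu_le_add fun x hx => ?_)
      · simp only [decide_eq_true_eq] at hx
        obtain ⟨hxQ, A, hA, hxA, h | h⟩ := hx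
        · refine ⟨A, hA, ?_⟩
          rw [Bool.or_eq_true]
          left
          simp only [F1, decide_eq_true_eq]
          exact ⟨h.1, hsat A x hxQ hxA, h.2⟩
        · refine ⟨A, hA, ?_⟩
          rw [Bool.or_eq_true]
          right
          simp only [F2, decide_eq_true_eq]
          exact ⟨⟨h.1, h.2.1⟩, hsat A x hxQ hxA, h.2.2⟩
      · rw [Bool.or_eq_true] at hx
        exact hx
    have hzero : ∀ E : (Fin n → Bool) → Bool, (∀ x, E x = false) → mu E ≤ 0 := by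
      intro E hE
      refine le_of_le_of_eq (mu_finset_le (∅ : Finset ℕ) E (fun _ _ => true) fun x hx => ?_)
        Finset.sum_empty
      rw [hE x] at hx
      exact absurd hx (by decide)
    have hF1 : ∀ A ∈ Gs, mu (F1 A) ≤
        K * (a ^ (t + 2 - (φ + 1)) + (2 / 3) ^ (E0 - ε)) * (2 ^ t * wF A) := by
      intro A hA
      have hw := wF_pos A
      by_cases hc : (vs A ∩ U).card ≤ t
      · have h1 : mu (F1 A) ≤ 2 ^ Y.card * (1 / 2) ^ (U ∪ vs A).card * (2 * C) ^ m *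
            (a ^ (t + 2 - (φ + 1)) + (2 / 3) ^ (E0 - ε)) := by
          refine le_trans (mu_mono fun x hx => ?_) (ih (U ∪ vs A) (Q ∪ outs Y A) (φ + 1) ε (hsub A))
          simp only [F1, decide_eq_true_eq] at hx ⊢
          exact hx.2
        have hnn : 0 ≤ a ^ (t + 2 - (φ + 1)) + (2 / 3 : ℝ) ^ (E0 - ε) := by
          have := hak (t + 2 - (φ + 1))
          positivity
        have h2 := ev10_first (hcons A hA) hc
        refine h1.trans ?_
        rw [ev10_union]
        calc 2 ^ Y.card * ((1 / 2 : ℝ) ^ U.card * (1 / 2) ^ (vs A \ U).card) * (2 * C) ^ m *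
              (a ^ (t + 2 - (φ + 1)) + (2 / 3) ^ (E0 - ε))
            = K * (a ^ (t + 2 - (φ + 1)) + (2 / 3) ^ (E0 - ε)) * (1 / 2) ^ (vs A \ U).card := by
              rw [hK]; ring
          _ ≤ _ := mul_le_mul_of_nonneg_left h2 (mul_nonneg hK0 hnn)
      · refine (hzero (F1 A) fun x => ?_).trans ?_
        · simp only [F1, decide_eq_false_iff_not]
          exact fun h => hc h.1
        · have := hak (t + 2 - (φ + 1))
          positivity
    have hF2 : ∀ A ∈ Gs, mu (F2 A) ≤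
        if t < (vs A ∩ U).card ∧ U.card ≤ c * A.card then
          K * S * (3 / 4) ^ (vs A \ U).card else 0 := by
      intro A hA
      split_ifs with hc
      · have h1 : mu (F2 A) ≤ 2 ^ Y.card * (1 / 2) ^ (U ∪ vs A).card * (2 * C) ^ m *
            (a ^ (t + 2 - φ) + (2 / 3) ^ (E0 - (ε + (vs A \ U).card))) := by
          refine le_trans (mu_mono fun x hx => ?_)
            (ih (U ∪ vs A) (Q ∪ outs Y A) φ (ε + (vs A \ U).card) (hsub A))
          simp only [F2, decide_eq_true_eq] at hx ⊢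
          exact hx.2
        have h2 := ev10_second (a ^ (t + 2 - φ)) (hak _) E0 ε (vs A \ U).card
        refine h1.trans ?_
        rw [ev10_union]
        calc 2 ^ Y.card * ((1 / 2 : ℝ) ^ U.card * (1 / 2) ^ (vs A \ U).card) * (2 * C) ^ m *
              (a ^ (t + 2 - φ) + (2 / 3) ^ (E0 - (ε + (vs A \ U).card)))
            = K * ((1 / 2) ^ (vs A \ U).card *
                (a ^ (t + 2 - φ) + (2 / 3) ^ (E0 - (ε + (vs A \ U).card)))) := by
              rw [hK]; ring
          _ ≤ K * ((3 / 4) ^ (vs A \ U).card * S) := mul_le_mul_of_nonneg_left h2 hK0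
          _ = K * S * (3 / 4) ^ (vs A \ U).card := by ring
      · refine hzero (F2 A) fun x => ?_
        simp only [F2, decide_eq_false_iff_not]
        exact fun h => hc h.1
    have hsum1 : ∑ A ∈ Gs, mu (F1 A) ≤ K * S := by
      refine (sum_le_sum hF1).trans ?_
      rw [← mul_sum]
      have hnn : 0 ≤ a ^ (t + 2 - (φ + 1)) + (2 / 3 : ℝ) ^ (E0 - ε) := by
        have := hak (t + 2 - (φ + 1))
        positivity
      calc K * (a ^ (t + 2 - (φ + 1)) + (2 / 3) ^ (E0 - ε)) * ∑ A ∈ Gs, 2 ^ t * wF A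
          ≤ K * (a ^ (t + 2 - (φ + 1)) + (2 / 3) ^ (E0 - ε)) * a :=
            mul_le_mul_of_nonneg_left ha (mul_nonneg hK0 hnn)
        _ = K * (a ^ (t + 2 - (φ + 1) + 1) + a * (2 / 3) ^ (E0 - ε)) := by rw [pow_succ]; ring
        _ ≤ K * S := by
            refine mul_le_mul_of_nonneg_left ?_ hK0
            rw [hS]
            refine add_le_add ?_ ?_
            · exact pow_le_pow_of_le_one ha0 ha1 (by omega)
            · exact mul_le_of_le_one_left (by positivity) ha1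
    have hsum2 : ∑ A ∈ Gs, mu (F2 A) ≤ K * S * C := by
      refine (sum_le_sum hF2).trans ?_
      rw [← sum_filter, ← mul_sum]
      refine mul_le_mul_of_nonneg_left ?_ (mul_nonneg hK0 hS0)
      exact hext U
    refine hU.trans ?_
    rw [sum_add_distrib]
    have hC1 : (1 : ℝ) ≤ C := by exact_mod_cast hC
    calc ∑ A ∈ Gs, mu (F1 A) + ∑ A ∈ Gs, mu (F2 A) ≤ K * S + K * S * C := add_le_add hsum1 hsum2
      _ ≤ K * S * (2 * C) := by
          have : 0 ≤ K * S := mul_nonneg hK0 hS0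
          nlinarith
      _ = 2 ^ Y.card * (1 / 2) ^ U.card * (2 * C) ^ (m + 1) * S := by
          rw [hK, pow_succ]; ring

end Pool.Agent.H.MP_cba12a_lc
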