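import Pool.Agent.H.MP_cba12a_lc.S10.Ev10

/-!
From an ordered list of terms to the event of file Ev10.
-/

namespace Pool.Agent.H.MP_cba12a_lc

open Finset

variable {n : ℕ}

/-- A list of terms ordered by size with enough new terms or new variables gives the event. -/
theorem ev10_of_list {t c E0 : ℕ} {Gs : Finset (Finset (Fin n × Bool))} {Y : Finset (Fin n)}
    {x : Fin n → Bool} : ∀ (l : List (Finset (Fin n × Bool))) (U : Finset (Fin n)) (φ ε i : ℕ),
    (∀ A ∈ l, A ∈ Gs ∧ SatT (outs Y A) x ∧ U.card ≤ i * A.card) →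
    l.Pairwise (fun A B => A.card ≤ B.card) → i + l.length ≤ c →
    (t + 2 ≤ φ + phiL t l U ∨ E0 ≤ ε + epsL t l U) → Ev10 t c E0 Gs Y l.length U φ ε x := by
  intro l
  induction l with
  | nil =>
    intro U φ ε i _ _ _ h
    simpa [Ev10, phiL, epsL] using h
  | cons A l ih =>
    intro U φ ε i hA hp hc h
    obtain ⟨hA1, hA2, hA3⟩ := hA A List.mem_cons_self
    rw [List.pairwise_cons] at hp
    obtain ⟨hp1, hp2⟩ := hp
    rw [List.length_cons] at hc
    have hrec : ∀ φ' ε' : ℕ, (t + 2 ≤ φ' + phiL t l (U ∪ vs A) ∨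
        E0 ≤ ε' + epsL t l (U ∪ vs A)) → Ev10 t c E0 Gs Y l.length (U ∪ vs A) φ' ε' x := by
      intro φ' ε' h'
      refine ih (U ∪ vs A) φ' ε' (i + 1) (fun B hB => ?_) hp2 (by omega) h'
      obtain ⟨hB1, hB2, hB3⟩ := hA B (List.mem_cons_of_mem A hB)
      refine ⟨hB1, hB2, ?_⟩
      calc (U ∪ vs A).card ≤ U.card + (vs A).card := card_union_le _ _
        _ ≤ i * B.card + B.card := Nat.add_le_add hB3 (le_trans (vs_card_le A) (hp1 B hB))
        _ = (i + 1) * B.card := by ring
    have hUc : U.card ≤ c * A.card :=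
      le_trans hA3 (Nat.mul_le_mul_right _ (by omega))
    rw [List.length_cons]
    refine ⟨A, hA1, hA2, ?_⟩
    by_cases ht : (vs A ∩ U).card ≤ t
    · refine Or.inl ⟨ht, hrec _ _ ?_⟩
      rw [phiL, epsL, if_pos ht, if_pos ht] at h
      rcases h with h | h
      · exact Or.inl (by omega)
      · exact Or.inr (by omega)
    · refine Or.inr ⟨by omega, hUc, hrec _ _ ?_⟩
      rw [phiL, epsL, if_neg ht, if_neg ht] at h
      rcases h with h | h
      · exact Or.inl (by omega)
      · exact Or.inr (by omega)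

end Pool.Agent.H.MP_cba12a_lc
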