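import Pool.Agent.H.MP_cba12a_lc.S10.Cnt10

/-!
Terms close to a given set of variables.
-/

namespace Pool.Agent.H.MP_cba12a_lc

open Finset

/-- An exponential beats a polynomial. -/
theorem pow_mul_exp_bounded (k c : ℕ) : ∃ C : ℕ, ∀ u e : ℕ, u ≤ 2 * c * e →
    (u : ℝ) ^ k * (3 / 4) ^ e ≤ C := by
  have ht := tendsto_pow_const_mul_const_pow_of_lt_one k (r := (3 / 4 : ℝ)) (by norm_num)
    (by norm_num)
  obtain ⟨B, hB⟩ := ht.bddAbove_range
  obtain ⟨C, hC⟩ := exists_nat_ge ((2 * c : ℝ) ^ k * B)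
  refine ⟨C, fun u e hue => le_trans ?_ hC⟩
  have h1 : (u : ℝ) ≤ 2 * c * e := by exact_mod_cast hue
  have h2 : (u : ℝ) ^ k ≤ (2 * c * e) ^ k := pow_le_pow_left₀ (Nat.cast_nonneg u) h1 k
  have h3 : (e : ℝ) ^ k * (3 / 4) ^ e ≤ B := hB ⟨e, rfl⟩
  calc (u : ℝ) ^ k * (3 / 4) ^ e ≤ (2 * c * e) ^ k * (3 / 4) ^ e :=
        mul_le_mul_of_nonneg_right h2 (by positivity)
    _ = (2 * c : ℝ) ^ k * ((e : ℝ) ^ k * (3 / 4) ^ e) := by rw [mul_pow]; ring
    _ ≤ (2 * c : ℝ) ^ k * B := mul_le_mul_of_nonneg_left h3 (by positivity)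

/-- The total weight of the terms close to a set of variables is bounded. -/
theorem ext10 (t d c : ℕ) : ∃ C : ℕ, 1 ≤ C ∧ ∀ (n : ℕ) (G : Finset (Finset (Fin n × Bool))),
    (∀ T ∈ G, (vs T).card = T.card) → Codeg t d G → ∀ U : Finset (Fin n),
    ∑ A ∈ G.filter (fun A => t < (vs A ∩ U).card ∧ U.card ≤ c * A.card),
      (3 / 4 : ℝ) ^ (vs A \ U).card ≤ C := by
  obtain ⟨C, hC⟩ := pow_mul_exp_bounded (t + 1) c
  refine ⟨d * (2 * c * (t + 1)) ^ (t + 1) + d * C + 1, by omega, fun n G hcons hcd U => ?_⟩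
  set F := G.filter (fun A => t < (vs A ∩ U).card ∧ U.card ≤ c * A.card) with hF
  rw [← sum_filter_add_sum_filter_not F (fun A => U.card ≤ 2 * c * (vs A ∩ U).card)]
  have h1 : ∑ A ∈ F.filter (fun A => U.card ≤ 2 * c * (vs A ∩ U).card),
      (3 / 4 : ℝ) ^ (vs A \ U).card ≤ ((d * (2 * c * (t + 1)) ^ (t + 1) : ℕ) : ℝ) := by
    calc ∑ A ∈ F.filter (fun A => U.card ≤ 2 * c * (vs A ∩ U).card),
          (3 / 4 : ℝ) ^ (vs A \ U).card
        ≤ ∑ A ∈ F.filter (fun A => U.card ≤ 2 * c * (vs A ∩ U).card), (1 : ℝ) :=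
          sum_le_sum fun A _ => pow_le_one₀ (by norm_num) (by norm_num)
      _ = ((F.filter (fun A => U.card ≤ 2 * c * (vs A ∩ U).card)).card : ℝ) := by
          rw [sum_const, nsmul_eq_mul, mul_one]
      _ ≤ _ := by
          refine Nat.cast_le.2 (le_trans (card_le_card fun A hA => ?_) (count10 hcd U (2 * c)))
          obtain ⟨hA1, hA2⟩ := mem_filter.1 hA
          obtain ⟨hA3, hA4⟩ := mem_filter.1 hA1
          exact mem_filter.2 ⟨hA3, hA4.1, hA2⟩
  have h2 : ∑ A ∈ F.filter (fun A => ¬ U.card ≤ 2 * c * (vs A ∩ U).card),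
      (3 / 4 : ℝ) ^ (vs A \ U).card ≤ ((d * C : ℕ) : ℝ) := by
    rcases (F.filter (fun A => ¬ U.card ≤ 2 * c * (vs A ∩ U).card)).eq_empty_or_nonempty with
      hemp | ⟨A0, hA0⟩
    · rw [hemp, sum_empty]
      exact Nat.cast_nonneg _
    have hu : 0 < U.card := by
      have h3 := (mem_filter.1 (mem_filter.1 hA0).1).2.1
      have h4 : (vs A0 ∩ U).card ≤ U.card := card_le_card inter_subset_right
      omega
    have hu0 : (0 : ℝ) < (U.card : ℝ) ^ (t + 1) := by positivity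
    have hterm : ∀ A ∈ F.filter (fun A => ¬ U.card ≤ 2 * c * (vs A ∩ U).card),
        (3 / 4 : ℝ) ^ (vs A \ U).card ≤ C / (U.card : ℝ) ^ (t + 1) := by
      intro A hA
      obtain ⟨hA1, hA2⟩ := mem_filter.1 hA
      obtain ⟨hA3, hA4, hA5⟩ := mem_filter.1 hA1
      have h6 : (vs A ∩ U).card + (vs A \ U).card = A.card := by
        rw [card_inter_add_card_sdiff, hcons A hA3]
      have h7 : U.card ≤ 2 * c * (vs A \ U).card := by
        rw [← h6] at hA5
        rw [not_le] at hA2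
        nlinarith
      rw [le_div_iff₀ hu0, mul_comm]
      exact hC _ _ h7
    calc ∑ A ∈ F.filter (fun A => ¬ U.card ≤ 2 * c * (vs A ∩ U).card),
          (3 / 4 : ℝ) ^ (vs A \ U).card
        ≤ ∑ A ∈ F.filter (fun A => ¬ U.card ≤ 2 * c * (vs A ∩ U).card),
            (C / (U.card : ℝ) ^ (t + 1)) := sum_le_sum hterm
      _ = ((F.filter (fun A => ¬ U.card ≤ 2 * c * (vs A ∩ U).card)).card : ℝ) *
            (C / (U.card : ℝ) ^ (t + 1)) := by rw [sum_const, nsmul_eq_mul]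
      _ ≤ ((d * U.card ^ (t + 1) : ℕ) : ℝ) * (C / (U.card : ℝ) ^ (t + 1)) := by
          refine mul_le_mul_of_nonneg_right (Nat.cast_le.2 (le_trans
            (card_le_card fun A hA => ?_) (count_pow10 hcd U))) (by positivity)
          obtain ⟨hA1, hA2⟩ := mem_filter.1 hA
          obtain ⟨hA3, hA4⟩ := mem_filter.1 hA1
          exact mem_filter.2 ⟨hA3, hA4.1⟩
      _ = ((d * C : ℕ) : ℝ) := by
          push_cast
          field_simp
  have h3 := add_le_add h1 h2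
  refine h3.trans ?_
  push_cast
  linarith

end Pool.Agent.H.MP_cba12a_lc
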