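import Pool.Agent.H.MP_cba12a_lc.Final6
import Pool.Agent.H.MP_cba12a_lc.S10.Cnt10
import Pool.Agent.H.MP_cba12a_lc.S10.Alg10

/-!
The family of terms at a leaf of the tree.
-/

namespace Pool.Agent.H.MP_cba12a_lc

open Finset

variable {n m : ℕ}

theorem restr_codeg {B : Finset (Fin n × Bool)} {F : Finset (Finset (Fin n × Bool))} {t d : ℕ}
    (h : Codeg t d F) : Codeg t d (restr B F) := by
  classical
  intro S hS
  refine le_trans ?_ (h S hS)
  have h1 : (restr B F).filter (fun T => S ⊆ vs T) ⊆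
      (F.filter fun T => S ⊆ vs T).image (outs (vs B)) := by
    intro T hT
    rw [mem_filter] at hT
    obtain ⟨hT1, hT2⟩ := hT
    unfold restr at hT1
    obtain ⟨T0, hT0, rfl⟩ := mem_image.1 hT1
    exact mem_image.2 ⟨T0, mem_filter.2 ⟨(mem_filter.1 hT0).1,
      hT2.trans (vs_mono (outs_sub _ _))⟩, rfl⟩
  exact (card_le_card h1).trans card_image_le

/-- number of terms -/
theorem Fam10.num_le {t d K0 : ℕ} {κ : ℝ} {X : Finset (Fin n)}
    {G : Finset (Finset (Fin n × Bool))} (h : Fam10 t d K0 κ X G) (hK : t ≤ K0) :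
    G.card ≤ d * n ^ (t + 1) := by
  classical
  have h1 := count_pow10 h.codeg (univ : Finset (Fin n))
  rw [card_univ, Fintype.card_fin] at h1
  refine le_trans (card_le_card fun A hA => ?_) h1
  rw [mem_filter, inter_univ, h.cons A hA]
  have := h.long hA
  exact ⟨hA, by omega⟩

/-- the terms with a given property at all leaves -/
theorem leaves_terms_le10 {Ls : List (List Lit)} {E : (Fin n → Bool) → Bool}
    {H : List Lit → Finset (Finset (Fin n × Bool))} {P : List Lit → Finset (Fin n × Bool) → Prop}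
    [∀ α, DecidablePred (P α)] {c : ℝ} (hc : 0 ≤ c) (htw : tw Ls ≤ 1)
    (hd : ∀ α ∈ Ls, (α.map Prod.fst).Nodup ∧ ∀ l ∈ α, l.1 < n)
    (hH : ∀ α ∈ Ls, ∀ T ∈ H α, Disjoint (vs T) (vs (toF n α)))
    (hE : ∀ x, E x = true → ∃ α ∈ Ls, sat (List.ofFn x) α = true ∧
      ∃ T ∈ H α, P α T ∧ SatT T x)
    (h : ∀ α ∈ Ls, ∑ T ∈ (H α).filter (P α), wF T ≤ c) : mu E ≤ c := by
  classical
  have h1 := leaves_le (Ls := Ls) (E := E) (E' := fun α x =>
    decide (sat (List.ofFn x) α = true ∧ ∃ T ∈ (H α).filter (P α), SatT T x)) (by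
      intro x hx
      obtain ⟨α, hα, h1, T, hT, h2, h3⟩ := hE x hx
      exact ⟨α, hα, by
        rw [decide_eq_true_iff]; exact ⟨h1, T, mem_filter.2 ⟨hT, h2⟩, h3⟩⟩) c 0 (by
      intro α hα
      rw [add_zero]
      refine (mu_leaf_terms (hd α hα).1 (hd α hα).2
        (fun T hT => hH α hα T (mem_filter.1 hT).1)).trans ?_
      exact mul_le_mul_of_nonneg_left (h α hα) (wt_nonneg α))
  rw [mul_zero, add_zero] at h1
  refine h1.trans ?_
  calc tw Ls * c ≤ 1 * c := mul_le_mul_of_nonneg_right htw hc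
    _ = c := one_mul _

/-- the needed terms at all leaves -/
theorem leaves_need_le10 {Ls : List (List Lit)} {E : (Fin n → Bool) → Bool}
    {H : List Lit → Finset (Finset (Fin n × Bool))} {P : List Lit → Finset (Fin n × Bool) → Prop}
    {E' : List Lit → Finset (Fin n × Bool) → (Fin n → Bool) → Bool}
    {c : ℝ} {M : ℕ} (hc : 0 ≤ c)
    (hE : ∀ x, E x = true → ∃ α ∈ Ls, ∃ T ∈ H α, P α T ∧ E' α T x = true)
    (hM : ∀ α ∈ Ls, (H α).card ≤ M)
    (h : ∀ α ∈ Ls, ∀ T ∈ H α, P α T → mu (E' α T) ≤ c) :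
    mu E ≤ Ls.length * (M * c) := by
  classical
  have h1 := leaves_le (Ls := Ls) (E := E) (E' := fun α x =>
    decide (∃ T ∈ (H α).filter (P α), E' α T x = true)) (by
      intro x hx
      obtain ⟨α, hα, T, hT, h2, h3⟩ := hE x hx
      exact ⟨α, hα, by rw [decide_eq_true_iff]; exact ⟨T, mem_filter.2 ⟨hT, h2⟩, h3⟩⟩) 0 (M * c)
      (by
      intro α hα
      rw [mul_zero, zero_add]
      refine (mu_finset_le ((H α).filter (P α)) _ (E' α) (by
        intro x hx
        rw [decide_eq_true_iff] at hx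
        exact hx)).trans ?_
      calc ∑ T ∈ (H α).filter (P α), mu (E' α T) ≤ ∑ _T ∈ (H α).filter (P α), c := by
            refine sum_le_sum fun T hT => ?_
            rw [mem_filter] at hT
            exact h α hα T hT.1 hT.2
        _ = (((H α).filter (P α)).card : ℝ) * c := by
            rw [sum_const, nsmul_eq_mul]
        _ ≤ M * c := by
            refine mul_le_mul_of_nonneg_right ?_ hc
            have := (card_filter_le (H α) (P α)).trans (hM α hα)
            exact_mod_cast this)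
  rw [mul_zero, zero_add] at h1
  exact h1

/-- the family at a leaf -/
theorem leaf_fam10 {K N t d K0 : ℕ} {τ : ℝ} {f g : (Fin n → Bool) → Bool} {ω : Fin m → Fin n → Bool}
    {α : List Lit} {F : Finset (Finset (Fin n × Bool))} (hm : 0 < m) (hτ : 0 < τ)
    (hαd : (α.map Prod.fst).Nodup) (hαn : ∀ l ∈ α, l.1 < n)
    (hgF : ∀ x, g x = true ↔ ∃ T ∈ F, SatT T x)
    (hcodeg : Codeg t d F)
    (hfin : fin6 K N K0 (allLits n) (smp f ω) α = true)
    (hrt : rt K (smp f ω) α = false)
    (hfg : dst f g ≤ τ) (hrep : Rep f ω 0 τ) (hN : (2 * n + 1) ^ K0 ≤ N)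
    (hK : 1 ≤ K) (hτK : 8 * K * 2 ^ K0 * τ ≤ wt α) :
    Fam10 t d K0 (1 / (2 * K)) (vs (toF n α)) (restr (toF n α) F) := by
  classical
  have hK' : (1 : ℝ) ≤ K := by exact_mod_cast hK
  have hwt0 : 0 < wt α := by unfold wt; positivity
  have hempty : shorts6 K N K0 (allLits n) (smp f ω) α = [] := by
    unfold fin6 at hfin
    rw [hrt, Bool.false_or, List.isEmpty_iff] at hfin
    exact hfin
  refine ⟨fun T hT => (restr_cons hT).1, fun T hT => (restr_cons hT).2, restr_codeg hcodeg,
    ?_, by positivity, ?_⟩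
  · intro C hCc hCX hCt
    have hCαd : ((lits C ++ α).map Prod.fst).Nodup := by
      rw [List.map_append, List.nodup_append]
      refine ⟨nodup_lits hCc, hαd, ?_⟩
      intro j hj j' hj' hjj
      subst hjj
      obtain ⟨l, hl, rfl⟩ := List.mem_map.1 hj
      obtain ⟨l', hl', rfl⟩ := mem_lits.1 hl
      exact disjoint_left.1 hCX (mem_vs.2 ⟨l', hl', rfl⟩) (mem_vs_toF.2 hj')
    have hCαn : ∀ l ∈ lits C ++ α, l.1 < n := by
      intro l hl
      rcases List.mem_append.1 hl with hl | hl
      · exact lits_lt hl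
      · exact hαn l hl
    have hrtC : rt K (smp f ω) (lits C ++ α) = false := by
      by_contra hcon
      rw [Bool.not_eq_false] at hcon
      have hmem : lits C ∈ shorts6 K N K0 (allLits n) (smp f ω) α := by
        unfold shorts6
        rw [List.mem_filter, Bool.and_eq_true]
        exact ⟨mem_seeds (by rw [length_allLits]; exact hN) (by rw [length_lits]; exact hCt)
          (fun l hl => mem_allLits.2 (lits_lt hl)), dist_iff.2 hCαd, hcon⟩
      rw [hempty] at hmem
      simp at hmem
    have h1 := rt_false_spec hm hrep hCαd hCαn hrtC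
    have h2 := mu_ev_sub_le f g false (lits C ++ α) []
    have h3 : mu (ev g false (lits C ++ α) []) ≤ wt α * nn (restr (toF n α) F) C := by
      unfold nn
      rw [← mu_leaf_and hαd hαn (fun x => SatT C x ∧ ∀ A ∈ restr (toF n α) F, ¬ SatT A x) (by
        intro i hi x
        refine and_congr (satT_flp (fun hc => disjoint_left.1 hCX hc hi) x) ?_
        refine forall₂_congr fun A hA => ?_
        exact not_congr (satT_flp (fun hc => disjoint_left.1 (restr_cons hA).2 hc hi) x))]
      refine mu_mono fun x hx => ?_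
      rw [ev_iff, sat_append, sat_lits] at hx
      rw [decide_eq_true_iff]
      refine ⟨hx.2.1.2, hx.2.1.1, ?_⟩
      intro A hA hs
      have h4 : g x = true := by
        rw [hgF, restr_spec ((satT_toF hαn).1 hx.2.1.2)]
        exact ⟨A, hA, hs⟩
      rw [h4] at hx
      exact Bool.noConfusion hx.1
    have h4 : wt (lits C ++ α) = wF C * wt α := by
      unfold wt wF
      rw [List.length_append, length_lits, pow_add]
    rw [h4] at h1
    have h5 : (1 / 2 : ℝ) ^ K0 ≤ wF C := by
      unfold wF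
      exact pow_le_pow_of_le_one (by norm_num) (by norm_num) hCt
    have h6 : 8 * K * τ ≤ wF C * wt α := by
      have e : (1 / 2 : ℝ) ^ K0 * 2 ^ K0 = 1 := by rw [← mul_pow]; norm_num
      calc 8 * K * τ = (1 / 2 : ℝ) ^ K0 * (8 * K * 2 ^ K0 * τ) := by
            rw [show (1 / 2 : ℝ) ^ K0 * (8 * K * 2 ^ K0 * τ) =
              ((1 / 2 : ℝ) ^ K0 * 2 ^ K0) * (8 * K * τ) by ring, e, one_mul]
        _ ≤ (1 / 2 : ℝ) ^ K0 * wt α := mul_le_mul_of_nonneg_left hτK (by positivity)
        _ ≤ wF C * wt α := mul_le_mul_of_nonneg_right h5 hwt0.le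
    have h7 : (K : ℝ) * (mu (ev f false (lits C ++ α) []) + τ) ≤
        K * (wt α * nn (restr (toF n α) F) C + 2 * τ) :=
      mul_le_mul_of_nonneg_left (by linarith) (by positivity)
    have h8 : wF C * wt α ≤ (wt α * nn (restr (toF n α) F) C) * (2 * K) := by
      have h9 : τ ≤ K * τ := le_mul_of_one_le_left hτ.le hK'
      nlinarith
    have h9 : wF C ≤ nn (restr (toF n α) F) C * (2 * K) := by
      by_contra hcon
      have h10 := mul_lt_mul_of_pos_right (not_le.1 hcon) hwt0
      nlinarith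
    rw [one_div_mul_eq_div, div_le_iff₀ (by positivity)]
    exact h9
  · rw [div_le_one (by positivity)]
    linarith

end Pool.Agent.H.MP_cba12a_lc
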