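import Pool.Agent.H.MP_cba12a_lc.S10.Fam10
import Pool.Agent.H.MP_cba12a_lc.S9.Link9

/-!
The link of a literal.
-/

namespace Pool.Agent.H.MP_cba12a_lc

open Finset

variable {n : ℕ}

variable {t d K0 : ℕ} {κ : ℝ} {X : Finset (Fin n)} {G : Finset (Finset (Fin n × Bool))}

/-- The link of a literal is a family with smaller overlaps. -/
theorem link_fam10 (h : Fam10 (t + 1) d (K0 + 1) κ X G) {l : Fin n × Bool} (hl : l.1 ∉ X) :
    Fam10 t d K0 κ (insert l.1 X) (link G l) := by
  have hmem : ∀ T ∈ link G l, ∃ T' ∈ G, l ∈ T' ∧ T'.erase l = T := by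
    intro T hT
    unfold link at hT
    obtain ⟨T', hT', rfl⟩ := mem_image.1 hT
    exact ⟨T', (mem_filter.1 hT').1, (mem_filter.1 hT').2, rfl⟩
  refine ⟨?_, ?_, ?_, ?_, h.pos, h.le_one⟩
  · intro T hT
    obtain ⟨T', hT', _, rfl⟩ := hmem T hT
    exact cons_mono (erase_subset _ _) (h.cons T' hT')
  · intro T hT
    obtain ⟨T', hT', hlT, rfl⟩ := hmem T hT
    rw [disjoint_insert_right]
    constructor
    · rw [vs_erase_link (h.cons T' hT') hlT]
      exact notMem_erase _ _
    · exact (h.dis T' hT').mono_left (vs_mono (erase_subset _ _))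
  · intro S hS
    by_cases hlS : l.1 ∈ S
    · rw [filter_false_of_mem, card_empty]
      · exact Nat.zero_le _
      · intro T hT hc
        obtain ⟨T', hT', hlT, rfl⟩ := hmem T hT
        have h1 := hc hlS
        rw [vs_erase_link (h.cons T' hT') hlT] at h1
        exact notMem_erase _ _ h1
    · have h1 := h.codeg (insert l.1 S) (by rw [card_insert_of_notMem hlS, hS])
      refine le_trans ?_ h1
      refine (card_le_card ?_).trans (card_image_le (s := G.filter fun T => insert l.1 S ⊆ vs T)
        (f := fun T => T.erase l))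
      intro T hT
      rw [mem_filter] at hT
      obtain ⟨T', hT', hlT, rfl⟩ := hmem T hT.1
      rw [mem_image]
      refine ⟨T', mem_filter.2 ⟨hT', ?_⟩, rfl⟩
      rw [insert_subset_iff]
      exact ⟨mem_vs.2 ⟨l, hlT, rfl⟩, hT.2.trans (vs_mono (erase_subset _ _))⟩
  · intro C hC hCX hCt
    rw [disjoint_insert_right] at hCX
    have hlC : l ∉ C := fun hc => hCX.1 (mem_vs.2 ⟨l, hc, rfl⟩)
    have hvs : vs (insert l C) = insert l.1 (vs C) := by
      unfold vs
      rw [image_insert]
    have h1 : (vs (insert l C)).card = (insert l C).card := by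
      rw [hvs, card_insert_of_notMem hCX.1, card_insert_of_notMem hlC, hC]
    have h2 : Disjoint (vs (insert l C)) X := by
      rw [hvs, disjoint_insert_left]
      exact ⟨hl, hCX.2⟩
    have h3 : (insert l C).card ≤ K0 + 1 := by
      rw [card_insert_of_notMem hlC]
      omega
    have h4 := h.low (insert l C) h1 h2 h3
    have h5 : wF (insert l C) = 1 / 2 * wF C := by
      unfold wF
      rw [card_insert_of_notMem hlC, pow_succ]
      ring
    have h6 : nn G (insert l C) ≤ 1 / 2 * nn (link G l) C := by
      have e1 : wF ({l} : Finset (Fin n × Bool)) = 1 / 2 := by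
        unfold wF
        rw [card_singleton, pow_one]
      have h7 := mu_satT_le {l} (fun x : Fin n → Bool => SatT C x ∧ ∀ A ∈ link G l, ¬ SatT A x) (by
        intro i hi x
        have hi' : i = l.1 := by
          obtain ⟨l', hl', rfl⟩ := mem_vs.1 hi
          rw [mem_singleton.1 hl']
        subst hi'
        rw [satT_flp hCX.1]
        refine and_congr_right fun _ => ?_
        refine forall₂_congr fun A hA => ?_
        obtain ⟨T', hT', hlT, rfl⟩ := hmem A hA
        rw [satT_flp]
        rw [vs_erase_link (h.cons T' hT') hlT]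
        exact notMem_erase _ _)
      rw [e1] at h7
      refine le_trans ?_ h7
      unfold nn
      refine mu_mono fun x hx => ?_
      rw [decide_eq_true_iff] at hx ⊢
      have hlx : SatT {l} x := satT_mono (singleton_subset_iff.2 (mem_insert_self l C)) hx.1
      refine ⟨hlx, satT_mono (subset_insert l C) hx.1, ?_⟩
      intro A hA hc
      obtain ⟨T', hT', hlT, rfl⟩ := hmem A hA
      refine hx.2 T' hT' fun l' hl' => ?_
      by_cases he : l' = l
      · rw [he]
        exact hlx l (mem_singleton_self l)
      · exact hc l' (mem_erase.2 ⟨he, hl'⟩)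
    rw [h5] at h4
    have h8 := h4.trans h6
    have h9 : κ * (1 / 2 * wF C) = 1 / 2 * (κ * wF C) := by ring
    rw [h9] at h8
    linarith

theorem fam10_empty {t d K0 : ℕ} {κ : ℝ} (X : Finset (Fin n)) (h0 : 0 < κ) (h1 : κ ≤ 1) :
    Fam10 t d K0 κ X ∅ := by
  refine ⟨by simp, by simp, fun S _ => by simp, ?_, h0, h1⟩
  intro C hC _ _
  have e : nn (∅ : Finset (Finset (Fin n × Bool))) C = wF C := by
    rw [← mu_sat1_eq hC]
    unfold nn
    refine mu_congr fun x => ?_
    simp
  rw [e]
  have := wF_pos C
  nlinarith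

/-- The degree of a variable is at most the weight bound for smaller overlaps. -/
theorem dg_le_link10 (h : Fam10 (t + 1) d (K0 + 1) κ X G) {B : ℝ}
    (hB : ∀ (X' : Finset (Fin n)) (G' : Finset (Finset (Fin n × Bool))),
      Fam10 t d K0 κ X' G' → tW G' ≤ B) (j : Fin n) : dg G j ≤ B := by
  have hB0 : 0 ≤ B := (tW_nonneg _).trans (hB X ∅ (fam10_empty X h.pos h.le_one))
  by_cases hj : j ∈ X
  · have e : dg G j = 0 := by
      unfold dg
      rw [filter_false_of_mem, sum_empty]
      intro T hT hc
      exact disjoint_left.1 (h.dis T hT) hc hj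
    rw [e]; exact hB0
  · have h1 := hB _ _ (link_fam10 h (l := (j, true)) hj)
    have h2 := hB _ _ (link_fam10 h (l := (j, false)) hj)
    have h3 : dg G j ≤ ∑ T ∈ G.filter (fun T => (j, true) ∈ T), wF T +
        ∑ T ∈ G.filter (fun T => (j, false) ∈ T), wF T := by
      unfold dg
      rw [← sum_union_inter]
      have h4 : G.filter (fun T => j ∈ vs T) ⊆
          G.filter (fun T => (j, true) ∈ T) ∪ G.filter (fun T => (j, false) ∈ T) := by
        intro T hT
        rw [mem_filter] at hT
        rw [mem_union, mem_filter, mem_filter]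
        obtain ⟨l, hl, hlj⟩ := mem_vs.1 hT.2
        obtain ⟨a, b⟩ := l
        simp only at hlj
        subst hlj
        cases b
        · exact Or.inr ⟨hT.1, hl⟩
        · exact Or.inl ⟨hT.1, hl⟩
      have h5 := sum_le_sum_of_subset_of_nonneg (f := fun T => wF T) h4
        (fun T _ _ => (wF_pos T).le)
      have h6 : 0 ≤ ∑ T ∈ G.filter (fun T => (j, true) ∈ T) ∩
          G.filter (fun T => (j, false) ∈ T), wF T := sum_nonneg fun T _ => (wF_pos T).le
      linarith
    rw [sum_link, sum_link] at h3
    linarith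

/-- For `t = 0` every degree is at most `d`. -/
theorem dg_le_zero10 (h : Fam10 0 d K0 κ X G) (j : Fin n) : dg G j ≤ d := by
  have h1 := h.codeg {j} (by simp)
  unfold dg
  have h2 : ∑ T ∈ G.filter (fun T => j ∈ vs T), wF T ≤
      ∑ _T ∈ G.filter (fun T => j ∈ vs T), (1 : ℝ) := by
    refine sum_le_sum fun T _ => ?_
    unfold wF
    exact pow_le_one₀ (by norm_num) (by norm_num)
  refine h2.trans ?_
  rw [sum_const, nsmul_eq_mul, mul_one]
  have h3 : G.filter (fun T => j ∈ vs T) = G.filter (fun T => {j} ⊆ vs T) := by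
    refine filter_congr fun T _ => ?_
    rw [singleton_subset_iff]
  rw [h3]
  exact_mod_cast h1

end Pool.Agent.H.MP_cba12a_lc
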