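import Pool.Agent.H.MP_cba12a_lc.S10.Seg10

/-!
The length of an ordered list of terms of which few are new is bounded.
-/

namespace Pool.Agent.H.MP_cba12a_lc

open Finset

variable {n : ℕ}

variable {t d b lam : ℕ} {G : Finset (Finset (Fin n × Bool))}

/-- A list without new terms is short. -/
theorem seg10 (hc : ∀ T ∈ G, (vs T).card = T.card) (h : Codeg t d G) {c : ℕ}
    {l : List (Finset (Fin n × Bool))} {U : Finset (Fin n)} (hl : l.Nodup)
    (hG : ∀ A ∈ l, A ∈ G ∧ lam ≤ A.card ∧ U.card ≤ c * A.card) (hphi : phiL t l U = 0)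
    (heps : epsL t l U ≤ b * lam) : l.length ≤ d * ((c + b) * (t + 1)) ^ (t + 1) := by
  classical
  rw [← List.toFinset_card_of_nodup hl]
  refine le_trans (card_le_card ?_) (count10 h (unL l U) (c + b))
  intro A hA
  rw [List.mem_toFinset] at hA
  obtain ⟨h1, h2, h3⟩ := hG A hA
  have h4 : vs A ∩ unL l U = vs A := inter_eq_left.2 (mem_unL hA U)
  have h5 := long_of_phiL U hphi A hA
  rw [mem_filter, h4]
  refine ⟨h1, h5, ?_⟩
  calc (unL l U).card ≤ U.card + epsL t l U := card_unL l U hphi
    _ ≤ c * A.card + b * A.card := add_le_add h3 (heps.trans (Nat.mul_le_mul_left b h2))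
    _ = (c + b) * (vs A).card := by rw [hc A h1]; ring

/-- bound for the length of a list with at most `φ` terms of the first kind -/
def NN10 (t d b : ℕ) : ℕ → ℕ → ℕ
  | 0, c => d * ((c + b) * (t + 1)) ^ (t + 1)
  | φ + 1, c => d * ((c + b) * (t + 1)) ^ (t + 1) + 1 + NN10 t d b φ (c + b + 1)

/-- An ordered list with few new terms is short. -/
theorem struct10 (hc : ∀ T ∈ G, (vs T).card = T.card) (h : Codeg t d G) (φ : ℕ) :
    ∀ (c : ℕ) (l : List (Finset (Fin n × Bool))) (U : Finset (Fin n)), l.Nodup →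
    l.Pairwise (fun A B => A.card ≤ B.card) →
    (∀ A ∈ l, A ∈ G ∧ lam ≤ A.card ∧ U.card ≤ c * A.card) → phiL t l U ≤ φ →
    epsL t l U ≤ b * lam → l.length ≤ NN10 t d b φ c := by
  induction φ with
  | zero =>
    intro c l U hl hp hG hphi heps
    exact seg10 hc h hl hG (Nat.le_zero.1 hphi) heps
  | succ φ ih =>
    intro c l U hl hp hG hphi heps
    rcases split_phiL (t := t) l U with h0 | ⟨l1, B, l2, rfl, h1, h2, h3⟩
    · have := seg10 hc h hl hG h0 heps
      show l.length ≤ d * ((c + b) * (t + 1)) ^ (t + 1) + 1 + NN10 t d b φ (c + b + 1)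
      omega
    · have hl' := List.nodup_append.1 hl
      have hp' := List.pairwise_append.1 hp
      have e1 : epsL t l1 U ≤ b * lam := by omega
      have e2 : epsL t l2 (unL l1 U ∪ vs B) ≤ b * lam := by omega
      have a1 : l1.length ≤ d * ((c + b) * (t + 1)) ^ (t + 1) :=
        seg10 hc h hl'.1 (fun A hA => hG A (List.mem_append_left _ hA)) h1 e1
      have hBG : B ∈ G := (hG B (by simp)).1
      have a2 : l2.length ≤ NN10 t d b φ (c + b + 1) := by
        refine ih (c + b + 1) l2 (unL l1 U ∪ vs B) (List.nodup_cons.1 hl'.2.1).2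
          (List.pairwise_cons.1 hp'.2.1).2 (fun A hA => ?_) (by omega) e2
        obtain ⟨g1, g2, g3⟩ := hG A (by simp [hA])
        refine ⟨g1, g2, ?_⟩
        have hBA : B.card ≤ A.card := (List.pairwise_cons.1 hp'.2.1).1 A hA
        calc (unL l1 U ∪ vs B).card ≤ (unL l1 U).card + (vs B).card := card_union_le _ _
          _ ≤ (U.card + epsL t l1 U) + B.card :=
              add_le_add (card_unL l1 U h1) (hc B hBG).le
          _ ≤ (c * A.card + b * A.card) + A.card :=
              add_le_add (add_le_add g3 (e1.trans (Nat.mul_le_mul_left b g2))) hBA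
          _ = (c + b + 1) * A.card := by ring
      show (l1 ++ B :: l2).length ≤ d * ((c + b) * (t + 1)) ^ (t + 1) + 1 + NN10 t d b φ (c + b + 1)
      rw [List.length_append, List.length_cons]
      omega

end Pool.Agent.H.MP_cba12a_lc
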