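import Pool.Agent.H.MP_cba12a_lc.S10.EvL10
import Pool.Agent.H.MP_cba12a_lc.S10.Str10

/-!
The noise of the mixed derivative.
-/

namespace Pool.Agent.H.MP_cba12a_lc

open Finset

open Classical in
/-- The first `m` elements in the order of length. -/
theorem exists_sorted {n : ℕ} {S : Finset (Finset (Fin n × Bool))} {m : ℕ} (hm : m ≤ S.card) :
    ∃ l : List (Finset (Fin n × Bool)), l.Nodup ∧ l.length = m ∧ (∀ A ∈ l, A ∈ S) ∧
      l.Pairwise (fun A B => A.card ≤ B.card) := by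
  let r : Finset (Fin n × Bool) → Finset (Fin n × Bool) → Prop := fun A B => A.card ≤ B.card
  have : Std.Total r := ⟨fun A B => le_total A.card B.card⟩
  have : IsTrans (Finset (Fin n × Bool)) r := ⟨fun A B C h1 h2 => le_trans h1 h2⟩
  have hperm := List.perm_insertionSort r S.toList
  refine ⟨(List.insertionSort r S.toList).take m, ?_, ?_, ?_, ?_⟩
  · exact (hperm.nodup_iff.2 S.nodup_toList).sublist (List.take_sublist _ _)
  · rw [List.length_take, List.length_insertionSort, length_toList, min_eq_left hm]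
  · intro A hA
    have h1 := List.mem_of_mem_take hA
    rw [List.mem_insertionSort] at h1
    exact mem_toList.1 h1
  · exact (List.pairwise_insertionSort r S.toList).sublist (List.take_sublist _ _)

/-- number of terms in a long list -/
def mm10 (t d b : ℕ) : ℕ := NN10 t d b (t + 1) 0 + 1

/-- number of differentiated variables -/
def kk10 (t d b : ℕ) : ℕ := (t + 1) * mm10 t d b

open Classical in
/-- The total weight of the terms that meet a set of variables. -/
theorem noise10_weight {n t : ℕ} {G Gs : Finset (Finset (Fin n × Bool))} {Y : Finset (Fin n)}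
    {δ : ℝ} (hG : Gs ⊆ G) (hdg : ∀ j ∈ Y, dg G j ≤ δ) :
    ∑ A ∈ Gs.filter (fun A => (vs A ∩ Y).Nonempty), 2 ^ t * wF A ≤ 2 ^ t * (Y.card : ℝ) * δ := by
  rw [← mul_sum, mul_assoc]
  refine mul_le_mul_of_nonneg_left ?_ (by positivity)
  calc ∑ A ∈ Gs.filter (fun A => (vs A ∩ Y).Nonempty), wF A
      ≤ ∑ A ∈ Gs.filter (fun A => (vs A ∩ Y).Nonempty), ∑ j ∈ Y, if j ∈ vs A then wF A else 0 := by
        refine sum_le_sum fun A hA => ?_
        obtain ⟨j, hj⟩ := (mem_filter.1 hA).2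
        rw [mem_inter] at hj
        have h1 := single_le_sum (f := fun j => if j ∈ vs A then wF A else 0)
          (fun i _ => by
            change 0 ≤ if i ∈ vs A then wF A else 0
            split_ifs
            · exact (wF_pos A).le
            · exact le_refl _) hj.2
        have h2 : (if j ∈ vs A then wF A else 0) = wF A := if_pos hj.1
        exact (le_of_eq h2.symm).trans h1
    _ ≤ ∑ A ∈ G, ∑ j ∈ Y, (if j ∈ vs A then wF A else 0) := by
        refine sum_le_sum_of_subset_of_nonneg ((filter_subset _ _).trans hG) fun A _ _ => ?_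
        refine sum_nonneg fun j _ => ?_
        split_ifs
        · exact (wF_pos A).le
        · exact le_refl _
    _ = ∑ j ∈ Y, dg G j := by
        rw [sum_comm]
        refine sum_congr rfl fun j _ => ?_
        unfold dg
        rw [sum_filter]
    _ ≤ ∑ _j ∈ Y, δ := sum_le_sum hdg
    _ = (Y.card : ℝ) * δ := by rw [sum_const, nsmul_eq_mul]

open Classical in
/-- The event of the mixed derivative is contained in the event of the ordered lists. -/
theorem noise10_event {n t d b lam E0 : ℕ} {G Gs : Finset (Finset (Fin n × Bool))}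
    {Y : Finset (Fin n)} (hc : ∀ T ∈ G, (vs T).card = T.card) (h : Codeg t d G) (hG : Gs ⊆ G)
    (hY : Y.card = kk10 t d b) (hE : E0 ≤ b * lam)
    (hlong : ∀ A ∈ Gs, (vs A ∩ Y).Nonempty → lam ≤ A.card ∧ (vs A ∩ Y).card ≤ t + 1)
    {x : Fin n → Bool} (hx : ∀ j ∈ Y, ∃ A ∈ Gs, j ∈ vs A ∧ SatT (outs Y A) x) :
    Ev10 t (mm10 t d b) E0 (Gs.filter fun A => (vs A ∩ Y).Nonempty) Y (mm10 t d b) ∅ 0 0 x := by
  choose! c hc1 hc2 hc3 using hx
  have hfib : ∀ B ∈ Y.image c, (Y.filter fun j => c j = B).card ≤ t + 1 := by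
    intro B hB
    obtain ⟨j, hj, rfl⟩ := mem_image.1 hB
    refine (card_le_card ?_).trans
      (hlong (c j) (hc1 j hj) ⟨j, mem_inter.2 ⟨hc2 j hj, hj⟩⟩).2
    intro i hi
    rw [mem_filter] at hi
    rw [mem_inter]
    refine ⟨?_, hi.1⟩
    rw [← hi.2]
    exact hc2 i hi.1
  have hcard := card_le_mul_card_image Y (t + 1) hfib
  rw [hY] at hcard
  have hm : mm10 t d b ≤ (Y.image c).card :=
    Nat.le_of_mul_le_mul_left hcard (Nat.succ_pos t)
  obtain ⟨l, hl1, hl2, hl3, hl4⟩ := exists_sorted hm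
  have hprop : ∀ A ∈ l, A ∈ Gs ∧ (vs A ∩ Y).Nonempty ∧ SatT (outs Y A) x := by
    intro A hA
    obtain ⟨j, hj, rfl⟩ := mem_image.1 (hl3 A hA)
    exact ⟨hc1 j hj, ⟨j, mem_inter.2 ⟨hc2 j hj, hj⟩⟩, hc3 j hj⟩
  have hcase : t + 2 ≤ 0 + phiL t l ∅ ∨ E0 ≤ 0 + epsL t l ∅ := by
    by_contra hcon
    rw [not_or, not_le, not_le, zero_add, zero_add] at hcon
    have h1 : l.length ≤ NN10 t d b (t + 1) 0 :=
      struct10 (lam := lam) hc h (t + 1) 0 l ∅ hl1 hl4
        (fun A hA => ⟨hG (hprop A hA).1, (hlong A (hprop A hA).1 (hprop A hA).2.1).1, by simp⟩)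
        (by omega) (by omega)
    rw [hl2] at h1
    unfold mm10 at h1
    omega
  have := ev10_of_list (t := t) (c := mm10 t d b) (E0 := E0)
    (Gs := Gs.filter fun A => (vs A ∩ Y).Nonempty) (Y := Y) (x := x) l ∅ 0 0 0
    (fun A hA => ⟨mem_filter.2 ⟨(hprop A hA).1, (hprop A hA).2.1⟩, (hprop A hA).2.2, by simp⟩)
    hl4 (by omega) hcase
  rwa [hl2] at this

/-- The noise of the mixed derivative. -/
theorem noise10 (t d b : ℕ) : ∃ C : ℕ, ∀ (n lam E0 : ℕ) (δ : ℝ)
    (G Gs : Finset (Finset (Fin n × Bool))) (Y : Finset (Fin n)),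
    (∀ T ∈ G, (vs T).card = T.card) → Codeg t d G → Gs ⊆ G → Y.card = kk10 t d b →
    (∀ j ∈ Y, dg G j ≤ δ) → 2 ^ t * (kk10 t d b : ℝ) * δ ≤ 1 → E0 ≤ b * lam →
    (∀ A ∈ Gs, (vs A ∩ Y).Nonempty → lam ≤ A.card ∧ (vs A ∩ Y).card ≤ t + 1) →
    mu (fun x => decide (∀ j ∈ Y, ∃ A ∈ Gs, j ∈ vs A ∧ SatT (outs Y A) x)) ≤
      C * ((2 ^ t * (kk10 t d b : ℝ) * δ) ^ (t + 2) + (2 / 3) ^ E0) := by
  classical
  obtain ⟨C, hC1, hext⟩ := ext10 t d (mm10 t d b)
  refine ⟨2 ^ kk10 t d b * (2 * C) ^ mm10 t d b, ?_⟩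
  intro n lam E0 δ G Gs Y hc h hG hY hdg ha1 hE hlong
  have hYpos : 0 < Y.card := by
    rw [hY]
    unfold kk10 mm10
    positivity
  obtain ⟨j0, hj0⟩ := card_pos.1 hYpos
  have hδ : 0 ≤ δ := (dg_nonneg G j0).trans (hdg j0 hj0)
  have hw := noise10_weight (t := t) hG hdg
  rw [hY] at hw
  have key := ev10_le (t := t) (c := mm10 t d b) (E0 := E0) (C := C)
    (Gs := Gs.filter fun A => (vs A ∩ Y).Nonempty) (Y := Y)
    (fun A hA => hc A (hG (mem_filter.1 hA).1)) hC1
    (fun U => ?_) (a := 2 ^ t * (kk10 t d b : ℝ) * δ) (by positivity) ha1 hw (mm10 t d b) ∅ ∅ 0 0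
    (by simp)
  · refine (mu_mono (E' := fun x => decide (SatT ∅ x ∧ Ev10 t (mm10 t d b) E0
      (Gs.filter fun A => (vs A ∩ Y).Nonempty) Y (mm10 t d b) ∅ 0 0 x)) fun x hx => ?_).trans
      (key.trans (le_of_eq ?_))
    · rw [decide_eq_true_iff] at hx ⊢
      exact ⟨fun l hl => absurd hl (notMem_empty l), noise10_event hc h hG hY hE hlong hx⟩
    · rw [hY]
      simp only [card_empty, pow_zero, mul_one, Nat.sub_zero]
      push_cast
      ring
  · refine le_trans ?_ (hext n G hc h U)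
    refine sum_le_sum_of_subset_of_nonneg ?_ fun A _ _ => by positivity
    exact filter_subset_filter _ ((filter_subset _ _).trans hG)

end Pool.Agent.H.MP_cba12a_lc
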