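import Pool.Agent.H.MP_cba12a_lc.S10.ParQ10

/-!
Choice of the parameters: elementary conditions.
-/

namespace Pool.Agent.H.MP_cba12a_lc

/-- Elementary requirements on the length `ℓ` of a term, which hold once `ℓ` is at least a constant
times `Nat.clog 2 a + 1`. -/
theorem par10_a (t d : ℕ) : ∃ c : ℕ, ∀ a ℓ : ℕ, 1 ≤ a → c * (Nat.clog 2 a + 1) ≤ ℓ →
    t ≤ ℓ / Th10 t d ∧
    kx10 t d + kx10 t d ^ (t + 1) * (d * (ℓ / Th10 t d)) + t + Mx10 t d ≤ ℓ ∧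
    2 ^ t * (kx10 t d : ℝ) * del10 t ℓ ≤ 1 ∧ 4 * ℓ ≤ 4 * (2 * t + 3) * (2 * q10 t ℓ) ∧
    1 ≤ ℓ := by
  obtain ⟨c0, hc0⟩ := q10_growth t (2 ^ t * kx10 t d) 0 0
  refine ⟨c0 + Th10 t d * t + 2 * (kx10 t d + t + Mx10 t d) + 1, fun a ℓ ha hl => ?_⟩
  have hle : c0 + Th10 t d * t + 2 * (kx10 t d + t + Mx10 t d) + 1 ≤ ℓ := by
    refine le_trans ?_ hl
    exact Nat.le_mul_of_pos_right _ (Nat.succ_pos _)
  have hl0 : c0 * (Nat.clog 2 a + 1) ≤ ℓ :=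
    (Nat.mul_le_mul_right _ (by omega)).trans hl
  obtain ⟨h1, h2, h3, h4⟩ := hc0 a ℓ ha hl0
  rw [pow_zero, pow_zero, mul_one, mul_one] at h1
  have hT : 0 < Th10 t d := by unfold Th10; omega
  refine ⟨?_, ?_, ?_, ?_, by omega⟩
  · rw [Nat.le_div_iff_mul_le hT, mul_comm]
    omega
  · have h5 : Th10 t d * (ℓ / Th10 t d) ≤ ℓ := Nat.mul_div_le ℓ _
    have h6 : 4 * (kx10 t d ^ (t + 1) * (d * (ℓ / Th10 t d))) ≤ Th10 t d * (ℓ / Th10 t d) := by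
      calc 4 * (kx10 t d ^ (t + 1) * (d * (ℓ / Th10 t d)))
          = (4 * (kx10 t d ^ (t + 1) * d)) * (ℓ / Th10 t d) := by ring
        _ ≤ Th10 t d * (ℓ / Th10 t d) := by
            refine Nat.mul_le_mul_right _ ?_
            unfold Th10
            omega
    omega
  · have h5 : ((2 ^ t * kx10 t d : ℕ) : ℝ) ≤ 2 ^ q10 t ℓ := by exact_mod_cast h1
    rw [Nat.cast_mul, Nat.cast_pow, Nat.cast_ofNat] at h5
    have h6 : del10 t ℓ ≤ (1 / 2) ^ q10 t ℓ := by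
      unfold del10
      exact pow_le_pow_of_le_one (by norm_num) (by norm_num) (by omega)
    calc 2 ^ t * (kx10 t d : ℝ) * del10 t ℓ ≤ 2 ^ q10 t ℓ * (1 / 2) ^ q10 t ℓ :=
          mul_le_mul h5 h6 (del10_pos t ℓ).le (by positivity)
      _ = 1 := by rw [← mul_pow]; norm_num
  · have h5 : (2 * t + 3) * 1 ≤ (2 * t + 3) * q10 t ℓ := Nat.mul_le_mul_left _ h2
    have h6 : 4 * (2 * t + 3) * (2 * q10 t ℓ) = 8 * ((2 * t + 3) * q10 t ℓ) := by ring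
    rw [h6]
    omega

end Pool.Agent.H.MP_cba12a_lc
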