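import Pool.Agent.H.MP_cba12a_lc.S9.Par9
import Pool.Agent.H.MP_cba12a_lc.S10.Noise10

/-!
Choice of the parameters, as functions of the length of a term.
-/

namespace Pool.Agent.H.MP_cba12a_lc

/-- number of differentiated variables -/
def kx10 (t d : ℕ) : ℕ := kk10 t d (4 * (2 * t + 3))

/-- a term `A` has a large part in `T` when `T` has at most `Th10 t d` times as many variables as
`A` and `T` have in common -/
def Th10 (t d : ℕ) : ℕ := 2 * t + 3 + 4 * (kx10 t d ^ (t + 1) * d)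

/-- bound for the number of terms with a large part in `T` -/
def Mx10 (t d : ℕ) : ℕ := d * (Th10 t d * (t + 1)) ^ (t + 1)

/-- the scale of a term of length `ℓ` -/
def q10 (t ℓ : ℕ) : ℕ := ℓ / (2 * t + 3)

/-- the degree parameter for terms of length `ℓ` -/
noncomputable def del10 (t ℓ : ℕ) : ℝ := (1 / 2) ^ (2 * q10 t ℓ)

theorem del10_pos (t ℓ : ℕ) : 0 < del10 t ℓ := by
  unfold del10
  positivity

/-- Polynomials in `a` and `ℓ` are at most `2 ^ q` for the scale `q` of `ℓ`, once `ℓ` is at least a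
constant times `Nat.clog 2 a + 1`. -/
theorem q10_growth (t K u v : ℕ) : ∃ c : ℕ, ∀ a ℓ : ℕ, 1 ≤ a → c * (Nat.clog 2 a + 1) ≤ ℓ →
    K * a ^ u * ℓ ^ v ≤ 2 ^ q10 t ℓ ∧ 1 ≤ q10 t ℓ ∧ (2 * t + 3) * q10 t ℓ ≤ ℓ ∧
    ℓ ≤ (2 * t + 3) * q10 t ℓ + (2 * t + 3) := by
  obtain ⟨c0, hc0⟩ := growth9 (K * (2 * (2 * t + 3)) ^ v) u v
  refine ⟨(2 * t + 3) * (c0 + 1), fun a ℓ ha hl => ?_⟩
  have hm : 0 < 2 * t + 3 := by omega
  have h1 : (c0 + 1) * (Nat.clog 2 a + 1) ≤ q10 t ℓ := by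
    unfold q10
    rw [Nat.le_div_iff_mul_le hm]
    calc (c0 + 1) * (Nat.clog 2 a + 1) * (2 * t + 3)
        = (2 * t + 3) * (c0 + 1) * (Nat.clog 2 a + 1) := by ring
      _ ≤ ℓ := hl
  have h2 : c0 * (Nat.clog 2 a + 1) ≤ q10 t ℓ :=
    (Nat.mul_le_mul_right _ (Nat.le_succ c0)).trans h1
  have h3 : 1 ≤ q10 t ℓ := (Nat.mul_pos (Nat.succ_pos c0) (Nat.succ_pos _)).trans_le h1
  have h4 : (2 * t + 3) * q10 t ℓ ≤ ℓ := Nat.mul_div_le ℓ (2 * t + 3)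
  have h5 : ℓ ≤ (2 * t + 3) * q10 t ℓ + (2 * t + 3) := by
    have h6 := Nat.div_add_mod ℓ (2 * t + 3)
    have h7 := Nat.mod_lt ℓ hm
    unfold q10
    omega
  refine ⟨?_, h3, h4, h5⟩
  have h8 : ℓ ≤ 2 * (2 * t + 3) * q10 t ℓ := by
    have h9 : (2 * t + 3) * 1 ≤ (2 * t + 3) * q10 t ℓ := Nat.mul_le_mul_left _ h3
    calc ℓ ≤ (2 * t + 3) * q10 t ℓ + (2 * t + 3) * 1 := by rw [mul_one]; exact h5
      _ ≤ (2 * t + 3) * q10 t ℓ + (2 * t + 3) * q10 t ℓ := Nat.add_le_add_left h9 _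
      _ = 2 * (2 * t + 3) * q10 t ℓ := by ring
  calc K * a ^ u * ℓ ^ v ≤ K * a ^ u * (2 * (2 * t + 3) * q10 t ℓ) ^ v :=
        Nat.mul_le_mul_left _ (Nat.pow_le_pow_left h8 v)
    _ = K * (2 * (2 * t + 3)) ^ v * a ^ u * q10 t ℓ ^ v := by
        rw [mul_pow (2 * (2 * t + 3))]; ring
    _ ≤ 2 ^ q10 t ℓ := hc0 a _ ha h2

end Pool.Agent.H.MP_cba12a_lc
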